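import Pool.Agent.Lib.MP_0d8e88_lc.AllK.Wire

/-!
A clause whose three literals are false has no representation.
-/

namespace Pool.Agent.Lib.MP_0d8e88_lc.AllK

open Pool.Agent.Shared.PolyTime

variable {q : ℕ} {ψ : List (Clause3 ℕ)} {h lf rt τ : V → ℝ}

theorem adjC_symmB {u v : V} (a : adjC q ψ u v) : adjC q ψ v u := by
  rcases u with n | w <;> rcases v with m | w'
  · exact ⟨a.1.symm, a.2.2, a.2.1⟩
  · exact a
  · exact a
  · exact a.symm

theorem pos_cell : ∀ j < 43, isC j = true → isE j = false ∧ ea j = 4 ∧ (ec j = 2 ∨ ec j = 3) := by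
  decide

theorem adj_one {r s κ : ℕ} (hs : s < NS ψ) (hk : kind ψ r s = κ) (j z : ℕ)
    (hd : (isC j && (isC z || z == 6 || z == 36) && Nat.ble (DD κ j z) 1) = true) :
    adjC q ψ (one q ψ r s j) (one q ψ r s z) := by
  subst hk
  simp only [Bool.and_eq_true, Bool.or_eq_true, beq_iff_eq, Nat.ble_eq] at hd
  obtain ⟨⟨hj, hz⟩, hd⟩ := hd
  obtain ⟨j1, j2, j3⟩ := pos_cell j (isC_lt hj) hj
  have pj : pos q j = 4 + 2 * q ∨ pos q j = 4 + 3 * q := by
    unfold pos
    rcases j3 with e | e <;> simp [j2, e]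
  have ee : ∀ z, z = 6 ∨ z = 36 → DD (kind ψ r s) j z ≤ 1 →
      adjE q ψ (r, own j s, j) (r * (3 * q + 4) + pos q z) := by
    intro z hz hd
    have p6 : pos q 6 = 3 + 2 * q := rfl
    have p36 : pos q 36 = 4 + 3 * q := rfl
    have c : cls q r (r * (3 * q + 4) + pos q z) = z := by
      rcases hz with rfl | rfl <;> exact cls_eq rfl le_rfl (Nat.lt_succ_self _)
    have g : gap q (.inr (r, own j s, j)) (.inl (r * (3 * q + 4) + pos q z)) ≤ q := by
      simp only [gap, gv, Sum.elim_inl, Sum.elim_inr]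
      rcases hz with rfl | rfl <;> omega
    refine ⟨by omega, Or.inr ⟨s, hs, rfl, ?_, ?_⟩⟩ <;> simp only [c] <;> omega
  rw [one, if_neg (by simp [j1]), cv_cell hj]
  rcases hz with (hz | rfl) | rfl
  · obtain ⟨z1, z2, z3⟩ := pos_cell z (isC_lt hz) hz
    have pz : pos q z = 4 + 2 * q ∨ pos q z = 4 + 3 * q := by
      unfold pos
      rcases z3 with e | e <;> simp [z2, e]
    rw [one, if_neg (by simp [z1]), cv_cell hz]
    refine Or.inl ⟨rfl, s, hs, rfl, rfl, by simp only; omega, ?_⟩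
    simp only [gap, gv, Sum.elim_inr]
    omega
  · exact ee 6 (Or.inl rfl) hd
  · exact ee 36 (Or.inr rfl) hd

/-- `w` is a bar that is not eternal and lies between `u` and `v`. -/
def Bk (q : ℕ) (ψ : List (Clause3 ℕ)) (h : V → ℝ) (u v w : V) : Prop :=
  w ∈ coreS q ψ ∧ w.isRight = true ∧ h u < h w ∧ h w < h v

/-- An edge across the pad, which is alive between the times `a` and `b`. -/
def Ed (q : ℕ) (ψ : List (Clause3 ℕ)) (h lf rt : V → ℝ) (a b : ℝ) (u v : V) : Prop :=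
  ∃ t, Al lf rt u t ∧ Al lf rt v t ∧ (a ≤ t → t ≤ b → ∀ w w', w ≠ w' → Bk q ψ h u v w →
    Bk q ψ h u v w' → Al lf rt w t → Al lf rt w' t → False)

theorem Cx.edge (X : Cx q ψ h lf rt τ) {r : ℕ} {a b : ℝ}
    (pad : ∀ w ∈ sy q ψ r 0 15, w ∈ coreS q ψ ∧ Al lf rt w a ∧ Al lf rt w b) {u v : V}
    (hu : u ∈ coreS q ψ) (hv : v ∈ coreS q ψ) (huv : h u < h v) (A : adjC q ψ u v)
    (h1 : ∀ w ∈ sy q ψ r 0 15, h u < h w) (h2 : ∀ w ∈ sy q ψ r 0 15, h w < h v) :
    Ed q ψ h lf rt a b u v := by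
  obtain ⟨t, t1, t2, t3⟩ := X.G.edge u hu v hv (fun e => huv.ne (congrArg h e)) A
  refine ⟨t, t1, t2, fun x y w w' n b1 b2 a1 a2 => ?_⟩
  have nm : ∀ w : V, w.isRight = true → w ∉ sy q ψ r 0 15 := fun w hw c => by
    obtain ⟨n, rfl, -⟩ := mem_sy_et rfl c
    simp at hw
  have := t3 (w :: w' :: sy q ψ r 0 15) ?_ ?_
  · simp only [List.length_cons, sy_len] at this
    rw [if_pos (show isZ 15 = true from rfl)] at this
    omega
  · refine List.nodup_cons.2 ⟨?_, List.nodup_cons.2 ⟨nm _ b2.2.1, ?_⟩⟩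
    · simp only [List.mem_cons, not_or]
      exact ⟨n, nm _ b1.2.1⟩
    · exact List.nodup_range.map fun i j e => by simpa using e
  · simp only [List.forall_mem_cons]
    exact ⟨⟨b1.1, a1, Or.inl b1.2.2⟩, ⟨b2.1, a2, Or.inl b2.2.2⟩, fun z hz =>
      ⟨(pad z hz).1, al_mid (pad z hz).2.1 (pad z hz).2.2 x y, Or.inl ⟨h1 z hz, h2 z hz⟩⟩⟩

theorem Cx.meet (X : Cx q ψ h lf rt τ) {u v : V} (hu : u ∈ coreS q ψ) (hv : v ∈ coreS q ψ)
    (n : u ≠ v) (A : adjC q ψ u v) : lf u ≤ rt v ∧ lf v ≤ rt u ∧ h u ≠ h v := by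
  obtain ⟨t, t1, t2, -⟩ := X.G.edge u hu v hv n A
  exact ⟨t1.1.trans t2.2, t2.1.trans t1.2, X.G.disj u hu v hv n t t1 t2⟩

theorem Cx.ltZ (X : Cx q ψ h lf rt τ) {r s κ : ℕ} (hr : r < NR ψ) (hs : s < NS ψ)
    (hk : kind ψ r s = κ) (x : ℕ) (hi : AllK.lt κ x 15 = true) (hx : isZ x = false) :
    ∀ w ∈ sy q ψ r 0 15, h (one q ψ r s x) < h w := by
  subst hk
  exact lt_sound X.PF X.G X.U hr hs hi _ (by simp [sy_one hx])

theorem Cx.Zlt (X : Cx q ψ h lf rt τ) {r s κ : ℕ} (hr : r < NR ψ) (hs : s < NS ψ)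
    (hk : kind ψ r s = κ) (x : ℕ) (hi : AllK.lt κ 15 x = true) (hx : isZ x = false) :
    ∀ w ∈ sy q ψ r 0 15, h w < h (one q ψ r s x) := by
  subst hk
  exact fun w hw => lt_sound X.PF X.G X.U hr hs hi w hw _ (by simp [sy_one hx])

theorem Cx.seg (X : Cx q ψ h lf rt τ) {r s κ : ℕ} (hr : r < NR ψ) (hs : s < NS ψ)
    (hk : kind ψ r s = κ) (ρ i x y : ℕ)
    (hi : (AllK.lt κ (sq κ ρ i) x && AllK.lt κ y (sq κ ρ (i + 1)) && !isZ x && !isZ y &&
      !isZ (sq κ ρ i) && !isZ (sq κ ρ (i + 1))) = true) {t : ℝ}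
    (h1 : h (one q ψ r s x) ≤ t) (h2 : t ≤ h (one q ψ r s y)) : Seg q ψ h r s ρ i t := by
  simp only [Bool.and_eq_true, Bool.not_eq_true'] at hi
  obtain ⟨⟨⟨⟨⟨a, b⟩, c⟩, d⟩, e⟩, f⟩ := hi
  simp only [Seg, bar, hk]
  exact ⟨(X.lt hr hs hk _ _ a e c).le.trans h1, h2.trans (X.lt hr hs hk _ _ b d f).le⟩

theorem Cx.dead_pin (X : Cx q ψ h lf rt τ) {r s κ : ℕ} (hr : r < NR ψ) (hs : s < NS ψ)
    (hk : kind ψ r s = κ) (p x y : ℕ) {o z : ℕ} (hw : Sum.inr (r, o, z) ∈ coreS q ψ)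
    (hi : (inc κ p x && inc κ p y && !isZ x && !isZ y && isC z &&
      !(pin κ p).2.contains z) = true)
    (h1 : h (one q ψ r s x) < h (.inr (r, o, z))) (h2 : h (.inr (r, o, z)) < h (one q ψ r s y)) :
    ¬Al lf rt (.inr (r, o, z)) (τ (.inr (r, s, p))) := by
  subst hk
  simp only [Bool.and_eq_true, Bool.not_eq_true', List.contains_eq_mem,
    decide_eq_false_iff_not] at hi
  obtain ⟨⟨⟨⟨⟨a, b⟩, c⟩, d⟩, e⟩, f⟩ := hi
  exact X.dead (inc_pinI hr hs a) hw (not_mem_code e f) (mem_pin a (by simp [sy_one c]))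
    (mem_pin b (by simp [sy_one d])) h1.le h2.le

theorem lt_of_dead {v : V} {a t : ℝ} (h1 : Al lf rt v a) (n : ¬Al lf rt v t) (x : t < a) :
    t < lf v := by
  by_contra c
  exact n ⟨not_lt.1 c, x.le.trans h1.2⟩

theorem gt_of_dead {v : V} {a t : ℝ} (h1 : Al lf rt v a) (n : ¬Al lf rt v t) (x : a < t) :
    rt v < t := by
  by_contra c
  exact n ⟨h1.1.trans x.le, not_lt.1 c⟩

theorem tap {a b lo hi tx tv : ℝ} {u x v g σ : V} (E : Ed q ψ h lf rt a b u x) (h1 : a ≤ lo)
    (h2 : hi ≤ b) (x1 : Al lf rt x tx) (x2 : ¬Al lf rt x lo) (x3 : ¬Al lf rt x hi)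
    (x4 : lo < tx) (x5 : tx < hi) (g1 : Al lf rt g lo) (g2 : Al lf rt g hi) (v1 : Al lf rt v tv)
    (s1 : Al lf rt σ tv) (s2 : Al lf rt σ hi) (bv : Bk q ψ h u x v) (bg : Bk q ψ h u x g)
    (bs : Bk q ψ h u x σ) (n1 : v ≠ g) (n2 : σ ≠ g) : lf u < lf v ∧ lf x < lf v := by
  obtain ⟨t, t1, t2, t3⟩ := E
  have y1 := (lt_of_dead x1 x2 x4).trans_le t2.1
  have y2 := t2.2.trans_lt (gt_of_dead x1 x3 x5)
  have y3 := al_mid g1 g2 y1.le y2.le
  have B := t3 (h1.trans y1.le) (y2.le.trans h2)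
  have : t < lf v := by
    by_contra c
    by_cases d : t ≤ rt v
    · exact B v g n1 bv bg ⟨not_lt.1 c, d⟩ y3
    · exact B σ g n2 bs bg (al_mid s1 s2 (v1.2.trans (not_le.1 d).le) y2.le) y3
  exact ⟨t1.1.trans_lt this, t2.1.trans_lt this⟩

theorem lane {t : ℝ} {u v : V} {P : Prop} (h1 : lf u ≤ t) (h2 : lf v ≤ rt u)
    (k : lf v ≤ t → P) : Al lf rt u t ∨ P := by
  by_cases c : t ≤ rt u
  · exact Or.inl ⟨h1, c⟩
  · exact Or.inr (k (h2.trans (not_le.1 c).le))

theorem Cx.clause (X : Cx q ψ h lf rt τ) (h0 : TT ψ τ 0 0 < TT ψ τ (NS ψ - 1) 0) {r i j l : ℕ}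
    (hr : r < NR ψ) (ij : i + 1 < j) (jl : j + 1 < l) (hl : l < NS ψ) (k1 : kind ψ r i = 1)
    (k2 : kind ψ r (i + 1) = 2) (k3 : kind ψ r j = 3) (k4 : kind ψ r (j + 1) = 4)
    (k5 : kind ψ r l = 5)
    (bad : ∀ s, s = i ∨ s = j ∨ s = l →
      TT ψ τ s ((1 + flp ψ r s) % 2) < TT ψ τ s ((0 + flp ψ r s) % 2)) : False := by
  have hi : i < NS ψ := by omega
  have hi' : i + 1 < NS ψ := by omega
  have hj : j < NS ψ := by omega
  have hj' : j + 1 < NS ψ := by omega
  have m2 : ∀ x : ℕ, x % 2 < 2 := fun x => Nat.mod_lt _ (by omega)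
  let B : ℕ → ℕ → V := fun o z => .inr (r, o, z)
  let T : ℕ → ℕ → ℝ := fun s p => τ (.inr (r, s, p))
  let a : V := one q ψ r 0 6
  let b : V := one q ψ r 0 36
  have ord : ∀ {s s'} ρ n ρ' n', s < s' → s' < NS ψ → ρ < 2 → ρ' < 2 → n < 5 → n' < 5 → ∀ y,
      Seg q ψ h r s ρ n y → Seg q ψ h r s' ρ' n' y → T s (5 * ρ + n) < T s' (5 * ρ' + n') :=
    fun ρ n ρ' n' c1 c2 c3 c4 c5 c6 y y1 y2 =>
      (X.cross hr (c1.trans c2) c2 c3 c4 c5 c6 (fun x => c1.ne x.1) y1 y2).1.2
        (X.clock h0 c1 c2 (m2 _) (m2 _))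
  have obad : ∀ s n n', s = i ∨ s = j ∨ s = l → n < 5 → n' < 5 → ∀ y,
      Seg q ψ h r s 1 n y → Seg q ψ h r s 0 n' y → T s (5 * 1 + n) < T s (5 * 0 + n') :=
    fun s n n' c c5 c6 y y1 y2 =>
      (X.cross hr (by omega) (by omega) (by omega) (by omega) c5 c6 (by omega) y1 y2).1.2 (bad s c)
  have A1 := X.al hr hi k1
  have A2 := X.al hr hi' k2
  have A3 := X.al hr hj k3
  have A4 := X.al hr hj' k4
  have A5 := X.al hr hl k5
  have L1 := X.lt hr hi k1
  have L3 := X.lt hr hj k3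
  have L5 := X.lt hr hl k5
  -- core vertices
  have ca : a ∈ coreS q ψ := X.core hr hi k1 10 6 (by decide +kernel) rfl
  have cb : b ∈ coreS q ψ := X.core hr hi k1 10 36 (by decide +kernel) rfl
  have cal : B 0 9 ∈ coreS q ψ := X.core hr hi k1 1 9 (by decide +kernel) rfl
  have cg : B i 16 ∈ coreS q ψ := X.core hr hi k1 2 16 (by decide +kernel) rfl
  have cx1 : B i 18 ∈ coreS q ψ := X.core hr hi k1 7 18 (by decide +kernel) rfl
  have cs1 : B i 13 ∈ coreS q ψ := X.core hr hi k1 2 13 (by decide +kernel) rfl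
  have cp1 : B 0 28 ∈ coreS q ψ := X.core hr hi k1 2 28 (by decide +kernel) rfl
  have cp2 : B 0 32 ∈ coreS q ψ := X.core hr hi k1 3 32 (by decide +kernel) rfl
  have cbe : B j 11 ∈ coreS q ψ := X.core hr hj k3 1 11 (by decide +kernel) rfl
  have cx2 : B j 31 ∈ coreS q ψ := X.core hr hj k3 8 31 (by decide +kernel) rfl
  have cs2 : B j 27 ∈ coreS q ψ := X.core hr hj k3 2 27 (by decide +kernel) rfl
  have cga : B 0 26 ∈ coreS q ψ := X.core hr hj k3 2 26 (by decide +kernel) rfl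
  have crh : B 0 21 ∈ coreS q ψ := X.core hr hl k5 3 21 (by decide +kernel) rfl
  have cep : B l 12 ∈ coreS q ψ := X.core hr hl k5 1 12 (by decide +kernel) rfl
  have cde : B l 19 ∈ coreS q ψ := X.core hr hl k5 2 19 (by decide +kernel) rfl
  have cx3 : B l 25 ∈ coreS q ψ := X.core hr hl k5 8 25 (by decide +kernel) rfl
  have cs3 : B l 20 ∈ coreS q ψ := X.core hr hl k5 2 20 (by decide +kernel) rfl
  have cS : B l 22 ∈ coreS q ψ := X.core hr hl k5 10 22 (by decide +kernel) rfl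
  -- heights
  have a_al : h a < h (B 0 9) := L1 6 9 (by decide +kernel) rfl rfl
  have al_s1 : h (B 0 9) < h (B i 13) := L1 9 13 (by decide +kernel) rfl rfl
  have s1_g : h (B i 13) < h (B i 16) := L1 13 16 (by decide +kernel) rfl rfl
  have g_x1 : h (B i 16) < h (B i 18) := L1 16 18 (by decide +kernel) rfl rfl
  have x1_p1 : h (B i 18) < h (B 0 28) := L1 18 28 (by decide +kernel) rfl rfl
  have p2_b : h (B 0 32) < h b := L1 32 36 (by decide +kernel) rfl rfl
  have al_be : h (B 0 9) < h (B j 11) := L3 9 11 (by decide +kernel) rfl rfl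
  have be_ga : h (B j 11) < h (B 0 26) := L3 11 26 (by decide +kernel) rfl rfl
  have ga_s2 : h (B 0 26) < h (B j 27) := L3 26 27 (by decide +kernel) rfl rfl
  have s2_p1 : h (B j 27) < h (B 0 28) := L3 27 28 (by decide +kernel) rfl rfl
  have p1_x2 : h (B 0 28) < h (B j 31) := L3 28 31 (by decide +kernel) rfl rfl
  have x2_p2 : h (B j 31) < h (B 0 32) := L3 31 32 (by decide +kernel) rfl rfl
  have al_ep : h (B 0 9) < h (B l 12) := L5 9 12 (by decide +kernel) rfl rfl
  have ep_de : h (B l 12) < h (B l 19) := L5 12 19 (by decide +kernel) rfl rfl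
  have de_s3 : h (B l 19) < h (B l 20) := L5 19 20 (by decide +kernel) rfl rfl
  have s3_rh : h (B l 20) < h (B 0 21) := L5 20 21 (by decide +kernel) rfl rfl
  have rh_x3 : h (B 0 21) < h (B l 25) := L5 21 25 (by decide +kernel) rfl rfl
  have x3_ga : h (B l 25) < h (B 0 26) := L5 25 26 (by decide +kernel) rfl rfl
  have a_S : h a < h (B l 22) := L5 6 22 (by decide +kernel) rfl rfl
  have S_b : h (B l 22) < h b := L5 22 36 (by decide +kernel) rfl rfl
  -- the two pins that span the row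
  have dg : ∀ {o z}, B o z ∈ coreS q ψ → _ → h a < h (B o z) → h (B o z) < h b →
      ¬Al lf rt (B o z) (T i 10) := fun c d => X.dead_pin hr hi k1 10 6 36 c d
  have dS : ∀ {o z}, B o z ∈ coreS q ψ → _ → h a < h (B o z) → h (B o z) < h b →
      ¬Al lf rt (B o z) (T l 10) := fun c d => X.dead_pin hr hl k5 10 6 36 c d
  have sg : ∀ {s ρ}, s < NS ψ → ρ < 2 → (∀ n < 5, T s (5 * ρ + n) < T i 10) ∨
      ∀ n < 5, T i 10 < T s (5 * ρ + n) := fun c d =>
    X.span hr hi k1 (by decide +kernel) (by decide +kernel) (by decide +kernel) c d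
  have sS : ∀ {s ρ}, s < NS ψ → ρ < 2 → (∀ n < 5, T s (5 * ρ + n) < T l 10) ∨
      ∀ n < 5, T l 10 < T s (5 * ρ + n) := fun c d =>
    X.span hr hl k5 (by decide +kernel) (by decide +kernel) (by decide +kernel) c d
  have g_g : Al lf rt (B i 16) (T i 10) := A1 10 16 (by decide +kernel) rfl
  have S_S : Al lf rt (B l 22) (T l 10) := A5 10 22 (by decide +kernel) rfl
  have g_y : Al lf rt (B i 16) (T i (5 * 0 + 2)) := A1 2 16 (by decide +kernel) rfl
  have al_y1 : Al lf rt (B 0 9) (T i (5 * 0 + 1)) := A1 1 9 (by decide +kernel) rfl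
  have al_x1 : Al lf rt (B 0 9) (T i (5 * 1 + 1)) := A1 6 9 (by decide +kernel) rfl
  have al_by : Al lf rt (B 0 9) (T (i + 1) (5 * 0 + 1)) := A2 1 9 (by decide +kernel) rfl
  have al_bx : Al lf rt (B 0 9) (T (i + 1) (5 * 1 + 1)) := A2 6 9 (by decide +kernel) rfl
  have al_y2 : Al lf rt (B 0 9) (T j (5 * 0 + 1)) := A3 1 9 (by decide +kernel) rfl
  have al_cy : Al lf rt (B 0 9) (T (j + 1) (5 * 0 + 1)) := A4 1 9 (by decide +kernel) rfl
  have al_cx : Al lf rt (B 0 9) (T (j + 1) (5 * 1 + 1)) := A4 6 9 (by decide +kernel) rfl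
  have al_y3 : Al lf rt (B 0 9) (T l (5 * 0 + 1)) := A5 1 9 (by decide +kernel) rfl
  have ep_y : Al lf rt (B l 12) (T l (5 * 0 + 1)) := A5 1 12 (by decide +kernel) rfl
  have de_y : Al lf rt (B l 19) (T l (5 * 0 + 2)) := A5 2 19 (by decide +kernel) rfl
  have ga_y : Al lf rt (B 0 26) (T l (5 * 0 + 3)) := A5 3 26 (by decide +kernel) rfl
  have dal_g := dg cal (by decide +kernel) a_al (by linarith)
  have dal_S := dS cal (by decide +kernel) a_al (by linarith)
  have tg : T i 10 < lf (B 0 9) := by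
    obtain ⟨n, n1, n2, n3⟩ := X.dead_col hr hi' k2 (ρ := 0) (by omega) cg rfl (by decide +kernel)
      (a_al.trans (al_s1.trans s1_g)) (show h (B i 16) < h b by linarith)
    have c := ord 0 2 0 n (Nat.lt_succ_self i) hi' (by omega) (by omega) (by omega) n1 _
      (X.seg hr hi k1 0 2 16 16 (by decide +kernel) le_rfl le_rfl) n2
    have d := g_g.2.trans_lt (gt_of_dead g_y n3 c)
    exact lt_of_dead al_by dal_g
      ((sg hi' (ρ := 0) (by omega)).resolve_left (fun x => lt_asymm d (x n n1)) 1 (by omega))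
  have aft : ∀ {s ρ}, s < NS ψ → ρ < 2 → Al lf rt (B 0 9) (T s (5 * ρ + 1)) →
      ∀ n < 5, T i 10 < T s (5 * ρ + n) := fun c d e =>
    (sg c d).resolve_left fun x => lt_asymm (x 1 (by omega)) (tg.trans_le e.1)
  have mS := fun z c n d => X.meet (u := B l 22) (v := one q ψ r l z) cS c n
    (adj_one hl k5 22 z d)
  have m_al : lf (B l 22) ≤ rt (B 0 9) := (mS 9 cal (by simp [B, one, isE, cv]) (by decide +kernel)).1
  have m_ep : lf (B l 22) ≤ rt (B l 12) ∧ lf (B l 12) ≤ rt (B l 22) ∧ _ :=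
    mS 12 cep (by simp [B, one, isE, cv]) (by decide +kernel)
  have m_de : lf (B l 22) ≤ rt (B l 19) ∧ _ ∧ h (B l 22) ≠ h (B l 19) :=
    mS 19 cde (by simp [B, one, isE, cv]) (by decide +kernel)
  have m_ga : lf (B l 22) ≤ rt (B 0 26) ∧ _ ∧ h (B l 22) ≠ h (B 0 26) :=
    mS 26 cga (by simp [B, one, isE, cv]) (by decide +kernel)
  have g_ep := lt_of_dead ep_y (dg cep (by decide +kernel) (by linarith) (by linarith))
    (aft hl (by omega) al_y3 1 (by omega))
  have g_de := lt_of_dead de_y (dg cde (by decide +kernel) (by linarith) (by linarith))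
    (aft hl (by omega) al_y3 2 (by omega))
  have g_ga := lt_of_dead ga_y (dg cga (by decide +kernel) (by linarith) (by linarith))
    (aft hl (by omega) al_y3 3 (by omega))
  have tS : rt (B 0 9) < T l 10 := by
    have c : T i 10 < lf (B l 22) := by
      by_contra c
      exact dg cS (by decide +kernel) a_S S_b ⟨not_lt.1 c, by linarith [m_ep.2.1]⟩
    have d := g_y.2.trans_lt (gt_of_dead g_g (dS cg (by decide +kernel) (by linarith) (by linarith))
      (c.trans_le S_S.1))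
    exact gt_of_dead al_y1 dal_S
      ((sS hi (ρ := 0) (by omega)).resolve_right (fun x => lt_asymm d (x 2 (by omega))) 1 (by omega))
  have bef : ∀ {s ρ}, s < NS ψ → ρ < 2 → Al lf rt (B 0 9) (T s (5 * ρ + 1)) →
      ∀ n < 5, T s (5 * ρ + n) < T l 10 := fun c d e =>
    (sS c d).resolve_right fun x => lt_asymm (x 1 (by omega)) (e.2.trans_lt tS)
  have S_ep := gt_of_dead ep_y (dS cep (by decide +kernel) (by linarith) (by linarith))
    (bef hl (by omega) al_y3 1 (by omega))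
  have S_de := gt_of_dead de_y (dS cde (by decide +kernel) (by linarith) (by linarith))
    (bef hl (by omega) al_y3 2 (by omega))
  have S_ga := gt_of_dead ga_y (dS cga (by decide +kernel) (by linarith) (by linarith))
    (bef hl (by omega) al_y3 3 (by omega))
  have pad : ∀ w ∈ sy q ψ r 0 15, w ∈ coreS q ψ ∧ Al lf rt w (T i 10) ∧ Al lf rt w (T l 10) := by
    intro w hw
    have i1 : inc (kind ψ r i) 10 15 = true := by rw [k1]; decide +kernel
    have i5 : inc (kind ψ r l) 10 15 = true := by rw [k5]; decide +kernel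
    exact ⟨(X.PF _ (inc_pinI hr hi i1)).2.2 _ (mem_pin i1 hw),
      X.G.mem _ (inc_pinI hr hi i1) _ (mem_pin i1 hw),
      X.G.mem _ (inc_pinI hr hl i5) _ (mem_pin i5 hw)⟩
  have bk : ∀ {u v o z}, B o z ∈ coreS q ψ → h u < h (B o z) → h (B o z) < h v →
      Bk q ψ h u v (B o z) := fun c d e => ⟨c, rfl, d, e⟩
  have Za := X.ltZ hr hi k1 6 (by decide +kernel) rfl
  have Zep := X.ltZ hr hl k5 12 (by decide +kernel) rfl
  have Zga := X.Zlt hr hl k5 26 (by decide +kernel) rfl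
  -- first tap
  have tap1 : lf (B i 18) < lf (B 0 9) := by
    have y1 : Seg q ψ h r i 1 2 (h (B i 18)) :=
      X.seg hr hi k1 1 2 18 18 (by decide +kernel) le_rfl le_rfl
    have y2 : Seg q ψ h r i 0 2 (h (B i 18)) :=
      X.seg hr hi k1 0 2 18 18 (by decide +kernel) le_rfl le_rfl
    exact (tap (X.edge pad ca cx1 (by linarith)
      (adjC_symmB (adj_one hi k1 18 6 (by decide +kernel))) Za
      (X.Zlt hr hi k1 18 (by decide +kernel) rfl)) le_rfl
      (bef hi (by omega) al_y1 2 (by omega)).le (A1 7 18 (by decide +kernel) rfl)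
      (dg cx1 (by decide +kernel) (by linarith) (by linarith))
      (X.dead_seg hr hi k1 (by omega) (by omega) cx1 rfl (by decide +kernel) y2)
      (aft hi (by omega) al_x1 2 (by omega)) (obad i 2 2 (by omega) (by omega) (by omega) _ y1 y2)
      g_g g_y al_y1 (σ := B i 13) (A1 1 13 (by decide +kernel) rfl)
      (A1 2 13 (by decide +kernel) rfl) (bk cal a_al (by linarith))
      (bk cg (by linarith) g_x1) (bk cs1 (by linarith) (by linarith)) (by simp [B])
      (by simp [B])).2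
  -- second tap
  have ga_y2 : Al lf rt (B 0 26) (T j (5 * 0 + 2)) := A3 2 26 (by decide +kernel) rfl
  have tap2 : lf (B j 11) < lf (B 0 26) := by
    have y0 : Seg q ψ h r (i + 1) 1 2 (h (B j 31)) :=
      X.seg hr hi' k2 1 2 28 32 (by decide +kernel) p1_x2.le x2_p2.le
    have y1 : Seg q ψ h r j 1 3 (h (B j 31)) :=
      X.seg hr hj k3 1 3 31 31 (by decide +kernel) le_rfl le_rfl
    have y2 : Seg q ψ h r j 0 3 (h (B j 31)) :=
      X.seg hr hj k3 0 3 31 31 (by decide +kernel) le_rfl le_rfl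
    exact (tap (X.edge pad cbe cx2 (by linarith) (adj_one hj k3 11 31 (by decide +kernel))
      (X.ltZ hr hj k3 11 (by decide +kernel) rfl) (X.Zlt hr hj k3 31 (by decide +kernel) rfl))
      (aft hi' (by omega) al_bx 2 (by omega)).le
      (bef hj (by omega) al_y2 3 (by omega)).le (A3 8 31 (by decide +kernel) rfl)
      (X.dead_seg hr hi' k2 (by omega) (by omega) cx2 rfl (by decide +kernel) y0)
      (X.dead_seg hr hj k3 (by omega) (by omega) cx2 rfl (by decide +kernel) y2)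
      (ord 1 2 1 3 ij hj (by omega) (by omega) (by omega) (by omega) _ y0 y1)
      (obad j 3 3 (by omega) (by omega) (by omega) _ y1 y2)
      (g := B 0 28) (A2 7 28 (by decide +kernel) rfl) (A3 3 28 (by decide +kernel) rfl) ga_y2
      (σ := B j 27) (A3 2 27 (by decide +kernel) rfl)
      (A3 3 27 (by decide +kernel) rfl) (bk cga be_ga (by linarith))
      (bk cp1 (by linarith) p1_x2) (bk cs2 (by linarith) (by linarith)) (by simp [B])
      (by simp [B])).1
  have al_ga : lf (B 0 9) < lf (B 0 26) := by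
    have y0 : Seg q ψ h r (i + 1) 0 1 (h (B 0 26)) :=
      X.seg hr hi' k2 0 1 9 28 (by decide +kernel) (al_be.trans be_ga).le (ga_s2.trans s2_p1).le
    exact al_by.1.trans_lt (lt_of_dead ga_y2
      (X.dead_seg hr hi' k2 (by omega) (by omega) cga rfl (by decide +kernel) y0)
      (ord 0 1 0 2 ij hj (by omega) (by omega) (by omega) (by omega) _ y0
        (X.seg hr hj k3 0 2 26 26 (by decide +kernel) le_rfl le_rfl)))
  -- third tap
  have tap3 : lf (B l 12) < lf (B l 19) := by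
    have y0 : Seg q ψ h r (j + 1) 1 2 (h (B l 25)) :=
      X.seg hr hj' k4 1 2 21 26 (by decide +kernel) rh_x3.le x3_ga.le
    have y1 : Seg q ψ h r l 1 3 (h (B l 25)) :=
      X.seg hr hl k5 1 3 25 25 (by decide +kernel) le_rfl le_rfl
    have y2 : Seg q ψ h r l 0 3 (h (B l 25)) :=
      X.seg hr hl k5 0 3 25 25 (by decide +kernel) le_rfl le_rfl
    exact (tap (X.edge pad cep cx3 (by linarith) (adj_one hl k5 12 25 (by decide +kernel))
      Zep (X.Zlt hr hl k5 25 (by decide +kernel) rfl))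
      (aft hj' (by omega) al_cx 2 (by omega)).le
      (bef hl (by omega) al_y3 3 (by omega)).le (A5 8 25 (by decide +kernel) rfl)
      (X.dead_seg hr hj' k4 (by omega) (by omega) cx3 rfl (by decide +kernel) y0)
      (X.dead_seg hr hl k5 (by omega) (by omega) cx3 rfl (by decide +kernel) y2)
      (ord 1 2 1 3 jl hl (by omega) (by omega) (by omega) (by omega) _ y0 y1)
      (obad l 3 3 (by omega) (by omega) (by omega) _ y1 y2)
      (g := B 0 21) (A4 7 21 (by decide +kernel) rfl) (A5 3 21 (by decide +kernel) rfl) de_y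
      (σ := B l 20) (A5 2 20 (by decide +kernel) rfl)
      (A5 3 20 (by decide +kernel) rfl) (bk cde ep_de (by linarith))
      (bk crh (by linarith) rh_x3) (bk cs3 (by linarith) (by linarith)) (by simp [B])
      (by simp [B])).1
  have al_de : lf (B 0 9) < lf (B l 19) := by
    have y0 : Seg q ψ h r (j + 1) 0 1 (h (B l 19)) :=
      X.seg hr hj' k4 0 1 9 21 (by decide +kernel) (al_ep.trans ep_de).le (de_s3.trans s3_rh).le
    exact al_cy.1.trans_lt (lt_of_dead de_y
      (X.dead_seg hr hj' k4 (by omega) (by omega) cde rfl (by decide +kernel) y0)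
      (ord 0 1 0 2 jl hl (by omega) (by omega) (by omega) (by omega) _ y0
        (X.seg hr hl k5 0 2 19 19 (by decide +kernel) le_rfl le_rfl)))
  -- overlaps
  have o1 := (X.meet cg cp2 (by simp [B]) (adj_one hi k1 16 32 (by decide +kernel))).2.1
  have o2 := (X.meet cp2 crh (by simp [B]) (adj_one hj k3 32 21 (by decide +kernel))).2.1
  have o3 := (X.meet crh cde (by simp [B]) (adj_one hl k5 21 19 (by decide +kernel))).2.1
  have o4 := (X.meet cx1 cp1 (by simp [B]) (adj_one hi k1 18 28 (by decide +kernel))).2.1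
  have o5 := (X.meet cp1 cga (by simp [B]) (adj_one hj k3 28 26 (by decide +kernel))).2.1
  have o6 := (X.meet cbe crh (by simp [B]) (adj_one hj k3 11 21 (by decide +kernel))).2.1
  have o7 := (X.meet cde cga (by simp [B]) (adj_one hl k5 19 26 (by decide +kernel))).2.1
  -- the three obligations
  obtain ⟨t1, -, u1, B1⟩ := X.edge pad ca cde (by linarith)
    (adjC_symmB (adj_one hl k5 19 6 (by decide +kernel))) Za
    (X.Zlt hr hl k5 19 (by decide +kernel) rfl)
  obtain ⟨t2, -, u2, B2⟩ := X.edge pad ca cga (by linarith)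
    (adjC_symmB (adj_one hl k5 26 6 (by decide +kernel))) Za Zga
  obtain ⟨t3, u3, -, B3⟩ := X.edge pad cal cb (by linarith)
    (adj_one hl k5 9 36 (by decide +kernel)) (X.ltZ hr hi k1 9 (by decide +kernel) rfl)
    (X.Zlt hr hi k1 36 (by decide +kernel) rfl)
  obtain ⟨u11, u12⟩ := u1
  obtain ⟨u21, u22⟩ := u2
  obtain ⟨u31, u32⟩ := u3
  replace B1 := B1 (by linarith) (by linarith)
  replace B2 := B2 (by linarith) (by linarith)
  replace B3 := B3 (by linarith) (by linarith)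
  have e1 : rt (B 0 9) < t1 ∨ rt (B l 12) < t1 := by
    by_contra c
    simp only [not_or, not_lt] at c
    exact B1 _ _ (by simp [B]) (bk cal a_al (by linarith)) (bk cep (by linarith) ep_de)
      ⟨by linarith, c.1⟩ ⟨by linarith, c.2⟩
  have e2 : rt (B 0 9) < t2 ∨ rt (B l 19) < t2 := by
    by_contra c
    simp only [not_or, not_lt] at c
    have f := fun w n d => B2 _ w n (bk cal a_al (by linarith)) d ⟨by linarith, c.1⟩
    rcases lane (t := t2) (by linarith) o6 fun x => lane x o3 fun y =>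
      (⟨y, c.2⟩ : Al lf rt (B l 19) t2) with x | x | x
    · exact f _ (by simp [B]) (bk cbe (by linarith) be_ga) x
    · exact f _ (by simp [B]) (bk crh (by linarith) (by linarith)) x
    · exact f _ (by simp [B]) (bk cde (by linarith) (by linarith)) x
  have e3 : rt (B l 19) < t3 ∨ rt (B 0 26) < t3 := by
    by_contra c
    simp only [not_or, not_lt] at c
    have LA : ∃ o z, (z = 16 ∨ z = 32 ∨ z = 21 ∨ z = 19) ∧ Bk q ψ h (B 0 9) b (B o z) ∧
        Al lf rt (B o z) t3 := by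
      rcases lane (t := t3) (by linarith [g_g.1]) o1 fun x => lane x o2 fun y => lane y o3 fun z =>
        (⟨z, c.1⟩ : Al lf rt (B l 19) t3) with x | x | x | x
      · exact ⟨i, 16, by omega, bk cg (by linarith) (by linarith), x⟩
      · exact ⟨0, 32, by omega, bk cp2 (by linarith) (by linarith), x⟩
      · exact ⟨0, 21, by omega, bk crh (by linarith) (by linarith), x⟩
      · exact ⟨l, 19, by omega, bk cde (by linarith) (by linarith), x⟩
    have LB : ∃ o z, (z = 18 ∨ z = 28 ∨ z = 26) ∧ Bk q ψ h (B 0 9) b (B o z) ∧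
        Al lf rt (B o z) t3 := by
      rcases lane (t := t3) (by linarith) o4 fun x => lane x o5 fun y =>
        (⟨y, c.2⟩ : Al lf rt (B 0 26) t3) with x | x | x
      · exact ⟨i, 18, by omega, bk cx1 (by linarith) (by linarith), x⟩
      · exact ⟨0, 28, by omega, bk cp1 (by linarith) (by linarith), x⟩
      · exact ⟨0, 26, by omega, bk cga (by linarith) (by linarith), x⟩
    obtain ⟨o, z, x1, x2, x3⟩ := LA
    obtain ⟨o', z', y1, y2, y3⟩ := LB
    refine B3 _ _ (fun e => ?_) x2 y2 x3 y3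
    simp only [B, Sum.inr.injEq, Prod.mk.injEq] at e
    omega
  have S1 : Al lf rt (B l 22) t1 :=
    ⟨by rcases e1 with c | c <;> linarith [m_ep.1], by linarith [S_S.2]⟩
  have S2 : Al lf rt (B l 22) t2 :=
    ⟨by rcases e2 with c | c <;> linarith [m_de.1], by linarith [S_S.2]⟩
  have S3 : Al lf rt (B l 22) t3 :=
    ⟨by rcases e3 with c | c <;> linarith [m_de.1, m_ga.1], by linarith [S_S.2]⟩
  have f3 : h (B 0 9) < h (B l 22) → rt (B 0 26) < t3 := fun c => by
    by_contra d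
    exact B3 _ _ (by simp [B]) (bk cS c S_b) (bk cga (by linarith) (by linarith)) S3
      ⟨by rcases e3 with c | c <;> linarith, not_lt.1 d⟩
  rcases lt_or_gt_of_ne m_ga.2.2 with c | c
  · have f2 : rt (B 0 9) < t2 := by
      by_contra d
      exact B2 _ _ (by simp [B]) (bk cS a_S c) (bk cal a_al (by linarith)) S2
        ⟨by linarith, not_lt.1 d⟩
    rcases lt_or_gt_of_ne m_de.2.2 with c' | c'
    · have f1 : rt (B 0 9) < t1 := by
        by_contra d
        exact B1 _ _ (by simp [B]) (bk cS a_S c') (bk cal a_al (by linarith)) S1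
          ⟨by linarith, not_lt.1 d⟩
      rcases e3 with d | d <;> linarith
    · linarith [f3 (by linarith)]
  · have f3 := f3 (by linarith)
    have f2 : rt (B l 19) < t2 := e2.resolve_left (by linarith)
    have f4 : rt (B l 12) < t2 := by
      by_contra d
      exact B2 _ _ (by simp [B]) (bk cal a_al (by linarith)) (bk cep (by linarith) (by linarith))
        ⟨by linarith, by linarith⟩ ⟨by linarith [de_y.1, de_y.2], not_lt.1 d⟩
    obtain ⟨t0, v1, v2, B0⟩ := X.edge pad cep cS (by linarith)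
      (adj_one hl k5 12 22 (by decide +kernel)) Zep (fun w hw => (Zga w hw).trans c)
    have w1 : Al lf rt (B l 12) (T l 11) := A5 11 12 (by decide +kernel) rfl
    have w2 : Al lf rt (B l 19) (T l 11) := A5 11 19 (by decide +kernel) rfl
    have w3 : Al lf rt (B 0 26) (T l 11) := A5 11 26 (by decide +kernel) rfl
    have w4 : T l 11 < lf (B l 22) := lt_of_dead S_S
      (X.dead_pin hr hl k5 11 12 36 cS (by decide +kernel)
        (show h (B l 12) < h (B l 22) by linarith) S_b) (w1.2.trans_lt S_ep)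
    have f5 : rt (B l 19) < t0 := by
      by_contra d
      exact B0 (by linarith [v1.1]) (by linarith [v1.2]) _ _ (by simp [B])
        (bk cde ep_de (by linarith)) (bk cga (by linarith) c)
        ⟨by linarith [w2.1, v2.1], not_lt.1 d⟩ ⟨by linarith [w3.1, v2.1], by linarith [v1.2]⟩
    rcases e1 with d | d <;> linarith [v1.2]

theorem Cx.sat (X : Cx q ψ h lf rt τ) (hS : Sorted ψ)
    (h0 : TT ψ τ 0 0 < TT ψ τ (NS ψ - 1) 0) : Sat3 ψ := by
  classical
  refine ⟨fun v => decide (TT ψ τ (2 * v) 0 < TT ψ τ (2 * v) 1), fun c hc => ?_⟩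
  obtain ⟨n, hn, rfl⟩ := List.getElem_of_mem hc
  have e : cl ψ (2 * NS ψ + n) = ψ[n] := by
    rw [cl, Nat.add_sub_cancel_left, List.getD_eq_getElem _ _ hn]
  have hr : 2 * NS ψ + n < NR ψ := by
    unfold NR
    omega
  rw [← e]
  have r2 : 2 * NS ψ ≤ 2 * NS ψ + n := by omega
  generalize 2 * NS ψ + n = r at hr r2
  obtain ⟨c1, c2, c3, -, c4⟩ := cl_ok hS r
  have c5 := c4 hr r2
  by_contra nh
  simp only [Clause3.Holds, not_or] at nh
  have kk : ∀ s κ, (if s < 2 * (cl ψ r).1.1 then 0 else if s = 2 * (cl ψ r).1.1 then 1 else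
      if s < 2 * (cl ψ r).2.1.1 then 2 else if s = 2 * (cl ψ r).2.1.1 then 3 else
      if s < 2 * (cl ψ r).2.2.1 then 4 else if s = 2 * (cl ψ r).2.2.1 then 5 else 0) = κ →
      kind ψ r s = κ := fun s κ x => by
    rw [kind, if_neg (by omega), if_neg (by omega), x]
  have key : ∀ v (b : Bool), 2 * v < NS ψ → flp ψ r (2 * v) = (if b = false then 1 else 0) →
      ¬decide (TT ψ τ (2 * v) 0 < TT ψ τ (2 * v) 1) = b →
      TT ψ τ (2 * v) ((1 + flp ψ r (2 * v)) % 2) < TT ψ τ (2 * v) ((0 + flp ψ r (2 * v)) % 2) := by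
    intro v b hv e1 e2
    have n0 := NR_pos (ψ := ψ)
    have m2 : ∀ x : ℕ, x % 2 < 2 := fun x => Nat.mod_lt _ (by omega)
    have a : ∀ d < 2, Seg q ψ h 0 (2 * v) d 0 (h (one q ψ 0 0 6)) := fun d hd =>
      ⟨(X.bar_out n0 hv hd).1.le, (X.bar_in n0 hv hd (i := 0) (by omega)).1.le⟩
    have t := X.cross n0 hv hv (m2 (0 + flp ψ 0 (2 * v))) (m2 (1 + flp ψ 0 (2 * v))) (by omega)
      (by omega) (by omega) (a _ (m2 _)) (a _ (m2 _))
    rw [show ((0 + flp ψ 0 (2 * v)) % 2 + flp ψ 0 (2 * v)) % 2 = 0 by omega,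
      show ((1 + flp ψ 0 (2 * v)) % 2 + flp ψ 0 (2 * v)) % 2 = 1 by omega] at t
    rw [e1]
    cases b
    · simpa using e2
    · exact t.2.2 (by simpa using e2)
  refine X.clause h0 hr (i := 2 * (cl ψ r).1.1) (j := 2 * (cl ψ r).2.1.1)
    (l := 2 * (cl ψ r).2.2.1) (by omega) (by omega) (by omega) (kk _ _ (by split_ifs <;> omega))
    (kk _ _ (by split_ifs <;> omega)) (kk _ _ (by split_ifs <;> omega))
    (kk _ _ (by split_ifs <;> omega)) (kk _ _ (by split_ifs <;> omega)) ?_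
  rintro s (rfl | rfl | rfl)
  · exact key _ _ (by omega) (by simp [flp, c2.ne, (c2.trans c3).ne]) nh.1
  · exact key _ _ (by omega) (by simp [flp, c2.ne', c3.ne]) nh.2.1
  · exact key _ _ (by omega) (by simp [flp, c3.ne', (c2.trans c3).ne']) nh.2.2

theorem Cx.sat' (X : Cx q ψ h lf rt τ) (hS : Sorted ψ) : Sat3 ψ := by
  have n0 := NR_pos (ψ := ψ)
  have n1 : NS ψ = 6 * ψ.length + 3 := rfl
  by_cases c : TT ψ τ 0 0 < TT ψ τ (NS ψ - 1) 0
  · exact X.sat hS c
  · refine Cx.sat ⟨X.PF, X.G.flipT, X.U⟩ hS (neg_lt_neg ?_)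
    have m2 : ∀ x : ℕ, x % 2 < 2 := fun x => Nat.mod_lt _ (by omega)
    have a : ∀ s < NS ψ, ∀ d < 2, Seg q ψ h 0 s d 0 (h (one q ψ 0 0 6)) := fun s hs d hd =>
      ⟨(X.bar_out n0 hs hd).1.le, (X.bar_in n0 hs hd (i := 0) (by omega)).1.le⟩
    have t := X.cross n0 (s := 0) (s' := NS ψ - 1) (by omega) (by omega) (m2 (0 + flp ψ 0 0))
      (m2 (0 + flp ψ 0 (NS ψ - 1))) (by omega) (by omega) (by omega) (a _ (by omega) _ (m2 _))
      (a _ (by omega) _ (m2 _))
    rw [show ((0 + flp ψ 0 0) % 2 + flp ψ 0 0) % 2 = 0 by omega,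
      show ((0 + flp ψ 0 (NS ψ - 1)) % 2 + flp ψ 0 (NS ψ - 1)) % 2 = 0 by omega] at t
    exact t.2.2 c

theorem backward (hS : Sorted ψ) (PF : PinF q ψ) {h l r : V ⊕ (V × ℕ) → ℝ}
    (H : RepOn (q + 1) (tS (coreS q ψ) {y : V × ℕ | y.1 ∈ pinI q ψ ∧ y.2 < 7})
      (tA (adjC q ψ) (fun y => pinP q ψ y.1)) h l r) : Sat3 ψ := by
  obtain ⟨τ, G⟩ := good_of_repK core_finite pinI_finite PF H
  rcases up_or PF G with U | U
  · exact Cx.sat' ⟨PF, G, U⟩ hS
  · exact Cx.sat' ⟨PF, G.flipH, U⟩ hS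

end Pool.Agent.Lib.MP_0d8e88_lc.AllK
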