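import Pool.Agent.Lib.MP_0d8e88_lc.AllK.Tab

/-!
Finite check number 2.
-/

namespace Pool.Agent.Lib.MP_0d8e88_lc.AllK

theorem up_ok : ∀ κ < 7, ∀ σ < nst κ, chkUp κ σ = true := by decide +kernel

end Pool.Agent.Lib.MP_0d8e88_lc.AllK
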