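import Pool.Agent.Lib.MP_0d8e88_lc.Disc

/-!
From a discrete representation of the core, in which every pin is realised, to a representation
of the graph with its twins, for every `k`.
-/

namespace Pool.Agent.Lib.MP_0d8e88_lc.AllK

open Set

variable {C Z : Type}

/-- Betweenness for natural heights. -/
def NB (H : C → ℕ) (u w v : C) : Prop := (H u < H w ∧ H w < H v) ∨ (H v < H w ∧ H w < H u)

/-- The number of alive vertices between `u` and `v`. -/
noncomputable def Cnt (S : Set C) (H b d : C → ℕ) (n : ℕ) (u v : C) : ℕ :=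
  {w | w ∈ S ∧ DAl b d w n ∧ NB H u w v}.ncard

/-- A discrete representation. -/
structure DiscK (k : ℕ) (S : Set C) (A : C → C → Prop) (H b d : C → ℕ) : Prop where
  lt : ∀ v ∈ S, b v < d v
  dist : ∀ u ∈ S, ∀ v ∈ S, u ≠ v → b u ≠ b v ∧ d u ≠ d v ∧ b u ≠ d v
  disj : ∀ u ∈ S, ∀ v ∈ S, u ≠ v → ∀ n, DAl b d u n → DAl b d v n → H u ≠ H v
  adj : ∀ u ∈ S, ∀ v ∈ S, u ≠ v →
    (A u v ↔ ∃ n, DAl b d u n ∧ DAl b d v n ∧ Cnt S H b d n u v ≤ k)

/-- The list `T` is alive and consecutive at the time `n`. -/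
structure PinK (k : ℕ) (S : Set C) (H b d : C → ℕ) (T : List C) (n : ℕ) : Prop where
  nodup : T.Nodup
  len : T.length = 2 * (k + 1)
  mem : ∀ v ∈ T, v ∈ S ∧ DAl b d v n
  conv : ∀ w ∈ S, DAl b d w n → ∀ x ∈ T, ∀ y ∈ T, H x < H w → H w < H y → w ∈ T

theorem exists_median {H : C → ℕ} {T : Set C} (hT : T.Finite) (hi : InjOn H T) {k : ℕ}
    (hc : T.ncard = 2 * (k + 1)) :
    ∃ m, {v | v ∈ T ∧ H v ≤ m}.ncard = k + 1 ∧ {v | v ∈ T ∧ m < H v}.ncard = k + 1 := by
  have step : ∀ m, {v | v ∈ T ∧ H v < m + 1}.ncard ≤ {v | v ∈ T ∧ H v < m}.ncard + 1 := by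
    intro m
    have s : {v | v ∈ T ∧ H v < m + 1} ⊆ {v | v ∈ T ∧ H v < m} ∪ {v | v ∈ T ∧ H v = m} := by
      intro v hv
      rcases Nat.lt_succ_iff_lt_or_eq.1 hv.2 with c | c
      · exact Or.inl ⟨hv.1, c⟩
      · exact Or.inr ⟨hv.1, c⟩
    have h1 := ncard_le_ncard s ((hT.subset fun _ a => a.1).union (hT.subset fun _ a => a.1))
    have h2 := ncard_union_le {v | v ∈ T ∧ H v < m} {v | v ∈ T ∧ H v = m}
    have h3 : {v | v ∈ T ∧ H v = m}.ncard ≤ 1 :=
      (ncard_le_one (hT.subset fun _ a => a.1)).2 fun a ha b hb => hi ha.1 hb.1 (ha.2.trans hb.2.symm)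
    omega
  obtain ⟨M, hM⟩ := (hT.image H).bddAbove
  have top : {v | v ∈ T ∧ H v < M + 1} = T := by
    ext v
    exact ⟨fun a => a.1, fun a => ⟨a, Nat.lt_succ_of_le (hM ⟨v, a, rfl⟩)⟩⟩
  have ex : ∃ m, k + 1 ≤ {v | v ∈ T ∧ H v < m}.ncard := ⟨M + 1, by rw [top, hc]; omega⟩
  classical
  have f1 := Nat.find_spec ex
  obtain ⟨m, hm⟩ : ∃ m, Nat.find ex = m + 1 := by
    refine Nat.exists_eq_succ_of_ne_zero fun e => ?_
    rw [e] at f1
    simp at f1
  have f2 := Nat.find_min ex (m := m) (by omega)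
  rw [hm] at f1
  have f3 := step m
  have e1 : {v | v ∈ T ∧ H v ≤ m} = {v | v ∈ T ∧ H v < m + 1} := by
    simp only [Nat.lt_succ_iff]
  have e2 : {v | v ∈ T ∧ H v ≤ m} ∪ {v | v ∈ T ∧ m < H v} = T := by
    ext v
    simp only [mem_union, mem_ofPred_eq]
    constructor
    · rintro (a | a) <;> exact a.1
    · intro a
      rcases le_or_gt (H v) m with c | c
      · exact Or.inl ⟨a, c⟩
      · exact Or.inr ⟨a, c⟩
  have e3 := ncard_union_eq (s := {v | v ∈ T ∧ H v ≤ m}) (t := {v | v ∈ T ∧ m < H v})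
    (Set.disjoint_left.2 fun v a b => absurd a.2 (not_le.2 b.2)) (hT.subset fun _ a => a.1)
    (hT.subset fun _ a => a.1)
  rw [e2, hc, e1] at e3
  refine ⟨m, ?_, ?_⟩
  · rw [e1]
    omega
  · omega

theorem rep_of_discK {k : ℕ} {S : Set C} {A : C → C → Prop} {H b d : C → ℕ}
    (D : DiscK k S A H b d) (hS : S.Finite) {Y : Set Z} (hY : Y.Finite) {T : Z → List C}
    (hT : ∀ y ∈ Y, ∃ n, PinK k S H b d (T y) n) :
    ∃ h l r, RepOn k (tS S Y) (tA A T) h l r := by
  classical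
  choose! n hP using hT
  have hm : ∀ y ∈ Y, ∃ m, {v | v ∈ T y ∧ H v ≤ m}.ncard = k + 1 ∧
      {v | v ∈ T y ∧ m < H v}.ncard = k + 1 := by
    intro y hy
    refine exists_median (T := {v | v ∈ T y}) (List.finite_toSet _) (fun u hu v hv e => ?_) ?_
    · by_contra c
      exact D.disj u ((hP y hy).mem u hu).1 v ((hP y hy).mem v hv).1 c _ ((hP y hy).mem u hu).2
        ((hP y hy).mem v hv).2 e
    · rw [← List.coe_toFinset, ncard_coe_finset, List.toFinset_card_of_nodup (hP y hy).nodup,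
        (hP y hy).len]
  choose! m hm using hm
  obtain ⟨e, α, β, e0, e1, s1, s2⟩ := exists_slots hY
  have hfin := tS_finite hS hY
  let h : C ⊕ Z → ℝ := Sum.elim (fun v => (H v : ℝ)) (fun y => m y + 1 / 2)
  let l : C ⊕ Z → ℝ := Sum.elim (fun v => (b v : ℝ)) (fun y => n y + α y)
  let r : C ⊕ Z → ℝ := Sum.elim (fun v => (d v : ℝ)) (fun y => n y + β y)
  have near : ∀ y ∈ Y, ∀ t, Al l r (.inr y) t → (n y : ℝ) + e < t ∧ t < n y + 1 := by
    intro y hy t ht
    have a : (n y : ℝ) + α y ≤ t := ht.1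
    have c : t ≤ (n y : ℝ) + β y := ht.2
    obtain ⟨x1, x2, x3⟩ := s1 y hy
    constructor <;> linarith
  have uniq : ∀ y ∈ Y, ∀ y' ∈ Y, ∀ t, Al l r (.inr y) t → Al l r (.inr y') t → y = y' := by
    intro y hy y' hy' t h1 h2
    by_contra c
    have a := near y hy t h1
    have a' := near y' hy' t h2
    have x : n y = n y' := nat_eq_of_near (t := t) (by linarith [a.1]) a.2 (by linarith [a'.1]) a'.2
    have b1 : (n y : ℝ) + α y ≤ t := h1.1
    have b2 : t ≤ (n y : ℝ) + β y := h1.2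
    have b3 : (n y' : ℝ) + α y' ≤ t := h2.1
    have b4 : t ≤ (n y' : ℝ) + β y' := h2.2
    rw [x] at b1 b2
    rcases s2 y hy y' hy' c with z | z <;> linarith
  have core : ∀ (k : ℕ) (t : ℝ), (k : ℝ) < t → t < k + 1 → ∀ v,
      (Al l r (.inl v) t ↔ DAl b d v k) := fun k t h1 h2 v => dal_iff h1 h2
  have tm : ∀ u ∈ S, ∀ v ∈ S, u ≠ v → ∀ t, Al l r (.inl u) t → Al l r (.inl v) t →
      ∃ k, DAl b d u k ∧ DAl b d v k ∧ ∀ w, DAl b d w k → Al l r (.inl w) t := by
    intro u hu v hv ne t h1 h2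
    obtain ⟨k, k1, k2, k3⟩ := exists_time (D.lt u hu) (D.lt v hv) (D.dist u hu v hv ne).2.2
      (D.dist v hv u hu ne.symm).2.2 h1 h2
    exact ⟨k, k1, k2, fun w hw => k3 _ _ hw⟩
  have disj : ∀ u ∈ tS S Y, ∀ v ∈ tS S Y, u ≠ v → ∀ t, Al l r u t → Al l r v t → h u ≠ h v := by
    rintro (u | u) hu (v | v) hv ne t h1 h2
    · have ne' : u ≠ v := fun x => ne (congrArg _ x)
      obtain ⟨k, k1, k2, -⟩ := tm u hu v hv ne' t h1 h2
      exact fun x => D.disj u hu v hv ne' k k1 k2 (Nat.cast_injective (R := ℝ) x)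
    · exact nat_ne_half _ _
    · exact (nat_ne_half _ _).symm
    · exact absurd (congrArg _ (uniq u hu v hv t h1 h2)) ne
  have nb : ∀ u w v, Btw h (.inl u) (.inl w) (.inl v) ↔ NB H u w v := by
    intro u w v
    simp only [Btw, NB, h, Sum.elim_inl, Nat.cast_lt]
  have img : ∀ X : Set C, (Sum.inl '' X : Set (C ⊕ Z)).ncard = X.ncard := fun X =>
    ncard_image_of_injective _ Sum.inl_injective
  have cc : ∀ u ∈ S, ∀ v ∈ S, u ≠ v →
      ((∃ n, DAl b d u n ∧ DAl b d v n ∧ Cnt S H b d n u v ≤ k) ↔ ∃ t, Al l r (.inl u) t ∧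
      Al l r (.inl v) t ∧ {w | w ∈ tS S Y ∧ Al l r w t ∧ Btw h (.inl u) w (.inl v)}.ncard ≤ k) := by
    intro u hu v hv ne
    constructor
    · rintro ⟨j, k1, k2, k3⟩
      have c := core j (j + e) (by linarith) (by linarith)
      have nt : ∀ y ∈ Y, ¬Al l r (.inr y) (j + e) := by
        intro y hy a
        have a' := near y hy _ a
        have x : n y = j := nat_eq_of_near (t := j + e) (by linarith [a'.1]) a'.2 (by linarith)
          (by linarith)
        rw [x] at a'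
        exact lt_irrefl _ a'.1
      refine ⟨j + e, (c u).2 k1, (c v).2 k2, le_trans ?_ k3⟩
      rw [Cnt, ← img]
      refine ncard_le_ncard ?_ ((hS.subset fun _ a => a.1).image _)
      rintro (w | w) ⟨w1, w2, w3⟩
      · exact ⟨w, ⟨w1, (c w).1 w2, (nb _ _ _).1 w3⟩, rfl⟩
      · exact absurd w2 (nt w w1)
    · rintro ⟨t, t1, t2, t3⟩
      obtain ⟨j, k1, k2, k3⟩ := tm u hu v hv ne t t1 t2
      refine ⟨j, k1, k2, le_trans ?_ t3⟩
      rw [Cnt, ← img]
      refine ncard_le_ncard ?_ (hfin.subset fun _ a => a.1)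
      rintro _ ⟨w, ⟨w1, w2, w3⟩, rfl⟩
      exact ⟨w1, k3 w w2, (nb _ _ _).2 w3⟩
  have ct : ∀ y ∈ Y, ∀ v ∈ S, (v ∈ T y ↔ ∃ t, Al l r (.inr y) t ∧
      Al l r (.inl v) t ∧ {w | w ∈ tS S Y ∧ Al l r w t ∧ Btw h (.inr y) w (.inl v)}.ncard ≤ k) := by
    intro y hy v hv
    have p := hP y hy
    obtain ⟨m1, m2⟩ := hm y hy
    have fT : ∀ X : C → Prop, {v | v ∈ T y ∧ X v}.Finite := fun X =>
      (List.finite_toSet (T y)).subset fun _ a => a.1
    have bt : ∀ w, Btw h (.inr y) (.inl w) (.inl v) ↔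
        (m y < H w ∧ H w < H v) ∨ (H v < H w ∧ H w ≤ m y) := by
      intro w
      simp only [Btw, h, Sum.elim_inl, Sum.elim_inr, half_lt_iff, lt_half_iff, Nat.cast_lt]
    obtain ⟨x0, x0m⟩ := nonempty_of_ncard_ne_zero (s := {v | v ∈ T y ∧ H v ≤ m y}) (by omega)
    obtain ⟨x1, x1m⟩ := nonempty_of_ncard_ne_zero (s := {v | v ∈ T y ∧ m y < H v}) (by omega)
    constructor
    · intro hvT
      obtain ⟨a1, a2, a3⟩ := s1 y hy
      have a : Al l r (.inr y) (n y + α y) := ⟨le_rfl, by simp only [r, Sum.elim_inr]; linarith⟩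
      have c := core (n y) (n y + α y) (by linarith) (by linarith)
      refine ⟨n y + α y, a, (c v).2 (p.mem v hvT).2, ?_⟩
      have sub : ∀ X : Set C, (∀ w ∈ S, DAl b d w (n y) →
          (m y < H w ∧ H w < H v) ∨ (H v < H w ∧ H w ≤ m y) → w ∈ X \ {v}) → X.Finite → v ∈ X →
          X.ncard = k + 1 → {w | w ∈ tS S Y ∧ Al l r w (n y + α y) ∧
            Btw h (.inr y) w (.inl v)}.ncard ≤ k := by
        intro X hX fX vX cX
        have q := ncard_sdiff_singleton_add_one vX fX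
        have s : {w | w ∈ tS S Y ∧ Al l r w (n y + α y) ∧ Btw h (.inr y) w (.inl v)} ⊆
            Sum.inl '' (X \ {v}) := by
          rintro (w | w) ⟨w1, w2, w3⟩
          · exact ⟨w, hX w w1 ((c w).1 w2) ((bt w).1 w3), rfl⟩
          · rw [uniq w w1 y hy _ w2 a] at w3
            rcases w3 with w3 | w3 <;> linarith [w3.1, w3.2]
        have := ncard_le_ncard s ((fX.subset sdiff_subset).image _)
        rw [img] at this
        omega
      rcases le_or_gt (H v) (m y) with lo | lo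
      · refine sub {v | v ∈ T y ∧ H v ≤ m y} (fun w w1 w2 w3 => ?_) (fT _) ⟨hvT, lo⟩ m1
        have := x1m.2
        exact ⟨⟨p.conv w w1 w2 v hvT x1 x1m.1 (by omega) (by omega), by omega⟩,
          fun x => by rw [show w = v from x] at w3; omega⟩
      · refine sub {v | v ∈ T y ∧ m y < H v} (fun w w1 w2 w3 => ?_) (fT _) ⟨hvT, lo⟩ m2
        have := x0m.2
        exact ⟨⟨p.conv w w1 w2 x0 x0m.1 v hvT (by omega) (by omega), by omega⟩,
          fun x => by rw [show w = v from x] at w3; omega⟩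
    · rintro ⟨t, a1, a2, a3⟩
      by_contra c
      have a' := near y hy t a1
      have co := core (n y) t (by linarith [a'.1]) a'.2
      have q : ∀ w ∈ T y, H v ≠ H w := fun w hw =>
        D.disj v hv w (p.mem w hw).1 (fun x => c (x ▸ hw)) _ ((co v).1 a2) (p.mem w hw).2
      have q0 : ∀ x ∈ T y, ∀ z ∈ T y, H x < H v → ¬H v < H z := fun x hx z hz x1 x2 =>
        c (p.conv v hv ((co v).1 a2) x hx z hz x1 x2)
      have sub : ∀ X : Set C, (∀ w ∈ X, w ∈ T y ∧
          ((m y < H w ∧ H w < H v) ∨ (H v < H w ∧ H w ≤ m y))) → X.ncard ≤ k := by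
        intro X hX
        rw [← img]
        refine le_trans (ncard_le_ncard ?_ (hfin.subset fun _ a => a.1)) a3
        rintro _ ⟨w, hw, rfl⟩
        exact ⟨(p.mem w (hX w hw).1).1, (co w).2 (p.mem w (hX w hw).1).2, (bt w).2 (hX w hw).2⟩
      rcases le_or_gt (H v) (m y) with lo | lo
      · have := sub {v | v ∈ T y ∧ H v ≤ m y} fun w hw => ⟨hw.1, Or.inr ⟨?_, hw.2⟩⟩
        · omega
        · have a := q w hw.1
          have a' := q0 w hw.1 x1 x1m.1
          have := x1m.2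
          omega
      · have := sub {v | v ∈ T y ∧ m y < H v} fun w hw => ⟨hw.1, Or.inl ⟨hw.2, ?_⟩⟩
        · omega
        · have a := q w hw.1
          have a' := q0 x0 x0m.1 w hw.1
          have := x0m.2
          omega
  refine ⟨h, l, r, ?_, ?_, disj, ?_⟩
  · rintro (v | y) hv
    · exact Nat.cast_lt.2 (D.lt v hv)
    · simp only [l, r, Sum.elim_inr]
      linarith [(s1 y hv).2.1]
  · rintro (u | u) hu (v | v) hv ne
    · obtain ⟨a1, a2, a3⟩ := D.dist u hu v hv (fun x => ne (congrArg _ x))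
      exact ⟨fun x => a1 (Nat.cast_injective (R := ℝ) x),
        fun x => a2 (Nat.cast_injective (R := ℝ) x), fun x => a3 (Nat.cast_injective (R := ℝ) x)⟩
    · obtain ⟨x1, x2, x3⟩ := s1 v hv
      exact ⟨nat_ne_frac _ _ (by linarith) (by linarith),
        nat_ne_frac _ _ (by linarith) (by linarith), nat_ne_frac _ _ (by linarith) (by linarith)⟩
    · obtain ⟨x1, x2, x3⟩ := s1 u hu
      exact ⟨(nat_ne_frac _ _ (by linarith) (by linarith)).symm,
        (nat_ne_frac _ _ (by linarith) (by linarith)).symm,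
        (nat_ne_frac _ _ (by linarith) (by linarith)).symm⟩
    · have lu : l (.inr u) ≤ r (.inr u) := by
        simp only [l, r, Sum.elim_inr]
        linarith [(s1 u hu).2.1]
      have lv : l (.inr v) ≤ r (.inr v) := by
        simp only [l, r, Sum.elim_inr]
        linarith [(s1 v hv).2.1]
      refine ⟨fun x => ne (congrArg _ (uniq u hu v hv _ ⟨le_rfl, lu⟩ ⟨x.ge, x ▸ lv⟩)),
        fun x => ne (congrArg _ (uniq u hu v hv _ ⟨lu, le_rfl⟩ ⟨x ▸ lv, x.le⟩)),
        fun x => ne (congrArg _ (uniq u hu v hv _ ⟨le_rfl, lu⟩ ⟨x ▸ lv, x.le⟩))⟩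
  · rintro (u | u) hu (v | v) hv ne
    · have ne' : u ≠ v := fun x => ne (congrArg _ x)
      exact (D.adj u hu v hv ne').trans (cc u hu v hv ne')
    · refine (ct v hv u hu).trans ?_
      simp only [btw_comm (u := Sum.inr v)]
      exact exists_congr fun t => and_left_comm
    · exact ct u hu v hv
    · constructor
      · exact False.elim
      · rintro ⟨t, t1, t2, -⟩
        exact ne (congrArg _ (uniq u hu v hv t t1 t2))

end Pool.Agent.Lib.MP_0d8e88_lc.AllK
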