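import Pool.Agent.Lib.MP_0d8e88_lc.AllK.Tab
import Pool.Agent.Lib.MP_0d8e88_lc.AllK.DiscK
import Pool.Agent.Shared.PolyTime.Tableau

/-!
The graph attached to a formula with sorted clauses, for `k = q + 1`.  Rows are clocks and
clauses, time slabs carry two wires each.
-/

namespace Pool.Agent.Lib.MP_0d8e88_lc.AllK

open Pool.Agent.Shared.PolyTime

/-- Core vertices: eternal bars, and bars given by a row, an owner and a code. -/
abbrev V : Type := ℕ ⊕ (ℕ × ℕ × ℕ)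

variable (q : ℕ) (ψ : List (Clause3 ℕ))

/-- The variables of each clause are increasing and lie between `1` and `3 * ψ.length`. -/
def Sorted : Prop := ∀ c ∈ ψ, 1 ≤ c.1.1 ∧ c.1.1 < c.2.1.1 ∧ c.2.1.1 < c.2.2.1 ∧
  c.2.2.1 ≤ 3 * ψ.length

/-- Number of slabs. -/
def NS : ℕ := 6 * ψ.length + 3

/-- Number of rows. -/
def NR : ℕ := 2 * NS ψ + ψ.length

/-- Number of eternal bars. -/
def NE : ℕ := (NR ψ + 2) * (3 * q + 4)

/-- The clause of a row. -/
def cl (r : ℕ) : Clause3 ℕ := ψ.getD (r - 2 * NS ψ) ((1, false), (2, false), (3, false))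

/-- The kind of the cell in the row `r` and the slab `s`. -/
def kind (r s : ℕ) : ℕ :=
  if r < NS ψ then (if s ≤ r then 6 else 0) else
  if r < 2 * NS ψ then (if r ≤ s + NS ψ then 6 else 0) else
  if s < 2 * (cl ψ r).1.1 then 0 else if s = 2 * (cl ψ r).1.1 then 1 else
  if s < 2 * (cl ψ r).2.1.1 then 2 else if s = 2 * (cl ψ r).2.1.1 then 3 else
  if s < 2 * (cl ψ r).2.2.1 then 4 else if s = 2 * (cl ψ r).2.2.1 then 5 else 0

/-- The role `ρ` is played by the side `(ρ + flp) % 2`. -/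
def flp (r s : ℕ) : ℕ :=
  if (s = 2 * (cl ψ r).1.1 ∧ (cl ψ r).1.2 = false) ∨
    (s = 2 * (cl ψ r).2.1.1 ∧ (cl ψ r).2.1.2 = false) ∨
    (s = 2 * (cl ψ r).2.2.1 ∧ (cl ψ r).2.2.2 = false) then 1 else 0

/-- Number of eternal bars of the row below a symbol. -/
def pos (j : ℕ) : ℕ := ea j + ec j * q

/-- Position among the eternal bars. -/
def gv (v : V) : ℕ :=
  Sum.elim (fun n => 2 * n + 1) (fun w => 2 * (w.1 * (3 * q + 4) + pos q w.2.2)) v

def own (j s : ℕ) : ℕ := if isL j then 0 else s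

/-- The vertex of a symbol that is not eternal. -/
def cv (r s j : ℕ) : V :=
  if j = 2 ∨ j = 3 then .inr (r, s, 2 + (j + flp ψ r s) % 2) else
  if j = 39 ∨ j = 40 then .inr (r + 1, s, 2 + (j + 1 + flp ψ r s) % 2) else .inr (r, own j s, j)

/-- The vertices of a symbol, from bottom to top. -/
def sy (r s j : ℕ) : List V :=
  if isZ j then (List.range q).map fun i => .inl (r * (3 * q + 4) + pos q j + i) else
  if isE j then [.inl (r * (3 * q + 4) + pos q j)] else [cv ψ r s j]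

def isCore (v : V) : Bool :=
  Sum.elim (fun n => decide (n < NE q ψ)) (fun w =>
    if w.2.2 = 2 ∨ w.2.2 = 3 then decide (w.1 ≤ NR ψ) && decide (w.2.1 < NS ψ) else
    decide (w.1 < NR ψ) && isC w.2.2 &&
      if isL w.2.2 then decide (w.2.1 = 0) && decide (w.2.2 = 10 ↔ w.1 < 2 * NS ψ)
      else decide (w.2.1 < NS ψ) && ex (kind ψ w.1 w.2.1) w.2.2) v

/-- The class of the eternal bar `n` seen from the row `r`. -/
def cls (r n : ℕ) : ℕ :=
  if n < r * (3 * q + 4) + pos q 15 then 6 else if n < r * (3 * q + 4) + pos q 36 then 15 else 36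

/-- Number of eternal bars between two vertices, one of which is not eternal. -/
def gap (u v : V) : ℕ := (gv q u - gv q v + (gv q v - gv q u)) / 2

def adjE (w : ℕ × ℕ × ℕ) (n : ℕ) : Prop := gap q (.inr w) (.inl n) ≤ q + 1 ∧
  (w.2.2 ≤ 3 ∨ ∃ s < NS ψ, own w.2.2 s = w.2.1 ∧ DD (kind ψ w.1 s) w.2.2 (cls q w.1 n) < 9 ∧
    DD (kind ψ w.1 s) w.2.2 (cls q w.1 n) + gap q (.inr w) (.inl n) ≤ q + 1)

def adjR (w w' : ℕ × ℕ × ℕ) : Prop := w.1 = w'.1 ∧
  ∃ s < NS ψ, own w.2.2 s = w.2.1 ∧ own w'.2.2 s = w'.2.1 ∧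
    DD (kind ψ w.1 s) w.2.2 w'.2.2 < 9 ∧
    DD (kind ψ w.1 s) w.2.2 w'.2.2 + gap q (.inr w) (.inr w') ≤ q + 1

/-- Adjacency of core vertices. -/
def adjC : V → V → Prop
  | .inl n, .inl m => n ≠ m ∧ n ≤ m + (q + 2) ∧ m ≤ n + (q + 2)
  | .inl n, .inr w => adjE q ψ w n
  | .inr w, .inl n => adjE q ψ w n
  | .inr w, .inr w' => adjR q ψ w w' ∨ adjR q ψ w' w

def coreS : Set V := {v | isCore q ψ v = true}

/-- Indices of the pins: windows of eternal bars, and pins of the cells. -/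
def pinI : Set V := {p | Sum.elim (fun n => n + (2 * q + 4) ≤ NE q ψ)
  (fun w => w.1 < NR ψ ∧ w.2.1 < NS ψ ∧ w.2.2 < (pins (kind ψ w.1 w.2.1)).length) p}

def flat (r s : ℕ) (P : Bool × List ℕ) : List V :=
  P.2.flatMap fun j => if P.1 then sy q ψ r s j else (sy q ψ r s j).reverse

def pinP (p : V) : List V :=
  Sum.elim (fun n => (List.range (2 * q + 4)).map fun i => .inl (n + i))
    (fun w => (flat q ψ w.1 w.2.1 (pin (kind ψ w.1 w.2.1) w.2.2)).take (2 * q + 4)) p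

/-- Admissible states: `fs s` is the side that comes first in the slab `s`. -/
def StOK (fs : ℕ → ℕ) (st : ℕ → ℕ → ℕ) : Prop := (∀ s, fs s < 2) ∧
  ∀ r s, st r s < nst (kind ψ r s) ∧ (st r s % 2 = 1 ↔ (1 + flp ψ r s) % 2 = fs s)

/-- First slab of a long bar. -/
def sb (r j : ℕ) : ℕ := if r < NS ψ then 0 else if r < 2 * NS ψ then r - NS ψ else
  if j = 21 ∨ j = 26 then 2 * (cl ψ r).2.1.1 else 2 * (cl ψ r).1.1

/-- Last slab of a long bar. -/
def sd (r j : ℕ) : ℕ := if r < NS ψ then r else if r < 2 * NS ψ then NS ψ - 1 else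
  if j = 28 ∨ j = 32 then 2 * (cl ψ r).2.1.1 else 2 * (cl ψ r).2.2.1

variable (fs : ℕ → ℕ) (st : ℕ → ℕ → ℕ)

def ct (r s : ℕ) : ℕ := tab (kind ψ r s) (st r s)

/-- Coarse time of birth. -/
def bc (w : ℕ × ℕ × ℕ) : ℕ :=
  if w.2.2 ≤ 3 then 1 + 64 * w.2.1 + (if w.2.2 = 2 + fs w.2.1 then 12 else 28) else
  1 + 64 * (if isL w.2.2 then sb ψ w.1 w.2.2 else w.2.1) +
    eb (ct ψ st w.1 (if isL w.2.2 then sb ψ w.1 w.2.2 else w.2.1)) w.2.2

/-- Coarse time of death. -/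
def dc (w : ℕ × ℕ × ℕ) : ℕ :=
  if w.2.2 ≤ 3 then 1 + 64 * w.2.1 + (if w.2.2 = 2 + fs w.2.1 then 21 else 37) else
  1 + 64 * (if isL w.2.2 then sd ψ w.1 w.2.2 else w.2.1) +
    ed (ct ψ st w.1 (if isL w.2.2 then sd ψ w.1 w.2.2 else w.2.1)) w.2.2

def off (w : ℕ × ℕ × ℕ) : ℕ := 2 * w.1 + if w.2.2 ≤ 3 then 0 else 1

def MM : ℕ := 2 * NR ψ + 2

def bt (v : V) : ℕ :=
  Sum.elim (fun n => n) (fun w => NE q ψ + bc ψ fs st w * MM ψ + off w) v

def dt (v : V) : ℕ :=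
  Sum.elim (fun n => NE q ψ + (64 * NS ψ + 2) * MM ψ + n)
    (fun w => NE q ψ + dc ψ fs st w * MM ψ + off w) v

/-- Height. -/
def HH (v : V) : ℕ := 64 * gv q v + Sum.elim (fun _ => 0) (fun w => lev (st w.1 w.2.1) w.2.2) v

variable {q ψ fs st}

theorem cl_ok (hS : Sorted ψ) (r : ℕ) : 1 ≤ (cl ψ r).1.1 ∧ (cl ψ r).1.1 < (cl ψ r).2.1.1 ∧
    (cl ψ r).2.1.1 < (cl ψ r).2.2.1 ∧ 2 * (cl ψ r).2.2.1 + 1 < NS ψ + 6 ∧
    (r < NR ψ → 2 * NS ψ ≤ r → 2 * (cl ψ r).2.2.1 + 2 < NS ψ) := by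
  unfold cl NR
  by_cases h : r - 2 * NS ψ < ψ.length
  · rw [List.getD_eq_getElem _ _ h]
    have := hS _ (List.getElem_mem h)
    have e : NS ψ = 6 * ψ.length + 3 := rfl
    omega
  · rw [List.getD_eq_default _ _ (not_lt.1 h)]
    refine ⟨by simp, by simp, by simp, by simp [NS], by omega⟩

theorem kind_lt (r s : ℕ) : kind ψ r s < 7 := by
  unfold kind
  split_ifs <;> omega

theorem flp_lt (r s : ℕ) : flp ψ r s < 2 := by
  unfold flp
  split_ifs <;> omega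

theorem stOK_zero : StOK ψ (fun _ => 0) (fun r s => flp ψ r s) := by
  refine ⟨fun _ => by simp, fun r s => ?_⟩
  have := flp_lt (ψ := ψ) r s
  dsimp only
  refine ⟨?_, by omega⟩
  unfold nst
  split_ifs <;> omega

theorem core_finite : (coreS q ψ).Finite := by
  refine (((Set.finite_lt_nat (NE q ψ)).image Sum.inl).union
    (((Set.finite_le_nat (NR ψ)).prod ((Set.finite_le_nat (NS ψ)).prod
      (Set.finite_le_nat 35))).image Sum.inr)).subset ?_
  rintro (n | ⟨r, o, j⟩) h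
  · exact Or.inl ⟨n, by simpa [coreS, isCore] using h, rfl⟩
  · refine Or.inr ⟨(r, o, j), ?_, rfl⟩
    simp only [coreS, isCore, isC, Set.mem_ofPred_eq, Sum.elim_inr] at h
    simp only [Set.mem_prod, Set.mem_ofPred_eq]
    split_ifs at h <;> simp only [Bool.and_eq_true, Bool.or_eq_true, decide_eq_true_eq] at h <;>
      omega

theorem pinI_finite : (pinI q ψ).Finite := by
  refine (((Set.finite_le_nat (NE q ψ)).image Sum.inl).union
    (((Set.finite_lt_nat (NR ψ)).prod ((Set.finite_lt_nat (NS ψ)).prod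
      (Set.finite_lt_nat 34))).image Sum.inr)).subset ?_
  rintro (n | ⟨r, s, p⟩) h
  · refine Or.inl ⟨n, ?_, rfl⟩
    have : n + (2 * q + 4) ≤ NE q ψ := h
    simp only [Set.mem_ofPred_eq]
    omega
  · exact Or.inr ⟨(r, s, p), ⟨h.1, h.2.1, h.2.2.trans (full_ok _ (kind_lt r s)).1⟩, rfl⟩

end Pool.Agent.Lib.MP_0d8e88_lc.AllK
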