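import Pool.Agent.Lib.MP_0d8e88_lc.AllK.PinReal

/-!
The times are distinct, bars alive together have distinct heights, and the number of bars between
two vertices is read in the tables.
-/

namespace Pool.Agent.Lib.MP_0d8e88_lc.AllK

open Pool.Agent.Shared.PolyTime Set

variable {q : ℕ} {ψ : List (Clause3 ℕ)} {fs : ℕ → ℕ} {st : ℕ → ℕ → ℕ}

theorem fine_eq {M a b c d : ℕ} (ha : a < M) (hb : b < M) (h : c * M + a = d * M + b) :
    c = d ∧ a = b := by
  have e : c = d := by
    rcases lt_trichotomy c d with x | x | x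
    · have := Nat.mul_le_mul_right M (Nat.succ_le_of_lt x)
      rw [Nat.succ_mul] at this
      omega
    · exact x
    · have := Nat.mul_le_mul_right M (Nat.succ_le_of_lt x)
      rw [Nat.succ_mul] at this
      omega
  subst e
  omega

theorem dist_tab (hst : StOK ψ fs st) {r s j z : ℕ} (hj : isC j = true) (hz : isC z = true)
    (n : j ≠ z) (h1 : ed (ct ψ st r s) j ≠ 0) (h2 : ed (ct ψ st r s) z ≠ 0) :
    (eb (ct ψ st r s) j ≠ eb (ct ψ st r s) z ∨ eb (ct ψ st r s) j = 0) ∧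
    (ed (ct ψ st r s) j ≠ ed (ct ψ st r s) z ∨ ed (ct ψ st r s) j = 64) ∧
    eb (ct ψ st r s) j ≠ ed (ct ψ st r s) z := by
  have ok := dist_ok _ (kind_lt r s) _ (hst.2 r s).1
  have a := isC_iff.1 hj
  have b := isC_iff.1 hz
  rw [chkDist, force_eq, forceL_eq] at ok
  simp only [List.all_eq_true, List.mem_filter, List.mem_range, Bool.and_eq_true, bne_iff_ne,
    Bool.or_eq_true, beq_iff_eq] at ok
  have := (ok j ⟨by omega, hj, h1⟩ z ⟨by omega, hz, h2⟩).resolve_left n
  exact ⟨this.1.1, this.1.2, this.2⟩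

theorem dist_inr (hS : Sorted ψ) (hst : StOK ψ fs st) {w w' : ℕ × ℕ × ℕ}
    (h : (Sum.inr w : V) ∈ coreS q ψ) (h' : (Sum.inr w' : V) ∈ coreS q ψ) (n : w ≠ w')
    (e : off w = off w') : bc ψ fs st w ≠ bc ψ fs st w' ∧ dc ψ fs st w ≠ dc ψ fs st w' ∧
      bc ψ fs st w ≠ dc ψ fs st w' := by
  obtain ⟨r, o, j⟩ := w
  obtain ⟨r', o', j'⟩ := w'
  simp only [off] at e
  simp only [ne_eq, Prod.mk.injEq] at n
  rcases core_cases h with ⟨hj, -, -⟩ | ⟨hc, -⟩ <;> rcases core_cases h' with ⟨hj', -, -⟩ | ⟨hc', -⟩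
  · obtain ⟨e1, e2⟩ := bc_om (ψ := ψ) (fs := fs) (st := st) (r := r) (o := o) hj
    obtain ⟨e3, e4⟩ := bc_om (ψ := ψ) (fs := fs) (st := st) (r := r') (o := o') hj'
    rw [e1, e2, e3, e4]
    rw [if_pos (by omega), if_pos (by omega)] at e
    by_cases c : o = o'
    · subst c
      have := hst.1 o
      split_ifs <;> omega
    · split_ifs <;> omega
  · have := isC_iff.1 hc'
    rw [if_pos (by omega), if_neg (by omega)] at e
    omega
  · have := isC_iff.1 hc
    rw [if_neg (by omega), if_pos (by omega)] at e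
    omega
  · have a := isC_iff.1 hc
    have a' := isC_iff.1 hc'
    rw [if_neg (by omega), if_neg (by omega)] at e
    obtain rfl : r = r' := by omega
    obtain ⟨s1, s2, -, -, b1, b2, b3, b4, b5, b6, b7, b8⟩ := cell_bd hS hst h hc
    obtain ⟨t1, t2, -, -, c1, c2, c3, c4, c5, c6, c7, c8⟩ := cell_bd hS hst h' hc'
    rw [b3, b4, c3, c4]
    by_cases jj : j = j'
    · subst jj
      have oo : o ≠ o' := fun x => n ⟨rfl, x, rfl⟩
      have n10 : j ≠ 10 := by
        rintro rfl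
        exact oo (b1.symm.trans c1)
      have x1 : s1 ≠ t1 := fun x => oo (by rw [← b1, ← c1, x])
      have x2 : s2 ≠ t2 := fun x => oo (by rw [← b2, ← c2, x])
      have x3 : s1 ≠ t2 := fun x => oo (by rw [← b1, ← c2, x])
      have := b8 n10
      have := c8 n10
      omega
    · refine ⟨fun x => ?_, fun x => ?_, fun x => ?_⟩
      · obtain rfl : s1 = t1 := by omega
        have := (dist_tab hst hc hc' jj b5 c5).1
        omega
      · obtain rfl : s2 = t2 := by omega
        have := (dist_tab hst hc hc' jj b6 c6).2.1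
        omega
      · obtain rfl : s1 = t2 := by omega
        have := (dist_tab hst hc hc' jj b5 c6).2.2
        omega

theorem disc_lt (hS : Sorted ψ) (hst : StOK ψ fs st) :
    ∀ v ∈ coreS q ψ, bt q ψ fs st v < dt q ψ fs st v := by
  rintro (n | w) hv
  · have := core_inl.1 hv
    simp only [bt, dt, Sum.elim_inl]
    omega
  · have := Nat.mul_lt_mul_of_pos_right (bd_bound hS hst hv).2.1 (MM_pos (ψ := ψ))
    simp only [bt, dt, Sum.elim_inr]
    omega

theorem disc_dist (hS : Sorted ψ) (hst : StOK ψ fs st) : ∀ u ∈ coreS q ψ, ∀ v ∈ coreS q ψ, u ≠ v →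
    bt q ψ fs st u ≠ bt q ψ fs st v ∧ dt q ψ fs st u ≠ dt q ψ fs st v ∧
      bt q ψ fs st u ≠ dt q ψ fs st v := by
  have e : (64 * NS ψ + 2) * MM ψ = (1 + 64 * NS ψ) * MM ψ + MM ψ := by ring
  rintro (n | w) hu (m | w') hv ne
  · have := core_inl.1 hu
    have : n ≠ m := fun x => ne (by rw [x])
    simp only [bt, dt, Sum.elim_inl]
    omega
  · have := core_inl.1 hu
    obtain ⟨-, a2, a3, a4⟩ := bd_bound hS hst hv
    have := Nat.mul_le_mul_right (MM ψ) a3
    simp only [bt, dt, Sum.elim_inl, Sum.elim_inr]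
    omega
  · have := core_inl.1 hv
    obtain ⟨-, a2, a3, a4⟩ := bd_bound hS hst hu
    have := Nat.mul_le_mul_right (MM ψ) a3
    have := Nat.mul_le_mul_right (MM ψ) a2.le
    simp only [bt, dt, Sum.elim_inl, Sum.elim_inr]
    omega
  · have a := (bd_bound hS hst hu).2.2.2
    have b := (bd_bound hS hst hv).2.2.2
    have d := dist_inr hS hst hu hv fun x => ne (by rw [x])
    simp only [bt, dt, Sum.elim_inr]
    refine ⟨fun x => ?_, fun x => ?_, fun x => ?_⟩
    · obtain ⟨y, z⟩ := fine_eq (c := bc ψ fs st w) (d := bc ψ fs st w') a b (by omega)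
      exact (d z).1 y
    · obtain ⟨y, z⟩ := fine_eq (c := dc ψ fs st w) (d := dc ψ fs st w') a b (by omega)
      exact (d z).2.1 y
    · obtain ⟨y, z⟩ := fine_eq (c := bc ψ fs st w) (d := dc ψ fs st w') a b (by omega)
      exact (d z).2.2 y

theorem om_uniq (hS : Sorted ψ) (hst : StOK ψ fs st) {r o j o' j' n : ℕ} (hj : j = 2 ∨ j = 3)
    (hj' : j' = 2 ∨ j' = 3) (h : (Sum.inr (r, o, j) : V) ∈ coreS q ψ)
    (h' : (Sum.inr (r, o', j') : V) ∈ coreS q ψ)
    (a : DAl (bt q ψ fs st) (dt q ψ fs st) (.inr (r, o, j)) n)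
    (a' : DAl (bt q ψ fs st) (dt q ψ fs st) (.inr (r, o', j')) n) : o = o' ∧ j = j' := by
  rw [dal_inr (bd_bound hS hst h).1] at a
  rw [dal_inr (bd_bound hS hst h').1] at a'
  obtain ⟨e1, e2⟩ := bc_om (ψ := ψ) (fs := fs) (st := st) (r := r) (o := o) hj
  obtain ⟨e3, e4⟩ := bc_om (ψ := ψ) (fs := fs) (st := st) (r := r) (o := o') hj'
  have f1 : off (r, o, j) = 2 * r := by simp only [off]; rw [if_pos (by omega)]; rfl
  have f2 : off (r, o', j') = 2 * r := by simp only [off]; rw [if_pos (by omega)]; rfl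
  rw [e1, e2, f1] at a
  rw [e3, e4, f2] at a'
  obtain rfl : o = o' := by split_ifs at a a' <;> omega
  have := hst.1 o
  refine ⟨rfl, ?_⟩
  split_ifs at a a' <;> omega

/-- At the time `n` the cells of the row `r` are in the slab `s` at the step `m`. -/
def Now (q : ℕ) (ψ : List (Clause3 ℕ)) (fs : ℕ → ℕ) (st : ℕ → ℕ → ℕ) (r s m n : ℕ) : Prop :=
  ∀ o j, (Sum.inr (r, o, j) : V) ∈ coreS q ψ → isC j = true →
    (DAl (bt q ψ fs st) (dt q ψ fs st) (.inr (r, o, j)) n ↔
      o = own j s ∧ al (ct ψ st r s) m j = true)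

theorem now_sync (hS : Sorted ψ) (hst : StOK ψ fs st) (r : ℕ) {s m : ℕ} (hs : s < NS ψ)
    (hm : m < 64) : Now q ψ fs st r s m (sync q ψ (1 + 64 * s + m)) := fun _ _ h hc => by
  rw [dal_sync hS hst h, calive hS hst h hc hs hm]

theorem cell_now (hS : Sorted ψ) (hst : StOK ψ fs st) {r o j n : ℕ}
    (h : (Sum.inr (r, o, j) : V) ∈ coreS q ψ) (hc : isC j = true)
    (a : DAl (bt q ψ fs st) (dt q ψ fs st) (.inr (r, o, j)) n) :
    ∃ s < NS ψ, ∃ m < 64, Now q ψ fs st r s m n := by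
  have f : ∀ o j, isC j = true → off (r, o, j) = 2 * r + 1 := fun o j c => by
    have := isC_iff.1 c
    simp only [off]
    rw [if_neg (by omega)]
  obtain ⟨b1, -, b3, -⟩ := bd_bound hS hst h
  rw [dal_inr b1, f o j hc] at a
  obtain ⟨s, m, hm, e⟩ : ∃ s m, m < 64 ∧ tm q ψ (2 * r + 1) n = 1 + 64 * s + m :=
    ⟨(tm q ψ (2 * r + 1) n - 1) / 64, (tm q ψ (2 * r + 1) n - 1) % 64, by omega, by omega⟩
  have hs : s < NS ψ := by omega
  refine ⟨s, hs, m, hm, fun o' j' h' hc' => ?_⟩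
  rw [dal_inr (bd_bound hS hst h').1, f o' j' hc', e, calive hS hst h' hc' hs hm]

theorem pos_core {r o j : ℕ} (h : (Sum.inr (r, o, j) : V) ∈ coreS q ψ) :
    j < 43 ∧ (((j = 2 ∨ j = 3) ∧ pos q j = 2 + q) ∨
      (isC j = true ∧ 4 + 2 * q ≤ pos q j ∧ pos q j ≤ 4 + 3 * q)) := by
  rcases core_cases h with ⟨hj, -, -⟩ | ⟨hc, -⟩
  · exact ⟨by omega, Or.inl ⟨hj, pos_om hj⟩⟩
  · have := isC_iff.1 hc
    have := pos_C (q := q) hc
    exact ⟨by omega, Or.inr ⟨hc, by omega⟩⟩

theorem not_al33 (hst : StOK ψ fs st) (r s m : ℕ) : ¬al (ct ψ st r s) m 33 = true := by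
  have := (clock_ok _ (kind_lt r s) _ (hst.2 r s).1).2.2
  rw [al_iff]
  unfold ct
  omega

theorem disc_disj (hS : Sorted ψ) (hst : StOK ψ fs st) : ∀ u ∈ coreS q ψ, ∀ v ∈ coreS q ψ, u ≠ v →
    ∀ n, DAl (bt q ψ fs st) (dt q ψ fs st) u n → DAl (bt q ψ fs st) (dt q ψ fs st) v n →
      HH q st u ≠ HH q st v := by
  rintro (i | ⟨r, o, j⟩) hu (i' | ⟨r', o', j'⟩) hv ne n a a' e
  · rw [HH_inl, HH_inl] at e
    exact ne (by congr 1; omega)
  · have := lev_lt (σ := st r' o') (pos_core hv).1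
    rw [HH_inl, HH_inr] at e
    omega
  · have := lev_lt (σ := st r o) (pos_core hu).1
    rw [HH_inl, HH_inr] at e
    omega
  · obtain ⟨p1, p2⟩ := pos_core hu
    obtain ⟨p3, p4⟩ := pos_core hv
    have l1 := lev_lt (σ := st r o) p1
    have l2 := lev_lt (σ := st r' o') p3
    have r1 := row_le (q := q) (r := r') (r' := r)
    have r2 := row_le (q := q) (r := r) (r' := r')
    rw [HH_inr, HH_inr] at e
    obtain rfl : r = r' := by omega
    rcases p2 with ⟨c, -⟩ | ⟨c, _⟩ <;> rcases p4 with ⟨c', _⟩ | ⟨c', _⟩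
    · obtain ⟨rfl, rfl⟩ := om_uniq hS hst c c' hu hv a a'
      exact ne rfl
    · have := pos_om (q := q) c
      omega
    · omega
    · obtain ⟨s, hs, m, hm, N⟩ := cell_now hS hst hu c a
      obtain ⟨rfl, b⟩ := (N o j hu c).1 a
      obtain ⟨rfl, b'⟩ := (N o' j' hv c').1 a'
      simp only [lev_own] at e l1 l2
      have x : lev (st r s) j = lev (st r s) j' := by omega
      have n1 : j ≠ 33 := fun y => not_al33 hst r s m (y ▸ b)
      have n2 : j' ≠ 33 := fun y => not_al33 hst r s m (y ▸ b')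
      obtain rfl : j = j' := by
        unfold lev at x
        split_ifs at x <;> omega
      exact ne rfl

/-- The bars that are not eternal, alive at the time `n` between `u` and `v`. -/
def RS (q : ℕ) (ψ : List (Clause3 ℕ)) (fs : ℕ → ℕ) (st : ℕ → ℕ → ℕ) (n : ℕ) (u v : V) :
    Set (ℕ × ℕ × ℕ) :=
  {w | (Sum.inr w : V) ∈ coreS q ψ ∧ DAl (bt q ψ fs st) (dt q ψ fs st) (.inr w) n ∧
    NB (HH q st) u (.inr w) v}

theorem cnt_split {n lo hi : ℕ} {u v : V} (hhi : hi ≤ NE q ψ)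
    (hA : ∀ i, NB (HH q st) u (.inl i) v ↔ lo ≤ i ∧ i < hi)
    (hal : ∀ i, lo ≤ i → i < hi → DAl (bt q ψ fs st) (dt q ψ fs st) (.inl i) n) :
    Cnt (coreS q ψ) (HH q st) (bt q ψ fs st) (dt q ψ fs st) n u v =
      (hi - lo) + (RS q ψ fs st n u v).ncard := by
  have e : {w | w ∈ coreS q ψ ∧ DAl (bt q ψ fs st) (dt q ψ fs st) w n ∧ NB (HH q st) u w v} =
      Sum.inl '' Ico lo hi ∪ Sum.inr '' RS q ψ fs st n u v := by
    ext (i | w)
    · simp only [mem_ofPred_eq, core_inl, hA, mem_union, mem_image, Sum.inl.injEq, exists_eq_right,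
        mem_Ico, reduceCtorEq, and_false, exists_false, or_false]
      exact ⟨fun x => x.2.2, fun x => ⟨by omega, hal i x.1 x.2, x⟩⟩
    · simp only [mem_ofPred_eq, mem_union, mem_image, Sum.inr.injEq, exists_eq_right,
        reduceCtorEq, and_false, exists_false, false_or, RS]
  have fin : (RS q ψ fs st n u v).Finite :=
    ((core_finite (q := q) (ψ := ψ)).preimage Sum.inr_injective.injOn).subset fun _ a => a.1
  rw [Cnt, e, ncard_union_eq (by simp [Set.disjoint_left]) ((finite_Ico _ _).image _) (fin.image _),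
    ncard_image_of_injective _ Sum.inl_injective, ncard_image_of_injective _ Sum.inr_injective]
  simp [ncard_eq_toFinset_card']

theorem cnt_symm {C : Type} (S : Set C) (H b d : C → ℕ) (n : ℕ) (u v : C) :
    Cnt S H b d n u v = Cnt S H b d n v u := by
  simp only [Cnt, NB, or_comm]

theorem gv_le {r o j : ℕ} (h : (Sum.inr (r, o, j) : V) ∈ coreS q ψ) :
    r * (3 * q + 4) + pos q j ≤ NE q ψ := by
  have a := (pos_core h).2
  have b : r ≤ NR ψ := by rcases core_cases h with c | c <;> omega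
  have := NE_ge (q := q) b
  omega

theorem cnt_gap (hS : Sorted ψ) (hst : StOK ψ fs st) {w : ℕ × ℕ × ℕ} {v : V} {n : ℕ}
    (h : (Sum.inr w : V) ∈ coreS q ψ) (hv : v ∈ coreS q ψ)
    (a : DAl (bt q ψ fs st) (dt q ψ fs st) (.inr w) n) :
    Cnt (coreS q ψ) (HH q st) (bt q ψ fs st) (dt q ψ fs st) n (.inr w) v =
      gap q (.inr w) v + (RS q ψ fs st n (.inr w) v).ncard := by
  obtain ⟨r, o, j⟩ := w
  have g := gv_le h
  have l := lev_lt (σ := st r o) (pos_core h).1
  have d := dal_range hS hst h a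
  have al' : ∀ lo hi, hi ≤ NE q ψ → ∀ i, lo ≤ i → i < hi →
      DAl (bt q ψ fs st) (dt q ψ fs st) (.inl i) n := fun lo hi x i y z => dal_inl.2 (by omega)
  obtain i | ⟨r', o', j'⟩ := v
  · have hi := core_inl.1 hv
    rw [cnt_split (lo := min (r * (3 * q + 4) + pos q j) (i + 1))
      (hi := max (r * (3 * q + 4) + pos q j) i) (by omega) (fun i' => ?_) (al' _ _ (by omega))]
    · simp only [gap, gv, Sum.elim_inl, Sum.elim_inr]
      omega
    · simp only [NB, HH_inl, HH_inr]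
      omega
  · have g' := gv_le hv
    have l' := lev_lt (σ := st r' o') (pos_core hv).1
    rw [cnt_split (lo := min (r * (3 * q + 4) + pos q j) (r' * (3 * q + 4) + pos q j'))
      (hi := max (r * (3 * q + 4) + pos q j) (r' * (3 * q + 4) + pos q j')) (by omega)
      (fun i' => ?_) (al' _ _ (by omega))]
    · simp only [gap, gv, Sum.elim_inr]
      omega
    · simp only [NB, HH_inl, HH_inr]
      omega

theorem rs_om (hS : Sorted ψ) (hst : StOK ψ fs st) {r o j i n : ℕ} (hj : j = 2 ∨ j = 3)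
    (h : (Sum.inr (r, o, j) : V) ∈ coreS q ψ)
    (a : DAl (bt q ψ fs st) (dt q ψ fs st) (.inr (r, o, j)) n)
    (g : gap q (.inr (r, o, j)) (.inl i) ≤ q + 1) : RS q ψ fs st n (.inr (r, o, j)) (.inl i) = ∅ := by
  refine eq_empty_of_forall_notMem ?_
  rintro ⟨r', o', j'⟩ ⟨h', a', b⟩
  obtain ⟨p3, p4⟩ := pos_core h'
  have l1 := lev_lt (σ := st r o) (pos_core h).1
  have l2 := lev_lt (σ := st r' o') p3
  have r1 := row_le (q := q) (r := r') (r' := r)
  have r2 := row_le (q := q) (r := r) (r' := r')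
  simp only [gap, gv, Sum.elim_inl, Sum.elim_inr, pos_om hj] at g
  have b' := b
  simp only [NB, HH_inl, HH_inr, pos_om hj] at b
  obtain rfl : r = r' := by omega
  rcases p4 with ⟨c, -⟩ | c
  · obtain ⟨rfl, rfl⟩ := om_uniq hS hst hj c h h' a a'
    unfold NB at b'
    omega
  · omega

/-- The symbol `z` stands for the vertex `v` in the cell `(r, s)`. -/
def Rep (q r s z : ℕ) (v : V) : Prop :=
  (isC z = true ∧ v = .inr (r, own z s, z)) ∨
    ∃ i, v = .inl i ∧ z = cls q r i ∧ r * (3 * q + 4) + q + 2 ≤ i ∧ i ≤ r * (3 * q + 4) + 4 * q + 5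

theorem lev_zone {σ x : ℕ} (h : isC x = true) : 6 < lev σ x ∧ lev σ x < 36 ∧
    ((x < 15 ∧ lev σ x < 15) ∨ (15 < x ∧ 15 < lev σ x)) := by
  have := isC_iff.1 h
  unfold lev
  split_ifs <;> omega

theorem cls_cases (q r i : ℕ) : (cls q r i = 6 ∧ i < r * (3 * q + 4) + (4 + 2 * q)) ∨
    (cls q r i = 15 ∧ r * (3 * q + 4) + (4 + 2 * q) ≤ i ∧ i < r * (3 * q + 4) + (4 + 3 * q)) ∨
    (cls q r i = 36 ∧ r * (3 * q + 4) + (4 + 3 * q) ≤ i) := by
  have e1 : pos q 15 = 4 + 2 * q := rfl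
  have e2 : pos q 36 = 4 + 3 * q := rfl
  unfold cls
  rw [e1, e2]
  split_ifs <;> omega

theorem rep_ord {r s z x : ℕ} {v : V} (R : Rep q r s z v) (hx : isC x = true) :
    (HH q st (.inr (r, own x s, x)) < HH q st v ↔ lev (st r s) x < lev (st r s) z) ∧
    (HH q st v < HH q st (.inr (r, own x s, x)) ↔ lev (st r s) z < lev (st r s) x) ∧
    128 * (r * (3 * q + 4) + q + 2) + 64 ≤ HH q st v ∧
    HH q st v < 128 * (r * (3 * q + 4) + 4 * q + 6) := by
  have p1 := pos_C (q := q) hx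
  have l1 := lev_zone (σ := st r s) hx
  rcases R with ⟨hz, rfl⟩ | ⟨i, rfl, rfl, i1, i2⟩
  · have p2 := pos_C (q := q) hz
    have l2 := lev_zone (σ := st r s) hz
    rw [HH_inr, HH_inr, lev_own, lev_own]
    omega
  · rw [HH_inr, HH_inl, lev_own]
    have e6 : lev (st r s) 6 = 6 := by simp [lev]
    have e15 : lev (st r s) 15 = 15 := by simp [lev]
    have e36 : lev (st r s) 36 = 36 := by simp [lev]
    rcases cls_cases q r i with ⟨c, d⟩ | ⟨c, d⟩ | ⟨c, d⟩ <;> rw [c] <;> omega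

theorem rs_cell (hst : StOK ψ fs st) {r s m n j z : ℕ} {v : V} (hr : r < NR ψ) (hs : s < NS ψ)
    (N : Now q ψ fs st r s m n) (hj : isC j = true) (R : Rep q r s z v) :
    (RS q ψ fs st n (.inr (r, own j s, j)) v).ncard = cnt (st r s) (aC (ct ψ st r s) m) j z := by
  have Rj : Rep q r s j (.inr (r, own j s, j)) := Or.inl ⟨hj, rfl⟩
  have e : RS q ψ fs st n (.inr (r, own j s, j)) v = (fun x => (r, own x s, x)) ''
      ((aC (ct ψ st r s) m).filter fun x =>
        btw (lev (st r s) j) (lev (st r s) x) (lev (st r s) z)).toFinset := by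
    ext ⟨r', o', j'⟩
    simp only [RS, mem_ofPred_eq, List.coe_toFinset, mem_image, List.mem_filter, mem_aC, btw,
      Bool.or_eq_true, Bool.and_eq_true, Nat.blt_eq, Prod.mk.injEq]
    constructor
    · rintro ⟨h', a', b⟩
      obtain ⟨p3, p4⟩ := pos_core h'
      have l2 := lev_lt (σ := st r' o') p3
      have r1 := row_le (q := q) (r := r') (r' := r)
      have r2 := row_le (q := q) (r := r) (r' := r')
      have w1 := (rep_ord (st := st) Rj hj).2.2
      have w2 := (rep_ord (st := st) R hj).2.2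
      have e := HH_inr (q := q) (st := st) r' o' j'
      unfold NB at b
      obtain rfl : r = r' := by omega
      have c : isC j' = true := by
        rcases p4 with c | c
        · omega
        · exact c.1
      obtain ⟨rfl, x⟩ := (N o' j' h' c).1 a'
      have o1 := rep_ord (st := st) Rj c
      have o2 := rep_ord (st := st) R c
      exact ⟨j', ⟨⟨c, x⟩, by omega⟩, rfl, rfl, rfl⟩
    · rintro ⟨x, ⟨⟨c, y⟩, b⟩, rfl, rfl, rfl⟩
      have hc := core_cv (q := q) hst c hr hs (by have := al_iff.1 y; omega)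
      have o1 := rep_ord (st := st) Rj c
      have o2 := rep_ord (st := st) R c
      refine ⟨hc, (N _ _ hc c).2 ⟨rfl, y⟩, ?_⟩
      unfold NB
      omega
  have nd : (aC (ct ψ st r s) m).Nodup := List.nodup_range.filter _
  rw [e, ncard_image_of_injective _ fun a b x => by simpa using (Prod.mk.inj (Prod.mk.inj x).2).2,
    ncard_coe_finset, List.toFinset_card_of_nodup (nd.filter _), cnt, List.countP_eq_length_filter]

end Pool.Agent.Lib.MP_0d8e88_lc.AllK
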