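import Pool.Agent.Lib.MP_0d8e88_lc.AllK.Count
import Pool.Agent.Lib.MP_0d8e88_lc.AllK.Chk1
import Pool.Agent.Lib.MP_0d8e88_lc.AllK.Chk2

/-!
From a satisfying assignment to a representation.
-/

namespace Pool.Agent.Lib.MP_0d8e88_lc.AllK

open Pool.Agent.Shared.PolyTime Set

variable {q : ℕ} {ψ : List (Clause3 ℕ)} {fs : ℕ → ℕ} {st : ℕ → ℕ → ℕ}

theorem low_tab (hst : StOK ψ fs st) {r s m j z : ℕ} (hm : m < 64) (hj : j ∈ aC (ct ψ st r s) m)
    (hz : z = 6 ∨ z = 15 ∨ z = 36 ∨ z ∈ aC (ct ψ st r s) m) (n : j ≠ z) :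
    DD (kind ψ r s) j z < 9 ∧ DD (kind ψ r s) j z ≤ cnt (st r s) (aC (ct ψ st r s) m) j z := by
  have ok := low_ok _ (kind_lt r s) _ (hst.2 r s).1
  rw [chkLow, force_eq, force_eq] at ok
  simp only [forceL_eq, List.all_eq_true, List.mem_range, List.mem_cons, Bool.or_eq_true,
    beq_iff_eq, Bool.and_eq_true, Nat.blt_eq, Nat.ble_eq] at ok
  exact (ok m hm j hj z hz).resolve_left n

theorem real_iff {σ t j z c : ℕ} (h : real σ (cols t) j z c = true) : ∃ m < 64, j ∈ aC t m ∧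
    (isCut z = true ∨ z ∈ aC t m) ∧ cnt σ (aC t m) j z ≤ c := by
  simp only [real, cols, List.any_eq_true, List.mem_map, List.mem_range, Bool.and_eq_true,
    List.contains_iff_mem, Bool.or_eq_true, Nat.ble_eq] at h
  obtain ⟨_, ⟨m, hm, rfl⟩, ⟨h1, h2⟩, h3⟩ := h
  exact ⟨m, hm, h1, h2, h3⟩

theorem up_tab (hst : StOK ψ fs st) {r s j z : ℕ} (hj : j < 43) (hz : z < 43)
    (h : DD (kind ψ r s) j z < 9) :
    (((j < 15 ∧ 15 < z) ∨ (z < 15 ∧ 15 < j)) ∧ 2 ≤ DD (kind ψ r s) j z) ∨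
    ((j = 9 ∧ z = 36) ∨ (j = 26 ∧ z = 6)) ∨
    real (st r s) (cols (ct ψ st r s)) j z
      (if isC z || z == 15 then max (DD (kind ψ r s) j z) 1 else DD (kind ψ r s) j z) = true := by
  have ok := up_ok _ (kind_lt r s) _ (hst.2 r s).1
  rw [chkUp, force_eq, force_eq, forceLL_eq, List.all_eq_true] at ok
  have := List.all_eq_true.1 (ok j (List.mem_range.2 hj)) z (List.mem_range.2 hz)
  rw [Bool.or_eq_true, Bool.or_eq_true, Bool.or_eq_true] at this
  rcases this with ((a | a) | a) | a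
  · exact absurd (Nat.ble_eq.mp a) (not_le.2 h)
  · left
    simp only [cross, Bool.and_eq_true, Bool.or_eq_true, Nat.blt_eq, Nat.ble_eq] at a
    exact a
  · right
    left
    simpa [exc] using a
  · exact Or.inr (Or.inr a)

/-- Visibility in the discrete representation. -/
def Vis (q : ℕ) (ψ : List (Clause3 ℕ)) (fs : ℕ → ℕ) (st : ℕ → ℕ → ℕ) (u v : V) : Prop :=
  ∃ n, DAl (bt q ψ fs st) (dt q ψ fs st) u n ∧ DAl (bt q ψ fs st) (dt q ψ fs st) v n ∧
    Cnt (coreS q ψ) (HH q st) (bt q ψ fs st) (dt q ψ fs st) n u v ≤ q + 1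

theorem Vis.symm {u v : V} (h : Vis q ψ fs st u v) : Vis q ψ fs st v u := by
  obtain ⟨n, a, b, c⟩ := h
  exact ⟨n, b, a, by rwa [cnt_symm]⟩

theorem vis_ee (hS : Sorted ψ) (hst : StOK ψ fs st) {n m : ℕ} (hn : n < NE q ψ) (hm : m < NE q ψ) :
    (n ≤ m + (q + 2) ∧ m ≤ n + (q + 2)) ↔ Vis q ψ fs st (.inl n) (.inl m) := by
  have hA : ∀ i, NB (HH q st) (.inl n) (.inl i) (.inl m) ↔ min n m + 1 ≤ i ∧ i < max n m := by
    intro i
    simp only [NB, HH_inl]
    omega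
  constructor
  · intro h
    refine ⟨NE q ψ - 1, dal_inl.2 (by omega), dal_inl.2 (by omega), ?_⟩
    have e : RS q ψ fs st (NE q ψ - 1) (.inl n) (.inl m) = ∅ := by
      refine eq_empty_of_forall_notMem fun w hw => ?_
      have := dal_range hS hst hw.1 hw.2.1
      omega
    rw [cnt_split (by omega) hA fun i _ _ => dal_inl.2 (by omega), e, ncard_empty]
    omega
  · rintro ⟨t, a, b, c⟩
    rw [dal_inl] at a b
    rw [cnt_split (by omega) hA fun i _ _ => dal_inl.2 (by omega)] at c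
    omega

theorem vis_real (hS : Sorted ψ) (hst : StOK ψ fs st) {r s j z c : ℕ} {v : V} (hr : r < NR ψ)
    (hs : s < NS ψ) (h : (Sum.inr (r, own j s, j) : V) ∈ coreS q ψ) (hv : v ∈ coreS q ψ)
    (R : Rep q r s z v) (hc : real (st r s) (cols (ct ψ st r s)) j z c = true)
    (g : gap q (.inr (r, own j s, j)) v + c ≤ q + 1) : Vis q ψ fs st (.inr (r, own j s, j)) v := by
  obtain ⟨m, hm, h1, h2, h3⟩ := real_iff hc
  obtain ⟨c1, a1⟩ := mem_aC.1 h1
  have N := now_sync (q := q) hS hst r hs hm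
  have a := (N _ _ h c1).2 ⟨rfl, a1⟩
  refine ⟨_, a, ?_, ?_⟩
  · rcases R with ⟨hz, rfl⟩ | ⟨i, rfl, -⟩
    · have := isC_iff.1 hz
      have n : ¬isCut z = true := by
        simp only [isCut, Bool.or_eq_true, beq_iff_eq]
        omega
      exact (N _ _ hv hz).2 ⟨rfl, (mem_aC.1 (h2.resolve_left n)).2⟩
    · exact dal_sync_inl (core_inl.1 hv) (by omega)
  · rw [cnt_gap hS hst h hv a, rs_cell hst hr hs N c1 R]
    omega

theorem vis_of_adjR (hS : Sorted ψ) (hst : StOK ψ fs st) {w w' : ℕ × ℕ × ℕ}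
    (h : (Sum.inr w : V) ∈ coreS q ψ) (h' : (Sum.inr w' : V) ∈ coreS q ψ) (a : adjR q ψ w w') :
    Vis q ψ fs st (.inr w) (.inr w') := by
  obtain ⟨r, o, j⟩ := w
  obtain ⟨r', o', z⟩ := w'
  obtain ⟨e, s, hs, e1, e2, d1, d2⟩ := a
  dsimp only at e e1 e2 d1 d2
  subst e e1 e2
  obtain ⟨p1, -⟩ := pos_core h
  obtain ⟨p3, p4⟩ := pos_core h'
  obtain ⟨cj, cz⟩ := ((DD_ok _ (kind_lt r s) j p1).2 z p3).1 d1
  have cz' : isC z = true := by
    rcases p4 with c | c
    · rcases cz with x | x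
      · exact x
      · simp only [isCut, Bool.or_eq_true, beq_iff_eq] at x
        omega
    · exact c.1
  have j1 := isC_iff.1 cj
  have z1 := isC_iff.1 cz'
  have hr : r < NR ψ := by rcases core_cases h with c | c <;> omega
  have q1 := pos_C (q := q) cj
  have q2 := pos_C (q := q) cz'
  have g : gap q (.inr (r, own j s, j)) (.inr (r, own z s, z)) =
      pos q j - pos q z + (pos q z - pos q j) := by
    simp only [gap, gv, Sum.elim_inr]
    omega
  rcases up_tab hst p1 p3 d1 with x | x | x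
  · omega
  · omega
  · rw [cz', Bool.true_or, if_pos rfl] at x
    exact vis_real hS hst hr hs h h' (Or.inl ⟨cz', rfl⟩) x (by omega)

theorem adjR_of_vis (hS : Sorted ψ) (hst : StOK ψ fs st) {w w' : ℕ × ℕ × ℕ}
    (h : (Sum.inr w : V) ∈ coreS q ψ) (h' : (Sum.inr w' : V) ∈ coreS q ψ) (ne : w ≠ w')
    (a : Vis q ψ fs st (.inr w) (.inr w')) : adjR q ψ w w' := by
  obtain ⟨r, o, j⟩ := w
  obtain ⟨r', o', z⟩ := w'
  obtain ⟨n, a1, a2, a3⟩ := a
  rw [cnt_gap hS hst h h' a1] at a3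
  obtain ⟨p1, p2⟩ := pos_core h
  obtain ⟨p3, p4⟩ := pos_core h'
  have r1 := row_le (q := q) (r := r') (r' := r)
  have r2 := row_le (q := q) (r := r) (r' := r')
  have g : gap q (.inr (r, o, j)) (.inr (r', o', z)) =
      (r * (3 * q + 4) + pos q j) - (r' * (3 * q + 4) + pos q z) +
        ((r' * (3 * q + 4) + pos q z) - (r * (3 * q + 4) + pos q j)) := by
    simp only [gap, gv, Sum.elim_inr]
    omega
  obtain rfl : r = r' := by omega
  rcases p2 with ⟨c, _⟩ | ⟨c, _⟩ <;> rcases p4 with ⟨c', _⟩ | ⟨c', _⟩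
  · obtain ⟨rfl, rfl⟩ := om_uniq hS hst c c' h h' a1 a2
    exact absurd rfl ne
  · omega
  · omega
  · obtain ⟨s, hs, m, hm, N⟩ := cell_now hS hst h c a1
    obtain ⟨rfl, b⟩ := (N o j h c).1 a1
    obtain ⟨rfl, b'⟩ := (N o' z h' c').1 a2
    have j1 := isC_iff.1 c
    have hr : r < NR ψ := by rcases core_cases h with c | c <;> omega
    rw [rs_cell hst hr hs N c (Or.inl ⟨c', rfl⟩)] at a3
    have t := low_tab hst hm (mem_aC.2 ⟨c, b⟩) (Or.inr (Or.inr (Or.inr (mem_aC.2 ⟨c', b'⟩))))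
      fun x => ne (by rw [x])
    exact ⟨rfl, s, hs, rfl, rfl, t.1, by dsimp only; omega⟩

theorem gap_cell {r o j i : ℕ} : gap q (.inr (r, o, j)) (.inl i) =
    i - (r * (3 * q + 4) + pos q j) + (r * (3 * q + 4) + pos q j - (i + 1)) := by
  simp only [gap, gv, Sum.elim_inl, Sum.elim_inr]
  omega

theorem adjE_of_vis (hS : Sorted ψ) (hst : StOK ψ fs st) {w : ℕ × ℕ × ℕ} {i : ℕ}
    (h : (Sum.inr w : V) ∈ coreS q ψ) (h' : (Sum.inl i : V) ∈ coreS q ψ)
    (a : Vis q ψ fs st (.inr w) (.inl i)) : adjE q ψ w i := by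
  obtain ⟨r, o, j⟩ := w
  obtain ⟨n, a1, -, a3⟩ := a
  rw [cnt_gap hS hst h h' a1] at a3
  refine ⟨by omega, ?_⟩
  rcases core_cases h with ⟨c, -⟩ | ⟨c, hr⟩
  · left
    dsimp only
    omega
  · right
    obtain ⟨s, hs, m, hm, N⟩ := cell_now hS hst h c a1
    obtain ⟨rfl, b⟩ := (N o j h c).1 a1
    have j1 := isC_iff.1 c
    have q1 := pos_C (q := q) c
    have g := gap_cell (q := q) (r := r) (o := own j s) (j := j) (i := i)
    have k := cls_cases q r i
    rw [rs_cell hst hr hs N c (Or.inr ⟨i, rfl, rfl, by omega, by omega⟩)] at a3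
    have t := low_tab hst hm (mem_aC.2 ⟨c, b⟩) (z := cls q r i)
      (by rcases k with k | k | k <;> simp [k.1]) (by omega)
    exact ⟨s, hs, rfl, t.1, by dsimp only; omega⟩

/-- The two exceptional visibilities of a clause are realised. -/
def ExcOK (ψ : List (Clause3 ℕ)) (st : ℕ → ℕ → ℕ) : Prop := ∀ r, 2 * NS ψ ≤ r → r < NR ψ →
  (∃ s < NS ψ, real (st r s) (cols (ct ψ st r s)) 9 36 1 = true) ∧
    ∃ s < NS ψ, real (st r s) (cols (ct ψ st r s)) 26 6 1 = true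

theorem vis_of_adjE (hS : Sorted ψ) (hst : StOK ψ fs st) (hx : ExcOK ψ st) {w : ℕ × ℕ × ℕ} {i : ℕ}
    (h : (Sum.inr w : V) ∈ coreS q ψ) (h' : (Sum.inl i : V) ∈ coreS q ψ) (a : adjE q ψ w i) :
    Vis q ψ fs st (.inr w) (.inl i) := by
  obtain ⟨r, o, j⟩ := w
  obtain ⟨a1, a2⟩ := a
  rcases core_cases h with ⟨c, -⟩ | ⟨c, hr⟩
  · have b : DAl (bt q ψ fs st) (dt q ψ fs st) (.inr (r, o, j)) (bt q ψ fs st (.inr (r, o, j))) :=
      ⟨le_rfl, disc_lt hS hst _ h⟩
    have d := dal_range hS hst h b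
    have := core_inl.1 h'
    refine ⟨_, b, dal_inl.2 (by omega), ?_⟩
    rw [cnt_gap hS hst h h' b, rs_om hS hst c h b a1, ncard_empty]
    exact a1
  · have j1 := isC_iff.1 c
    dsimp only at a2
    replace a2 := a2.resolve_left (by omega)
    obtain ⟨s, hs, rfl, d1, d2⟩ := a2
    have q1 := pos_C (q := q) c
    have g := gap_cell (q := q) (r := r) (o := own j s) (j := j) (i := i)
    have k := cls_cases q r i
    have R : ∀ s, Rep q r s (cls q r i) (.inl i) := fun _ =>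
      Or.inr ⟨i, rfl, rfl, by omega, by omega⟩
    rcases up_tab hst (by omega) (by omega) d1 with x | x | x
    · omega
    · have hl : isL j = true := isL_iff.2 (by omega)
      have r2 : 2 * NS ψ ≤ r := by
        have := ((core_long hl).1 h).2.2
        omega
      have eo : ∀ s', own j s = own j s' := fun s' => by simp [own, hl]
      obtain ⟨x1, x2⟩ := exc_ok.1 _ (kind_lt (ψ := ψ) r s)
      obtain ⟨⟨s1, b1, b2⟩, s2, b3, b4⟩ := hx r r2 hr
      rcases x with ⟨rfl, x⟩ | ⟨rfl, x⟩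
      · rw [x] at d2
        rw [eo s1] at h d2 ⊢
        exact vis_real hS hst hr b1 h h' (x ▸ R s1) b2 (by omega)
      · rw [x] at d2
        rw [eo s2] at h d2 ⊢
        exact vis_real hS hst hr b3 h h' (x ▸ R s2) b4 (by omega)
    · refine vis_real hS hst hr hs h h' (R s) x ?_
      split_ifs with y
      · have : cls q r i = 15 := by
          simp only [Bool.or_eq_true, isC_iff, beq_iff_eq] at y
          omega
        omega
      · omega

theorem discK (hS : Sorted ψ) (hst : StOK ψ fs st) (hx : ExcOK ψ st) :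
    DiscK (q + 1) (coreS q ψ) (adjC q ψ) (HH q st) (bt q ψ fs st) (dt q ψ fs st) := by
  refine ⟨disc_lt hS hst, disc_dist hS hst, disc_disj hS hst, ?_⟩
  rintro (n | w) hu (m | w') hv ne
  · have n1 : n ≠ m := fun x => ne (by rw [x])
    exact (and_iff_right n1).trans (vis_ee hS hst (core_inl.1 hu) (core_inl.1 hv))
  · exact ⟨fun a => (vis_of_adjE hS hst hx hv hu a).symm,
      fun a => adjE_of_vis hS hst hv hu (Vis.symm a)⟩
  · exact ⟨vis_of_adjE hS hst hx hu hv, adjE_of_vis hS hst hu hv⟩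
  · exact ⟨fun a => a.elim (vis_of_adjR hS hst hu hv) fun b => (vis_of_adjR hS hst hv hu b).symm,
      fun a => Or.inl (adjR_of_vis hS hst hu hv (fun x => ne (by rw [x])) a)⟩

/-- The side that comes first. -/
def fsN (ν : ℕ → Bool) (s : ℕ) : ℕ := if ν (s / 2) then 0 else 1

def bad (ψ : List (Clause3 ℕ)) (ν : ℕ → Bool) (r s : ℕ) : ℕ :=
  if (1 + flp ψ r s) % 2 = fsN ν s then 1 else 0

def res (ψ : List (Clause3 ℕ)) (ν : ℕ → Bool) (r : ℕ) : ℕ :=
  if ν (cl ψ r).1.1 = (cl ψ r).1.2 then 0 else if ν (cl ψ r).2.1.1 = (cl ψ r).2.1.2 then 1 else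
    if ν (cl ψ r).2.2.1 = (cl ψ r).2.2.2 then 2 else 0

def stN (ψ : List (Clause3 ℕ)) (ν : ℕ → Bool) (r s : ℕ) : ℕ :=
  bad ψ ν r s + if kind ψ r s = 5 then 2 * res ψ ν r else 0

theorem bad_zero (hS : Sorted ψ) (ν : ℕ → Bool) (r : ℕ) :
    (ν (cl ψ r).1.1 = (cl ψ r).1.2 → bad ψ ν r (2 * (cl ψ r).1.1) = 0) ∧
    (ν (cl ψ r).2.1.1 = (cl ψ r).2.1.2 → bad ψ ν r (2 * (cl ψ r).2.1.1) = 0) ∧
    (ν (cl ψ r).2.2.1 = (cl ψ r).2.2.2 → bad ψ ν r (2 * (cl ψ r).2.2.1) = 0) := by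
  obtain ⟨-, c2, c3, -⟩ := cl_ok hS r
  unfold bad fsN flp
  generalize cl ψ r = c at c2 c3
  obtain ⟨⟨a, x⟩, ⟨b, y⟩, ⟨d, z⟩⟩ := c
  dsimp only at c2 c3 ⊢
  have e : ∀ t : ℕ, 2 * t / 2 = t := fun t => by omega
  have n1 : a ≠ b := by omega
  have n2 : a ≠ d := by omega
  have n3 : b ≠ d := by omega
  refine ⟨fun h => ?_, fun h => ?_, fun h => ?_⟩
  · cases x <;> simp [h, n1, n2]
  · cases y <;> simp [h, n1.symm, n3]
  · cases z <;> simp [h, n2.symm, n3.symm]

theorem bad_lt (ν : ℕ → Bool) (r s : ℕ) : bad ψ ν r s < 2 := by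
  unfold bad
  split_ifs <;> omega

theorem stN_ok (hS : Sorted ψ) (ν : ℕ → Bool) : StOK ψ (fsN ν) (stN ψ ν) := by
  refine ⟨fun s => by unfold fsN; split_ifs <;> omega, fun r s => ⟨?_, ?_⟩⟩
  · have b := bad_lt (ψ := ψ) ν r s
    unfold stN nst
    split_ifs with k
    · have e : s = 2 * (cl ψ r).2.2.1 := by
        unfold kind at k
        split_ifs at k <;> omega
      have := (bad_zero hS ν r).2.2
      rw [← e] at this
      unfold res
      split_ifs with h1 h2 h3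
      · omega
      · omega
      · have := this h3
        omega
      · omega
    · omega
  · have e : stN ψ ν r s % 2 = bad ψ ν r s % 2 := by
      unfold stN
      split_ifs <;> omega
    rw [e, bad]
    split_ifs with c <;> simp [c]

theorem exc_stN (hS : Sorted ψ) {ν : ℕ → Bool} (h : ∀ c ∈ ψ, c.Holds ν) : ExcOK ψ (stN ψ ν) := by
  intro r h1 h2
  have hm : cl ψ r ∈ ψ := by
    have : r - 2 * NS ψ < ψ.length := by
      unfold NR at h2
      omega
    rw [cl, List.getD_eq_getElem _ _ this]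
    exact List.getElem_mem this
  obtain ⟨c1, c2, c3, -, c5⟩ := cl_ok hS r
  have c6 := c5 h2 h1
  have a1 : ¬r < NS ψ := by omega
  have a2 : ¬r < 2 * NS ψ := by omega
  have k1 : kind ψ r (2 * (cl ψ r).1.1) = 1 := by
    unfold kind
    split_ifs <;> omega
  have k3 : kind ψ r (2 * (cl ψ r).2.1.1) = 3 := by
    unfold kind
    split_ifs <;> omega
  have k5 : kind ψ r (2 * (cl ψ r).2.2.1) = 5 := by
    unfold kind
    split_ifs <;> omega
  obtain ⟨b1, b2, b3⟩ := bad_zero hS ν r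
  obtain ⟨-, x1, x2, x3, x4⟩ := exc_ok
  have s5 := ((stN_ok hS ν).2 r (2 * (cl ψ r).2.2.1)).1
  have e5 : stN ψ ν r (2 * (cl ψ r).2.2.1) = bad ψ ν r (2 * (cl ψ r).2.2.1) + 2 * res ψ ν r := by
    rw [stN, if_pos k5]
  have l5 := bad_lt (ψ := ψ) ν r (2 * (cl ψ r).2.2.1)
  rw [k5] at s5
  have s6 : stN ψ ν r (2 * (cl ψ r).2.2.1) < 5 := s5
  constructor
  · by_cases l1 : ν (cl ψ r).1.1 = (cl ψ r).1.2
    · refine ⟨2 * (cl ψ r).1.1, by omega, ?_⟩
      have e : stN ψ ν r (2 * (cl ψ r).1.1) = 0 := by rw [stN, b1 l1, if_neg (by omega)]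
      rw [ct, k1, e]
      exact x1
    · refine ⟨2 * (cl ψ r).2.2.1, by omega, ?_⟩
      rw [ct, k5]
      refine x3 _ s6 ?_
      have : 1 ≤ res ψ ν r := by
        unfold res
        rw [if_neg l1]
        split_ifs with l2 l3
        · omega
        · omega
        · rcases h _ hm with x | x | x <;> contradiction
      omega
  · by_cases l2 : ν (cl ψ r).2.1.1 = (cl ψ r).2.1.2
    · refine ⟨2 * (cl ψ r).2.1.1, by omega, ?_⟩
      have e : stN ψ ν r (2 * (cl ψ r).2.1.1) = 0 := by rw [stN, b2 l2, if_neg (by omega)]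
      rw [ct, k3, e]
      exact x2
    · refine ⟨2 * (cl ψ r).2.2.1, by omega, ?_⟩
      rw [ct, k5]
      refine x4 _ s6 ?_
      have : res ψ ν r ≠ 1 := by
        unfold res
        rw [if_neg l2]
        split_ifs <;> omega
      omega

theorem forward (hS : Sorted ψ) (h : Sat3 ψ) : ∃ h l r, RepOn (q + 1)
    (tS (coreS q ψ) {y : V × ℕ | y.1 ∈ pinI q ψ ∧ y.2 < 7})
    (tA (adjC q ψ) (fun y => pinP q ψ y.1)) h l r := by
  obtain ⟨ν, hν⟩ := h
  exact rep_of_discK (discK hS (stN_ok hS ν) (exc_stN hS hν)) core_finite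
    (pinI_finite.prod (finite_lt_nat 7)) fun y hy => pin_real hS (stN_ok hS ν) y.1 hy.1

end Pool.Agent.Lib.MP_0d8e88_lc.AllK
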