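import Pool.Agent.Lib.MP_0d8e88_lc.Good

/-!
Consequences of a representation of a graph with pins, for every `k`, and three abstract lemmas:
the head of a pin is extreme, wires do not cross, lanes of overlapping bars block.
-/

namespace Pool.Agent.Lib.MP_0d8e88_lc.AllK

open Set

variable {C ι : Type}

/-- What is used of a representation. -/
structure GoodK (k : ℕ) (S : Set C) (A : C → C → Prop) (I : Set ι) (P : ι → List C)
    (h l r : C → ℝ) (τ : ι → ℝ) : Prop where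
  edge : ∀ u ∈ S, ∀ v ∈ S, u ≠ v → A u v → ∃ t, Al l r u t ∧ Al l r v t ∧
    ∀ B : List C, B.Nodup → (∀ w ∈ B, w ∈ S ∧ Al l r w t ∧ Btw h u w v) → B.length ≤ k
  mem : ∀ p ∈ I, ∀ v ∈ P p, Al l r v (τ p)
  out : ∀ p ∈ I, ∀ w ∈ S, w ∉ P p → ∀ a ∈ P p, ∀ b ∈ P p, h a < h w → h w < h b →
    ¬Al l r w (τ p)
  disj : ∀ u ∈ S, ∀ v ∈ S, u ≠ v → ∀ t, Al l r u t → Al l r v t → h u ≠ h v
  ord : ∀ p ∈ I, ∀ u ∈ P p, ∀ v ∈ P p, u ≠ v → ¬A u v →
    k < {w | w ∈ P p ∧ Btw h u w v}.ncard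

variable {k : ℕ} {S : Set C} {A : C → C → Prop} {I : Set ι} {P : ι → List C} {h l r : C → ℝ}
  {τ : ι → ℝ}

theorem GoodK.flipH (G : GoodK k S A I P h l r τ) : GoodK k S A I P (fun v => -h v) l r τ := by
  have hb : ∀ u w v, Btw (fun v => -h v) u w v ↔ Btw h u w v := fun u w v => RB_neg _ _ _
  refine ⟨fun u hu v hv n a => ?_, G.mem, fun p hp w hw n a ha b hb x y => ?_,
    fun u hu v hv n t a b e => G.disj u hu v hv n t a b (neg_injective e),
    fun p hp u hu v hv n a => ?_⟩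
  · simpa only [hb] using G.edge u hu v hv n a
  · exact G.out p hp w hw n b hb a ha (neg_lt_neg_iff.1 y) (neg_lt_neg_iff.1 x)
  · simpa only [hb] using G.ord p hp u hu v hv n a

theorem GoodK.flipT (G : GoodK k S A I P h l r τ) :
    GoodK k S A I P h (fun v => -r v) (fun v => -l v) (fun p => -τ p) := by
  have ha : ∀ v t, Al (fun v => -r v) (fun v => -l v) v t ↔ Al l r v (-t) := by
    intro v t
    simp only [Al, neg_le, le_neg]
    tauto
  refine ⟨fun u hu v hv n a => ?_, fun p hp v hv => (ha _ _).2 (by simpa using G.mem p hp v hv),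
    fun p hp w hw n a ha' b hb x y z => G.out p hp w hw n a ha' b hb x y
      (by simpa using (ha _ _).1 z),
    fun u hu v hv n t a b => G.disj u hu v hv n (-t) ((ha _ _).1 a) ((ha _ _).1 b), G.ord⟩
  obtain ⟨t, t1, t2, t3⟩ := G.edge u hu v hv n a
  refine ⟨-t, (ha _ _).2 (by simpa using t1), (ha _ _).2 (by simpa using t2), ?_⟩
  simpa only [ha, neg_neg] using t3

theorem good_of_repK (hS : S.Finite) (hI : I.Finite)
    (hP : ∀ p ∈ I, (P p).Nodup ∧ (P p).length = 2 * (k + 1) ∧ ∀ v ∈ P p, v ∈ S)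
    {h l r : C ⊕ (ι × ℕ) → ℝ}
    (H : RepOn k (tS S {y | y.1 ∈ I ∧ y.2 < 7}) (tA A (fun y => P y.1)) h l r) :
    ∃ τ, GoodK k S A I P (h ∘ Sum.inl) (l ∘ Sum.inl) (r ∘ Sum.inl) τ := by
  classical
  have hfin : (tS S {y : ι × ℕ | y.1 ∈ I ∧ y.2 < 7}).Finite :=
    tS_finite hS (hI.prod (finite_lt_nat 7))
  have tw : ∀ p ∈ I, Twins k (tS S {y | y.1 ∈ I ∧ y.2 < 7}) (tA A (fun y => P y.1))
      (Sum.inl '' {v | v ∈ P p}) ((fun i => Sum.inr (p, i)) '' Iio 7) := by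
    intro p hp
    refine ⟨?_, ?_, ?_, ?_, ?_, ?_⟩
    · rintro _ ⟨v, hv, rfl⟩
      exact (hP p hp).2.2 v hv
    · rintro _ ⟨i, hi, rfl⟩
      exact ⟨hp, hi⟩
    · rw [ncard_image_of_injective _ Sum.inl_injective, ← List.coe_toFinset, ncard_coe_finset,
        List.toFinset_card_of_nodup (hP p hp).1, (hP p hp).2.1]
    · rw [ncard_image_of_injective _ (fun a b e => by simpa using e)]
      simp
    · rintro _ ⟨i, -, rfl⟩
      simp
    · rintro _ ⟨i, -, rfl⟩ (v | v) - - <;> simp [tA]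
  have pin := fun p hp => (tw p hp).pin H hfin
  choose! τ t1 t2 using pin
  refine ⟨τ, fun u hu v hv n a => ?_, fun p hp v hv => t1 p hp _ ⟨v, hv, rfl⟩,
    fun p hp w hw n a ha b hb => t2 p hp (.inl w) hw (by simpa using n) _ ⟨a, ha, rfl⟩ _
      ⟨b, hb, rfl⟩,
    fun u hu v hv n => H.disj (.inl u) hu (.inl v) hv (by simpa using n),
    fun p hp u hu v hv n na => ?_⟩
  · obtain ⟨t, a1, a2, a3⟩ := (H.adj (.inl u) hu (.inl v) hv (by simpa using n)).1 a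
    refine ⟨t, a1, a2, fun B hB hw => le_trans ?_ a3⟩
    rw [← List.toFinset_card_of_nodup hB, ← ncard_coe_finset,
      ← ncard_image_of_injective _ (Sum.inl_injective (β := ι × ℕ))]
    refine ncard_le_ncard ?_ (hfin.subset fun _ a => a.1)
    rintro _ ⟨w, w1, rfl⟩
    exact hw w (by simpa using w1)
  · have sub := (hP p hp).2.2
    have c : k < {w | w ∈ tS S {y : ι × ℕ | y.1 ∈ I ∧ y.2 < 7} ∧ Al l r w (τ p) ∧
        Btw h (.inl u) w (.inl v)}.ncard := by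
      by_contra c
      exact na ((H.adj (.inl u) (sub u hu) (.inl v) (sub v hv) (by simpa using n)).2
        ⟨τ p, t1 p hp _ ⟨u, hu, rfl⟩, t1 p hp _ ⟨v, hv, rfl⟩, not_lt.1 c⟩)
    refine lt_of_lt_of_le c ?_
    rw [← ncard_image_of_injective {w | w ∈ P p ∧ Btw (h ∘ Sum.inl) u w v}
      (Sum.inl_injective (β := ι × ℕ))]
    refine ncard_le_ncard ?_ (((List.finite_toSet (P p)).subset fun _ a => a.1).image _)
    rintro w ⟨w1, w2, w3⟩
    have : w ∈ (Sum.inl '' {v | v ∈ P p} : Set (C ⊕ (ι × ℕ))) := by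
      by_contra n
      rcases w3 with w3 | w3
      · exact t2 p hp w w1 n _ ⟨u, hu, rfl⟩ _ ⟨v, hv, rfl⟩ w3.1 w3.2 w2
      · exact t2 p hp w w1 n _ ⟨v, hv, rfl⟩ _ ⟨u, hu, rfl⟩ w3.1 w3.2 w2
    obtain ⟨z, z1, rfl⟩ := this
    exact ⟨z, ⟨z1, w3⟩, rfl⟩

theorem GoodK.head_up (G : GoodK k S A I P h l r τ) {p : ι} (hp : p ∈ I) {x : ℕ → C}
    (hx : ∀ w, w ∈ P p ↔ ∃ i < 2 * k + 2, x i = w)
    (na : ∀ j, k + 2 ≤ j → j < 2 * k + 2 → ¬A (x 0) (x j)) {j : ℕ} (j1 : k + 2 ≤ j)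
    (j2 : j < 2 * k + 2) (hj : h (x 0) < h (x j)) :
    ∀ i, 1 ≤ i → i ≤ k + 1 → h (x 0) < h (x i) ∧ h (x i) < h (x j) := by
  obtain ⟨j0, ⟨a1, a2, a3⟩, a4⟩ := exists_min_image
    {j | k + 2 ≤ j ∧ j < 2 * k + 2 ∧ h (x 0) < h (x j)} (fun j => h (x j))
    ((finite_lt_nat (2 * k + 2)).subset fun _ a => a.2.1) ⟨j, j1, j2, hj⟩
  have o := G.ord p hp (x 0) ((hx _).2 ⟨0, by omega, rfl⟩) (x j0) ((hx _).2 ⟨j0, a2, rfl⟩)
    (fun e => by rw [e] at a3; exact lt_irrefl _ a3) (na j0 a1 a2)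
  have s : {w | w ∈ P p ∧ Btw h (x 0) w (x j0)} ⊆ x '' Icc 1 (k + 1) := by
    rintro w ⟨w1, w2⟩
    obtain ⟨i, i1, rfl⟩ := (hx w).1 w1
    rw [btw_of_lt a3] at w2
    refine ⟨i, ⟨?_, ?_⟩, rfl⟩
    · by_contra c
      obtain rfl : i = 0 := by omega
      exact lt_irrefl _ w2.1
    · by_contra c
      exact not_le.2 w2.2 (a4 i ⟨by omega, i1, w2.1⟩)
  have c : (x '' Icc 1 (k + 1)).ncard ≤ k + 1 := by
    refine (ncard_image_le (finite_Icc _ _)).trans ?_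
    simp [ncard_eq_toFinset_card']
  have e := eq_of_subset_of_ncard_le s (by omega) ((finite_Icc _ _).image _)
  intro i i1 i2
  have m : x i ∈ {w | w ∈ P p ∧ Btw h (x 0) w (x j0)} := e ▸ ⟨i, ⟨i1, i2⟩, rfl⟩
  have m2 := (btw_of_lt a3).1 m.2
  exact ⟨m2.1, m2.2.trans_le (a4 j ⟨j1, j2, hj⟩)⟩

/-- The head of a pin that is not adjacent to the last `k` terms is extreme. -/
theorem GoodK.head (G : GoodK k S A I P h l r τ) (hk : 1 ≤ k) {p : ι} (hp : p ∈ I)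
    (hS : ∀ v ∈ P p, v ∈ S) {x : ℕ → C}
    (hx : ∀ w, w ∈ P p ↔ ∃ i < 2 * k + 2, x i = w)
    (inj : ∀ i < 2 * k + 2, ∀ j < 2 * k + 2, x i = x j → i = j)
    (na : ∀ j, k + 2 ≤ j → j < 2 * k + 2 → ¬A (x 0) (x j)) :
    (∀ i, 1 ≤ i → i ≤ k + 1 → ∀ j, k + 2 ≤ j → j < 2 * k + 2 →
      h (x 0) < h (x i) ∧ h (x i) < h (x j)) ∨
    (∀ i, 1 ≤ i → i ≤ k + 1 → ∀ j, k + 2 ≤ j → j < 2 * k + 2 →
      h (x i) < h (x 0) ∧ h (x j) < h (x i)) := by
  have ne : ∀ j, k + 2 ≤ j → j < 2 * k + 2 → h (x 0) ≠ h (x j) := fun j j1 j2 =>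
    G.disj _ (hS _ ((hx _).2 ⟨0, by omega, rfl⟩)) _ (hS _ ((hx _).2 ⟨j, j2, rfl⟩))
      (fun e => by have := inj 0 (by omega) j j2 e; omega) (τ p)
      (G.mem p hp _ ((hx _).2 ⟨0, by omega, rfl⟩)) (G.mem p hp _ ((hx _).2 ⟨j, j2, rfl⟩))
  have up := fun j j1 j2 hj => G.head_up hp hx na (j := j) j1 j2 hj
  have dn := fun j j1 j2 hj => G.flipH.head_up hp hx na (j := j) j1 j2 hj
  simp only [neg_lt_neg_iff] at dn
  rcases lt_or_gt_of_ne (ne (k + 2) le_rfl (by omega)) with c | c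
  · left
    intro i i1 i2 j j1 j2
    rcases lt_or_gt_of_ne (ne j j1 j2) with d | d
    · exact up j j1 j2 d i i1 i2
    · exact absurd (dn j j1 j2 d i i1 i2).1 (up _ le_rfl (by omega) c i i1 i2).1.not_gt
  · right
    intro i i1 i2 j j1 j2
    rcases lt_or_gt_of_ne (ne j j1 j2) with d | d
    · exact absurd (up j j1 j2 d i i1 i2).1 (dn _ le_rfl (by omega) c i i1 i2).1.not_gt
    · exact dn j j1 j2 d i i1 i2

theorem al_mid {v : C} {a b t : ℝ} (h1 : Al l r v a) (h2 : Al l r v b)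
    (x : a ≤ t) (y : t ≤ b) : Al l r v t := ⟨h1.1.trans x, y.trans h2.2⟩

theorem al_side {v : C} {a b t : ℝ} (h1 : Al l r v a) (h2 : Al l r v b)
    (n : ¬Al l r v t) : (a < t ↔ b < t) ∧ (t < a ↔ t < b) ∧ (t < a ↔ ¬a < t) := by
  rcases lt_or_ge t (l v) with c | c
  · have x := c.trans_le h1.1
    have y := c.trans_le h2.1
    simp [x, y, x.not_gt, y.not_gt]
  · have c' : r v < t := not_le.1 fun z => n ⟨c, z⟩
    have x := h1.2.trans_lt c'
    have y := h2.2.trans_lt c'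
    simp [x, y, x.not_gt, y.not_gt]

/-- Two wires do not cross. -/
theorem no_cross {x y : ℕ → C} {t u : ℕ → ℝ} {n : ℕ}
    (mx : ∀ i < n, h (x i) ≤ h (x (i + 1))) (my : ∀ i < n, h (y i) ≤ h (y (i + 1)))
    (ax : ∀ i < n, Al l r (x i) (t i) ∧ Al l r (x (i + 1)) (t i))
    (ay : ∀ i < n, Al l r (y i) (u i) ∧ Al l r (y (i + 1)) (u i))
    (dx : ∀ i ≤ n, ∀ j < n, h (y j) ≤ h (x i) → h (x i) ≤ h (y (j + 1)) → ¬Al l r (x i) (u j))
    (dy : ∀ i ≤ n, ∀ j < n, h (x j) ≤ h (y i) → h (y i) ≤ h (x (j + 1)) → ¬Al l r (y i) (t j))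
    (b1 : h (x 0) < h (y 1)) (b2 : h (y 0) < h (x 1)) :
    ∀ i < n, ∀ j < n, h (x i) ≤ h (y (j + 1)) → h (y j) ≤ h (x (i + 1)) →
      (t i < u j ↔ t 0 < u 0) ∧ (u j < t i ↔ ¬t 0 < u 0) := by
  have mono : ∀ {z : ℕ → C}, (∀ i < n, h (z i) ≤ h (z (i + 1))) → ∀ i, i < n →
      h (z 1) ≤ h (z (i + 1)) := by
    intro z mz i
    induction i with
    | zero => exact fun _ => le_rfl
    | succ i ih => exact fun hi => (ih (by omega)).trans (mz _ hi)
  have tot : ∀ i < n, ∀ j < n, h (x i) ≤ h (y (j + 1)) → h (y j) ≤ h (x (i + 1)) →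
      (u j < t i ↔ ¬t i < u j) := by
    intro i hi j hj o1 o2
    rcases le_total (h (y j)) (h (x i)) with c | c
    · exact (al_side (ax i hi).1 (ax i hi).1 (dx i hi.le j hj c o1)).2.2
    · have := (al_side (ay j hj).1 (ay j hj).1 (dy j hj.le i hi c o2)).2.2
      rw [this, not_not]
  have key : ∀ m, ∀ i < n, ∀ j < n, i + j = m → h (x i) ≤ h (y (j + 1)) →
      h (y j) ≤ h (x (i + 1)) → (t i < u j ↔ t 0 < u 0) := by
    intro m
    induction m with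
    | zero =>
      intro i _ j _ e _ _
      obtain rfl : i = 0 := by omega
      obtain rfl : j = 0 := by omega
      rfl
    | succ m ih =>
      intro i hi j hj e o1 o2
      rcases le_total (h (y j)) (h (x i)) with c | c
      · cases i with
        | zero =>
          obtain ⟨j, rfl⟩ : ∃ j', j = j' + 1 := ⟨m, by omega⟩
          linarith [mono my j (by omega)]
        | succ i =>
          rw [← ih i (by omega) j hj (by omega) ((mx i (by omega)).trans o1) c]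
          exact (al_side (ax _ hi).1 (ax i (by omega)).2 (dx _ hi.le j hj c o1)).1
      · cases j with
        | zero =>
          obtain ⟨i, rfl⟩ : ∃ i', i = i' + 1 := ⟨m, by omega⟩
          linarith [mono mx i (by omega)]
        | succ j =>
          rw [← ih i hi j (by omega) (by omega) c ((my j (by omega)).trans o2)]
          exact (al_side (ay _ hj).1 (ay j (by omega)).2 (dy _ hj.le i hi c o2)).2.1
  intro i hi j hj o1 o2
  have a := key _ i hi j hj rfl o1 o2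
  exact ⟨a, by rw [tot i hi j hj o1 o2, a]⟩

end Pool.Agent.Lib.MP_0d8e88_lc.AllK
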