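import Pool.Agent.Lib.MP_0d8e88_lc.AllK.Walk

/-!
In every representation the heights are ordered as intended.
-/

namespace Pool.Agent.Lib.MP_0d8e88_lc.AllK

open Pool.Agent.Shared.PolyTime

variable {q : ℕ} {ψ : List (Clause3 ℕ)} {h lf rt τ : V → ℝ}

/-- The pins are lists of distinct core vertices of the right length. -/
def PinF (q : ℕ) (ψ : List (Clause3 ℕ)) : Prop := ∀ p ∈ pinI q ψ, (pinP q ψ p).Nodup ∧
  (pinP q ψ p).length = 2 * (q + 1 + 1) ∧ ∀ v ∈ pinP q ψ p, v ∈ coreS q ψ

/-- A good representation of the graph of `ψ`. -/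
abbrev Gd (q : ℕ) (ψ : List (Clause3 ℕ)) (h lf rt τ : V → ℝ) : Prop :=
  GoodK (q + 1) (coreS q ψ) (adjC q ψ) (pinI q ψ) (pinP q ψ) h lf rt τ

/-- The eternal bars are met upwards. -/
def Up (q : ℕ) (ψ : List (Clause3 ℕ)) (h : V → ℝ) : Prop :=
  ∀ n, n + (2 * q + 4) ≤ NE q ψ → h (.inl n) < h (.inl (n + 1))

theorem window (PF : PinF q ψ) (G : Gd q ψ h lf rt τ) {n : ℕ} (hn : n + (2 * q + 4) ≤ NE q ψ) :
    (∀ i, 1 ≤ i → i ≤ q + 2 → ∀ j, q + 3 ≤ j → j < 2 * q + 4 →
      h (.inl n) < h (.inl (n + i)) ∧ h (.inl (n + i)) < h (.inl (n + j))) ∨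
    (∀ i, 1 ≤ i → i ≤ q + 2 → ∀ j, q + 3 ≤ j → j < 2 * q + 4 →
      h (.inl (n + i)) < h (.inl n) ∧ h (.inl (n + j)) < h (.inl (n + i))) := by
  refine G.head (p := .inl n) (by omega) hn (PF (.inl n) hn).2.2 (x := fun i => .inl (n + i))
    (fun w => ?_) (fun i _ j _ e => by simpa using e) (fun j j1 _ A => ?_)
  · simp only [pinP, Sum.elim_inl, List.mem_map, List.mem_range]
    rfl
  · have := A.2.2
    omega

theorem up_of_first (PF : PinF q ψ) (G : Gd q ψ h lf rt τ)
    (h0 : h (.inl 0) < h (.inl 1)) : Up q ψ h := by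
  intro n
  induction n with
  | zero => exact fun _ => h0
  | succ n ih =>
    intro hn
    have a := ih (by omega)
    have b := (window PF G (n := n) (by omega)).resolve_right fun x =>
      lt_asymm a (x 1 le_rfl (by omega) (q + 3) le_rfl (by omega)).1
    have c := (b 1 le_rfl (by omega) (q + 3) le_rfl (by omega)).2
    refine (((window PF G hn).resolve_right fun x => lt_asymm c ?_) 1 le_rfl (by omega) (q + 3)
      le_rfl (by omega)).1
    have := (x (q + 2) (by omega) le_rfl (q + 3) le_rfl (by omega)).1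
    rwa [show n + 1 + (q + 2) = n + (q + 3) by omega] at this

theorem up_or (PF : PinF q ψ) (G : Gd q ψ h lf rt τ) :
    Up q ψ h ∨ Up q ψ (fun v => -h v) := by
  have n0 : 0 + (2 * q + 4) ≤ NE q ψ := by
    have : 2 * (3 * q + 4) ≤ NE q ψ := Nat.mul_le_mul_right _ (by omega)
    omega
  rcases window PF G n0 with x | x
  · exact Or.inl (up_of_first PF G (x 1 le_rfl (by omega) (q + 3) le_rfl (by omega)).1)
  · exact Or.inr (up_of_first PF G.flipH
      (neg_lt_neg (x 1 le_rfl (by omega) (q + 3) le_rfl (by omega)).1))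

theorem Up.mono (U : Up q ψ h) {i j : ℕ} (hij : i < j) (hj : j + (2 * q + 3) ≤ NE q ψ) :
    h (.inl i) < h (.inl j) := by
  induction j with
  | zero => omega
  | succ j ih =>
    rcases Nat.lt_succ_iff_lt_or_eq.1 hij with c | rfl
    · exact (ih c (by omega)).trans (U j (by omega))
    · exact U _ (by omega)

/-- All vertices of the symbol `x` lie below all vertices of the symbol `y`. -/
def Rl (q : ℕ) (ψ : List (Clause3 ℕ)) (h : V → ℝ) (r s x y : ℕ) : Prop :=
  ∀ u ∈ sy q ψ r s x, ∀ v ∈ sy q ψ r s y, h u < h v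

theorem mem_sy_et {r s z : ℕ} (hz : et z = true) {v : V} (hv : v ∈ sy q ψ r s z) :
    ∃ n, v = .inl n ∧ r * (3 * q + 4) + (ea z + ec z * q) ≤ n ∧
      n < r * (3 * q + 4) + (ea z + (isE z).toNat + (ec z + (isZ z).toNat) * q) := by
  unfold sy at hv
  split_ifs at hv with c d
  · obtain ⟨i, i1, rfl⟩ := List.mem_map.1 hv
    rw [List.mem_range] at i1
    refine ⟨_, rfl, Nat.le_add_right _ _, ?_⟩
    simp only [pos, c, Bool.toNat_true, Nat.add_mul]
    omega
  · refine ⟨_, List.mem_singleton.1 hv, le_rfl, ?_⟩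
    simp only [pos, d, Bool.toNat_true, Nat.add_mul]
    omega
  · simp [et, c, d] at hz

set_option synthInstance.maxSize 2000 in
theorem et_lt : ∀ x < 43, ∀ y < 43, et x = true → et y = true → x < y →
    ea x + (isE x).toNat ≤ ea y ∧ ec x + (isZ x).toNat ≤ ec y ∧ ea y + (isE y).toNat ≤ 7 ∧
      ec y + (isZ y).toNat ≤ 5 := by decide +kernel

theorem base_sound (U : Up q ψ h) {r : ℕ} (hr : r < NR ψ) (s x y : ℕ)
    (hk : known F0 x y = true) : Rl q ψ h r s x y := by
  have hx : x < 43 := by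
    by_contra c
    rw [known, List.getD_eq_default _ _ (by simpa [F0] using c)] at hk
    simp at hk
  have hy : y < 43 := by
    by_contra c
    rw [known, Nat.testBit_lt_two_pow (lt_of_lt_of_le (F0_ok x hx).1
      (Nat.pow_le_pow_right (by omega) (not_lt.1 c)))] at hk
    simp at hk
  obtain ⟨a1, a2, a3⟩ := (F0_ok x hx).2 y hy hk
  obtain ⟨b1, b2, b3, b4⟩ := et_lt x hx y hy a1 a2 a3
  intro u hu v hv
  obtain ⟨n, rfl, -, n2⟩ := mem_sy_et a1 hu
  obtain ⟨m, rfl, m1, m2⟩ := mem_sy_et a2 hv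
  have c1 := Nat.mul_le_mul_right q b2
  have c2 := Nat.mul_le_mul_right q b4
  have c3 : (r + 3) * (3 * q + 4) ≤ NE q ψ := Nat.mul_le_mul_right _ (by omega)
  rw [Nat.add_mul] at c3
  exact U.mono (by omega) (by omega)

theorem known_add1 {F : List ℕ} {p : ℕ × ℕ} {x y : ℕ} (hk : known (add1 F p) x y = true) :
    known F x y = true ∨ (x, y) = p := by
  obtain ⟨a, b⟩ := p
  simp only [known, add1, List.getD_eq_getElem?_getD, List.getElem?_set] at hk ⊢
  split_ifs at hk with c d
  · subst c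
    simp only [Option.getD_some, Nat.testBit_or, Bool.or_eq_true, Nat.testBit_two_pow,
      decide_eq_true_eq] at hk
    exact hk.imp id fun e => by rw [e]
  · simp at hk
  · exact Or.inl hk

theorem known_thru {F : List ℕ} {z x y : ℕ} (hk : known (thru F z) x y = true) :
    known F x y = true ∨ (known F x z = true ∧ known F z y = true) := by
  simp only [known, thru, List.getD_eq_getElem?_getD, List.getElem?_map] at hk ⊢
  cases e : F[x]? with
  | none => simp [e] at hk
  | some row =>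
    simp only [e, Option.map_some, Option.getD_some] at hk ⊢
    split_ifs at hk with c
    · simp only [Nat.testBit_or, Bool.or_eq_true] at hk
      exact hk.imp id fun a => ⟨c, a⟩
    · exact Or.inl hk

theorem Rl.trans {r s x z y : ℕ} (hz : ¬isZ z = true) (a : Rl q ψ h r s x z)
    (b : Rl q ψ h r s z y) : Rl q ψ h r s x y := by
  obtain ⟨w, hw⟩ := List.exists_mem_of_length_pos (l := sy q ψ r s z) (by simp [sy_len, hz])
  exact fun u hu v hv => (a u hu w hw).trans (b w hw v hv)

theorem pin_index (PF : PinF q ψ) {r s p : ℕ} (hp : Sum.inr (r, s, p) ∈ pinI q ψ) :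
    2 * q + 4 ≤ (flat q ψ r s (pin (kind ψ r s) p)).length ∧
    (∀ w, w ∈ pinP q ψ (.inr (r, s, p)) ↔
      ∃ i < 2 * q + 4, (flat q ψ r s (pin (kind ψ r s) p)).getD i (.inl 0) = w) ∧
    ∀ i < 2 * q + 4, ∀ j < 2 * q + 4, (flat q ψ r s (pin (kind ψ r s) p)).getD i (.inl 0) =
      (flat q ψ r s (pin (kind ψ r s) p)).getD j (.inl 0) → i = j := by
  obtain ⟨a1, a2, -⟩ := PF _ hp
  simp only [pinP, Sum.elim_inr] at a1 a2 ⊢
  generalize flat q ψ r s (pin (kind ψ r s) p) = F at *
  have hl : 2 * q + 4 ≤ F.length := by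
    rw [List.length_take] at a2
    omega
  refine ⟨hl, fun w => ?_, fun i hi j hj e => ?_⟩
  · rw [List.mem_take_iff_getElem]
    constructor
    · rintro ⟨i, hi, rfl⟩
      exact ⟨i, by omega, List.getD_eq_getElem _ _ _⟩
    · rintro ⟨i, hi, rfl⟩
      exact ⟨i, by omega, (List.getD_eq_getElem _ _ _).symm⟩
  · rw [List.getD_eq_getElem _ _ (by omega), List.getD_eq_getElem _ _ (by omega)] at e
    refine (List.Nodup.getElem_inj_iff a1 (hi := by omega) (hj := by omega)).1 ?_
    simpa only [List.getElem_take] using e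

theorem pin_core (PF : PinF q ψ) (G : Gd q ψ h lf rt τ) {r s p : ℕ}
    (hp : Sum.inr (r, s, p) ∈ pinI q ψ) {up : Bool} {j : ℕ} {L : List ℕ}
    (hP : pin (kind ψ r s) p = (up, j :: L)) (hj : isC j = true)
    (ht : ∀ w ∈ walk L 1 0 0, tight (kind ψ r s) up j w = true) {K : ℕ → ℕ → Bool}
    (hK : ∀ x y, K x y = true → Rl q ψ h r s x y)
    (ho : ∃ y ∈ walk L 1 0 0, isZ y.1 = false ∧ ((incl y = true ∧ K j y.1 = true) ∨
      (inB y = true ∧ ∀ w ∈ walk L 1 0 0, (inB w = true ∨ outs w = true) ∨ K y.1 w.1 = true))) :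
    ∀ x ∈ concl j (walk L 1 0 0), Rl q ψ h r s x.1 x.2 := by
  obtain ⟨i1, i2, i3⟩ := pin_index PF hp
  have ej := isC_etB j (isC_lt hj) hj
  have e0 : syd q ψ r s up j = [cv ψ r s j] := by
    unfold syd
    split_ifs <;> simp [sy_cv ej]
  rw [hP, flat_eq] at i1 i2 i3
  simp only [List.flatMap_cons, e0] at i1 i2 i3
  set x : ℕ → V := fun i => ([cv ψ r s j] ++ L.flatMap (syd q ψ r s up)).getD i (.inl 0) with hx
  have x0 : x 0 = cv ψ r s j := rfl
  have wg := walk_get (syd_len (q := q) (ψ := ψ) r s up) L 1 0 0 [cv ψ r s j] (by simp)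
  have wc := walk_cover (syd_len (q := q) (ψ := ψ) r s up) L 1 0 0
  have el : ∀ w ∈ walk L 1 0 0, ∀ v ∈ sy q ψ r s w.1, ∃ i, (i < if isZ w.1 then q else 1) ∧
      x (w.2.1 + w.2.2.1 * q + i) = v := by
    intro w hw v hv
    obtain ⟨i, hi, rfl⟩ := List.getElem_of_mem (mem_syd (up := up).2 hv)
    refine ⟨i, syd_len (q := q) (ψ := ψ) r s up w.1 ▸ hi, ?_⟩
    simp only [hx, List.getD_eq_getElem?_getD, wg w hw i hi, List.getElem?_eq_getElem hi,
      Option.getD_some]
  have cov : ∀ n, 1 ≤ n → n < 2 * q + 4 → ∃ w ∈ walk L 1 0 0, ∃ i,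
      (i < if isZ w.1 then q else 1) ∧ n = w.2.1 + w.2.2.1 * q + i ∧
      (syd q ψ r s up w.1)[i]? = some (x n) := by
    intro n n1 n2
    rw [List.length_append, List.length_singleton] at i1
    obtain ⟨w, w1, i, hi, rfl⟩ := wc n (by omega) (by omega)
    refine ⟨w, w1, i, syd_len (q := q) (ψ := ψ) r s up w.1 ▸ hi, rfl, ?_⟩
    simp only [hx, List.getD_eq_getElem?_getD, wg w w1 i hi, List.getElem?_eq_getElem hi,
      Option.getD_some]
  have hd := G.head (by omega) hp (PF _ hp).2.2 (x := x) i2 i3 (fun n n1 n2 => by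
    obtain ⟨w, w1, i, -, rfl, e⟩ := cov n (by omega) n2
    exact tight_sound hj (ht w w1) e n1 n2)
  have ge := walk_ge L 1 0 0
  have U : ∀ i, 1 ≤ i → i ≤ q + 1 + 1 → ∀ j, q + 1 + 2 ≤ j → j < 2 * (q + 1) + 2 →
      h (x 0) < h (x i) ∧ h (x i) < h (x j) := by
    refine hd.resolve_right fun D => ?_
    obtain ⟨y, y1, y2, y3⟩ := ho
    obtain ⟨v, hv⟩ := List.exists_mem_of_length_pos (l := sy q ψ r s y.1) (by simp [sy_len, y2])
    obtain ⟨i, hi, e⟩ := el y y1 v hv
    have := ge y y1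
    rcases y3 with ⟨y3, y4⟩ | ⟨y3, y4⟩
    · have a := hK _ _ y4 (x 0) (by simp [x0, sy_cv ej]) v hv
      have b := incl_lt y3 hi
      rw [← e] at a
      rcases le_or_gt (y.2.1 + y.2.2.1 * q + i) (q + 2) with c | c
      · exact lt_asymm a (D _ (by omega) c (q + 3) le_rfl (by omega)).1
      · exact lt_asymm a ((D 1 le_rfl (by omega) _ c b).2.trans (D 1 le_rfl (by omega) _ c b).1)
    · obtain ⟨w, w1, i', hi', e1, e2⟩ := cov (q + 3) (by omega) (by omega)
      rcases y4 w w1 with (c | c) | c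
      · have := inB_le c hi'
        omega
      · have := outs_ge (q := q) c
        omega
      · have a := hK _ _ c v hv _ (mem_syd.1 (List.mem_of_getElem? e2))
        rw [← e] at a
        exact lt_asymm a (D _ (by omega) (inB_le y3 hi) (q + 3) le_rfl (by omega)).2
  intro z hz
  simp only [concl, List.mem_append, List.mem_map, List.mem_filter, List.mem_flatMap] at hz
  rcases hz with ⟨w, ⟨w1, w2⟩, rfl⟩ | ⟨y, ⟨y1, y2⟩, w, ⟨w1, w2⟩, rfl⟩
  · intro u hu v hv
    obtain ⟨i, hi, rfl⟩ := el w w1 v hv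
    rw [sy_cv ej, List.mem_singleton] at hu
    rw [hu, ← x0]
    have b := incl_lt w2 hi
    have := ge w w1
    rcases le_or_gt (w.2.1 + w.2.2.1 * q + i) (q + 2) with c | c
    · exact (U _ (by omega) c (q + 3) le_rfl (by omega)).1
    · exact (U 1 le_rfl (by omega) _ c b).1.trans (U 1 le_rfl (by omega) _ c b).2
  · intro u hu v hv
    obtain ⟨i, hi, rfl⟩ := el y y1 u hu
    obtain ⟨i', hi', rfl⟩ := el w w1 v hv
    have := ge y y1
    have a := inP_ge (q := q) w2
    exact (U _ (by omega) (inB_le y2 hi) _ (by omega) (incl_lt a.2 hi')).2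

theorem Rl_neg {r s x y : ℕ} : Rl q ψ (fun v => -h v) r s x y ↔ Rl q ψ h r s y x := by
  simp only [Rl, neg_lt_neg_iff]
  exact ⟨fun a u hu v hv => a v hv u hu, fun a u hu v hv => a v hv u hu⟩

theorem mem_pinI {r s p : ℕ} (hr : r < NR ψ) (hs : s < NS ψ) (hp : (pin (kind ψ r s) p).2 ≠ []) :
    Sum.inr (r, s, p) ∈ pinI q ψ := by
  refine ⟨hr, hs, ?_⟩
  by_contra c
  rw [pin, List.getD_eq_default _ _ (not_lt.1 c)] at hp
  exact hp rfl

theorem step_sound (PF : PinF q ψ) (G : Gd q ψ h lf rt τ) {r s : ℕ} (hr : r < NR ψ)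
    (hs : s < NS ψ) {F : List ℕ} (hF : ∀ x y, known F x y = true → Rl q ψ h r s x y) (i : ℕ) :
    ∀ x y, known (step (kind ψ r s) F i) x y = true → Rl q ψ h r s x y := by
  unfold step
  by_cases c : i < 100
  · rw [if_pos c]
    split_ifs with d
    · exact hF
    intro x y hk
    rcases known_thru hk with a | a
    · exact hF _ _ a
    · exact (hF _ _ a.1).trans d (hF _ _ a.2)
  · rw [if_neg c]
    rcases hP : pin (kind ψ r s) (i - 100) with ⟨up, _ | ⟨j, L⟩⟩
    · exact hF
    · rw [usePin]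
      have hp : Sum.inr (r, s, i - 100) ∈ pinI q ψ := mem_pinI hr hs (by simp [hP])
      by_cases t : (isC j && (walk L 1 0 0).all (tight (kind ψ r s) up j) &&
        orient F up j (walk L 1 0 0)) = true
      swap
      · rw [if_neg t]
        exact hF
      rw [if_pos t]
      simp only [Bool.and_eq_true, List.all_eq_true, orient, List.any_eq_true, Bool.or_eq_true,
        Bool.not_eq_true'] at t
      obtain ⟨⟨t1, t2⟩, t3⟩ := t
      have a : ∀ z ∈ concl j (walk L 1 0 0), Rl q ψ h r s (if up then z else z.swap).1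
          (if up then z else z.swap).2 := by
        cases up
        · intro z hz
          exact Rl_neg.1 (pin_core PF G.flipH hp hP t1 t2 (K := dir false (known F))
            (fun x y k => Rl_neg.2 (hF _ _ k)) t3 z hz)
        · exact pin_core PF G hp hP t1 t2 (K := dir true (known F)) hF t3
      generalize concl j (walk L 1 0 0) = C at a
      clear t3
      induction C generalizing F with
      | nil => exact hF
      | cons z C ih =>
        refine ih (fun x y hk => ?_) (fun z hz => a z (List.mem_cons_of_mem _ hz))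
        rcases known_add1 hk with b | b
        · exact hF _ _ b
        · have := a z List.mem_cons_self
          rwa [← b] at this

/-- The order facts of the tables hold. -/
theorem lt_sound (PF : PinF q ψ) (G : Gd q ψ h lf rt τ) (U : Up q ψ h) {r s : ℕ} (hr : r < NR ψ)
    (hs : s < NS ψ) {x y : ℕ} (hk : lt (kind ψ r s) x y = true) : Rl q ψ h r s x y := by
  rw [lt, ← steps_ok _ (kind_lt r s)] at hk
  have b := base_sound U hr s
  generalize F0 = F at hk b
  generalize scripts.getD (kind ψ r s) [] = D at hk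
  induction D generalizing F with
  | nil => exact b _ _ hk
  | cons i D ih =>
    rw [steps, forceL_eq] at hk
    exact ih _ (step_sound PF G hr hs b i) hk

end Pool.Agent.Lib.MP_0d8e88_lc.AllK
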