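import Pool.Agent.Lib.MP_0d8e88_lc.AllK.Time
import Pool.Agent.Lib.MP_0d8e88_lc.AllK.Chk3

/-!
Every pin is realised by the discrete representation attached to admissible states.
-/

namespace Pool.Agent.Lib.MP_0d8e88_lc.AllK

open Pool.Agent.Shared.PolyTime

variable {q : ℕ} {ψ : List (Clause3 ℕ)} {fs : ℕ → ℕ} {st : ℕ → ℕ → ℕ}

theorem pinK_take {C : Type} {k n : ℕ} {S : Set C} {H b d : C → ℕ} {L : List C}
    (hp : L.Pairwise (fun x y => H x < H y) ∨ L.Pairwise (fun x y => H y < H x))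
    (hl : 2 * (k + 1) ≤ L.length) (hm : ∀ v ∈ L, v ∈ S ∧ DAl b d v n)
    (hc : ∀ w ∈ S, DAl b d w n → ∀ x ∈ L, ∀ y ∈ L, H x < H w → H w < H y → w ∈ L) :
    PinK k S H b d (L.take (2 * (k + 1))) n := by
  have nd : L.Nodup := by
    rcases hp with h | h
    · exact h.imp fun {x y} a e => by rw [e] at a; exact lt_irrefl _ a
    · exact h.imp fun {x y} a e => by rw [e] at a; exact lt_irrefl _ a
  refine ⟨nd.sublist (List.take_sublist _ _), by rw [List.length_take]; omega,
    fun v hv => hm v (List.mem_of_mem_take hv), fun w hw ha x hx y hy h1 h2 => ?_⟩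
  have hw' := hc w hw ha x (List.mem_of_mem_take hx) y (List.mem_of_mem_take hy) h1 h2
  rw [← List.take_append_drop (2 * (k + 1)) L, List.mem_append] at hw'
  refine hw'.resolve_right fun c => ?_
  rw [← List.take_append_drop (2 * (k + 1)) L, List.pairwise_append, List.pairwise_append] at hp
  rcases hp with h | h
  · have := h.2.2 y hy w c
    omega
  · have := h.2.2 x hx w c
    omega

/-- Number of eternal bars of the row below a symbol or in it. -/
def top (q x : ℕ) : ℕ := ea x + (isE x).toNat + (ec x + (isZ x).toNat) * q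

theorem sym_cases : ∀ x < 43, et x = true ∨ (et x = false ∧ isE x = false ∧ isZ x = false ∧
    ((x = 2 ∨ x = 3) ∨ (x = 39 ∨ x = 40) ∨ isC x = true)) := by decide

theorem sym_bound : ∀ x < 43, 1 ≤ ea x ∧ ea x + (isE x).toNat ≤ 7 ∧ ec x + (isZ x).toNat ≤ 5 := by
  decide

theorem isC_et {x : ℕ} (h : isC x = true) : et x = false := by
  have := isC_iff.1 h
  simp only [et, isZ, isE, Bool.or_eq_false_iff, beq_eq_false_iff_ne]
  omega

theorem pos_C {x : ℕ} (h : isC x = true) :
    (x < 15 ∧ pos q x = 4 + 2 * q) ∨ (15 < x ∧ pos q x = 4 + 3 * q) := by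
  have key : ∀ x < 43, isC x = true →
      (x < 15 ∧ ea x = 4 ∧ ec x = 2) ∨ (15 < x ∧ ea x = 4 ∧ ec x = 3) := by decide
  have := isC_iff.1 h
  unfold pos
  rcases key x (by omega) h with ⟨a, b, c⟩ | ⟨a, b, c⟩
  · exact Or.inl ⟨a, by rw [b, c]⟩
  · exact Or.inr ⟨a, by rw [b, c]⟩

theorem pos_om {x : ℕ} (h : x = 2 ∨ x = 3) : pos q x = 2 + q := by
  rcases h with rfl | rfl <;> simp [pos, ea, ec]

theorem lev_lt {σ x : ℕ} (h : x < 43) : lev σ x < 64 := by
  unfold lev
  split_ifs <;> omega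

theorem lev_own (r s x : ℕ) : lev (st r (own x s)) x = lev (st r s) x := by
  unfold own
  split_ifs with h
  · have := isL_iff.1 h
    have n : x ≠ 22 := by omega
    simp [lev, n]
  · rfl

theorem cv_C {r s x : ℕ} (h : isC x = true) : cv ψ r s x = .inr (r, own x s, x) := by
  have := isC_iff.1 h
  unfold cv
  rw [if_neg (by omega), if_neg (by omega)]

theorem HH_inl (n : ℕ) : HH q st (.inl n) = 128 * n + 64 := by
  simp only [HH, gv, Sum.elim_inl]
  omega

theorem HH_inr (r o j : ℕ) :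
    HH q st (.inr (r, o, j)) = 128 * (r * (3 * q + 4) + pos q j) + lev (st r o) j := by
  simp only [HH, gv, Sum.elim_inr]
  omega

theorem sy_et {r s x : ℕ} (hx : et x = true) {u : V} : u ∈ sy q ψ r s x ↔
    ∃ n, u = .inl n ∧ r * (3 * q + 4) + pos q x ≤ n ∧ n < r * (3 * q + 4) + top q x := by
  unfold sy top pos
  by_cases hz : isZ x = true
  · have he : isE x = false := by
      simp only [isZ, isE, Bool.or_eq_true, beq_iff_eq, Bool.or_eq_false_iff,
        beq_eq_false_iff_ne] at hz ⊢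
      omega
    simp only [hz, he, if_true, List.mem_map, List.mem_range, Bool.toNat_true, Bool.toNat_false,
      add_mul, one_mul]
    constructor
    · rintro ⟨i, hi, rfl⟩
      exact ⟨_, rfl, by omega, by omega⟩
    · rintro ⟨n, rfl, h1, h2⟩
      exact ⟨n - (r * (3 * q + 4) + (ea x + ec x * q)), by omega, by congr 1; omega⟩
  · have he : isE x = true := by simpa [et, hz] using hx
    have hz' : isZ x = false := by simpa using hz
    simp only [hz', he, if_true, Bool.false_eq_true, if_false, List.mem_singleton, Bool.toNat_true,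
      Bool.toNat_false, add_zero]
    constructor
    · rintro rfl
      exact ⟨_, rfl, by omega, by omega⟩
    · rintro ⟨n, rfl, h1, h2⟩
      congr 1
      omega

theorem sy_ne {r s x : ℕ} (hx : et x = false) : sy q ψ r s x = [cv ψ r s x] := by
  have h : isZ x = false ∧ isE x = false := by simpa [et] using hx
  simp [sy, h.1, h.2]

theorem HH_cv {r s x : ℕ} (h43 : x < 43) (hx : et x = false) :
    ∃ l < 64, HH q st (cv ψ r s x) = 128 * (r * (3 * q + 4) + pos q x) + l ∧
      (isC x = true → l = lev (st r s) x) := by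
  rcases sym_cases x h43 with c | ⟨-, -, -, c | c | c⟩
  · rw [hx] at c
    exact absurd c (by simp)
  · have e : (2 + (x + flp ψ r s) % 2 = 2 ∨ 2 + (x + flp ψ r s) % 2 = 3) := by omega
    refine ⟨_, lev_lt (x := 2 + (x + flp ψ r s) % 2) (σ := st r s) (by omega), ?_, fun a => ?_⟩
    · rw [cv, if_pos c, HH_inr, pos_om e, pos_om c]
    · have := isC_iff.1 a
      omega
  · have e : (2 + (x + 1 + flp ψ r s) % 2 = 2 ∨ 2 + (x + 1 + flp ψ r s) % 2 = 3) := by omega
    refine ⟨_, lev_lt (x := 2 + (x + 1 + flp ψ r s) % 2) (σ := st (r + 1) s) (by omega), ?_,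
      fun a => ?_⟩
    · have e2 : pos q x = 6 + 4 * q := by rcases c with rfl | rfl <;> simp [pos, ea, ec]
      rw [cv, if_neg (by omega), if_pos c, HH_inr, pos_om e, e2, add_mul r 1]
      omega
    · have := isC_iff.1 a
      omega
  · exact ⟨_, lev_lt h43, by rw [cv_C c, HH_inr, lev_own], fun _ => rfl⟩

theorem bel_sound {r s x y : ℕ} (hx : x < 43) (hy : y < 43) (h : bel (st r s) x y = true)
    {u v : V} (hu : u ∈ sy q ψ r s x) (hv : v ∈ sy q ψ r s y) : HH q st u < HH q st v := by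
  simp only [bel, Bool.and_eq_true, Bool.or_eq_true, Nat.ble_eq, Nat.blt_eq] at h
  obtain ⟨⟨h1, h2⟩, h3⟩ := h
  have h4 := Nat.mul_le_mul_right q h2
  have lo : 128 * (r * (3 * q + 4) + pos q y) ≤ HH q st v := by
    cases e : et y
    · rw [sy_ne e, List.mem_singleton] at hv
      obtain ⟨l, -, a, -⟩ := HH_cv (q := q) (ψ := ψ) (st := st) (r := r) (s := s) hy e
      rw [hv]
      omega
    · obtain ⟨n, rfl, a, -⟩ := (sy_et e).1 hv
      rw [HH_inl]
      omega
  rcases sym_cases x hx with c | ⟨c, c1, c2, -⟩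
  · obtain ⟨n, rfl, -, a⟩ := (sy_et c).1 hu
    rw [HH_inl]
    unfold top at a
    unfold pos at lo
    omega
  · rw [sy_ne c, List.mem_singleton] at hu
    obtain ⟨l, l1, a, l2⟩ := HH_cv (q := q) (ψ := ψ) (st := st) (r := r) (s := s) hx c
    rw [hu, a]
    simp only [c1, c2, Bool.toNat_false, add_zero] at h1 h2 h4
    cases e : et y
    · rw [sy_ne e, List.mem_singleton] at hv
      obtain ⟨l', -, a', l3⟩ := HH_cv (q := q) (ψ := ψ) (st := st) (r := r) (s := s) hy e
      rw [hv, a']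
      rw [c, e] at h3
      unfold pos
      rcases h3 with ((d | d) | d) | ⟨⟨d1, d2⟩, d3⟩
      · exact absurd d (by simp)
      · exact absurd d (by simp)
      · omega
      · have := l2 d1
        have := l3 d2
        omega
    · obtain ⟨n, rfl, a', -⟩ := (sy_et e).1 hv
      rw [HH_inl]
      unfold pos at *
      omega

theorem sy_window {r s x : ℕ} (hx : x < 43) {u : V} (hu : u ∈ sy q ψ r s x) :
    128 * (r * (3 * q + 4) + 1) ≤ HH q st u ∧ HH q st u < 128 * (r * (3 * q + 4) + 5 * q + 7) := by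
  obtain ⟨b1, b2, b3⟩ := sym_bound x hx
  have b4 := Nat.mul_le_mul_right q b3
  rcases sym_cases x hx with c | ⟨c, c1, c2, c3⟩
  · obtain ⟨n, rfl, a1, a2⟩ := (sy_et c).1 hu
    rw [HH_inl]
    unfold top at a2
    unfold pos at a1
    omega
  · rw [sy_ne c, List.mem_singleton] at hu
    obtain ⟨l, l1, a, -⟩ := HH_cv (q := q) (ψ := ψ) (st := st) (r := r) (s := s) hx c
    rw [hu, a]
    rcases c3 with d | d | d
    · rw [pos_om d]
      omega
    · have e2 : pos q x = 6 + 4 * q := by rcases d with rfl | rfl <;> simp [pos, ea, ec]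
      omega
    · have := pos_C (q := q) d
      omega

theorem om_alive (hst : StOK ψ fs st) (r r' o : ℕ) {s m ρ : ℕ} (hρ : ρ < 2) (hm : m < 64) :
    ((bc ψ fs st (r', o, 2 + (ρ + flp ψ r s) % 2) ≤ 1 + 64 * s + m ∧
      1 + 64 * s + m < dc ψ fs st (r', o, 2 + (ρ + flp ψ r s) % 2)) ↔
      o = s ∧ al (ct ψ st r s) m (2 + ρ) = true) ∧
    (al (ct ψ st r s) m (39 + ρ) = true ↔ al (ct ψ st r s) m (2 + ρ) = true) := by
  obtain ⟨e1, e2⟩ := bc_om (ψ := ψ) (fs := fs) (st := st) (r := r') (o := o)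
    (j := 2 + (ρ + flp ψ r s) % 2) (by omega)
  obtain ⟨⟨a1, a2⟩, a3, a4⟩ := om_ok _ (kind_lt r s) _ (hst.2 r s).1 ρ hρ
  have f1 := hst.1 s
  have f2 := (hst.2 r s).2
  have f3 := flp_lt (ψ := ψ) r s
  rw [e1, e2, al_iff, al_iff]
  unfold ct
  rw [a1, a2, a3, a4]
  refine ⟨⟨fun x => ?_, ?_⟩, Iff.rfl⟩
  · obtain rfl : o = s := by split_ifs at x <;> omega
    refine ⟨rfl, ?_⟩
    split_ifs at x ⊢ <;> omega
  · rintro ⟨rfl, x⟩
    split_ifs at x ⊢ <;> omega

theorem mem_aW {t m z : ℕ} : z ∈ aW t m ↔ z < 43 ∧ (et z = true ∨ al t m z = true) := by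
  simp [aW]

theorem mem_aC {t m z : ℕ} : z ∈ aC t m ↔ isC z = true ∧ al t m z = true := by
  simp only [aC, List.mem_filter, List.mem_range, Bool.and_eq_true, and_iff_right_iff_imp]
  intro h
  have := isC_iff.1 h.1
  omega

theorem row_le {r r' : ℕ} (h : r < r') : r * (3 * q + 4) + (3 * q + 4) ≤ r' * (3 * q + 4) := by
  have := Nat.mul_le_mul_right (3 * q + 4) (Nat.succ_le_of_lt h)
  rwa [Nat.succ_mul] at this

theorem NE_ge {r : ℕ} (h : r ≤ NR ψ) : r * (3 * q + 4) + 2 * (3 * q + 4) ≤ NE q ψ := by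
  have := Nat.mul_le_mul_right (3 * q + 4) h
  unfold NE
  rw [add_mul]
  omega

theorem sy_alive (hS : Sorted ψ) (hst : StOK ψ fs st) {r s m z : ℕ} (hr : r < NR ψ)
    (hs : s < NS ψ) (hm : m < 64) (hz : z ∈ aW (ct ψ st r s) m) {u : V} (hu : u ∈ sy q ψ r s z) :
    u ∈ coreS q ψ ∧ DAl (bt q ψ fs st) (dt q ψ fs st) u (sync q ψ (1 + 64 * s + m)) := by
  obtain ⟨z43, hz⟩ := mem_aW.1 hz
  rcases sym_cases z z43 with c | ⟨c, -, -, c3⟩
  · have w := sy_window (st := st) z43 hu
    obtain ⟨n, rfl, -, -⟩ := (sy_et c).1 hu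
    rw [HH_inl] at w
    have := NE_ge (q := q) hr.le
    have hn : n < NE q ψ := by omega
    exact ⟨core_inl.2 hn, dal_sync_inl hn (by omega)⟩
  · rw [sy_ne c, List.mem_singleton] at hu
    have ha : al (ct ψ st r s) m z = true := hz.resolve_left (by simp [c])
    subst hu
    rcases c3 with d | d | d
    · obtain ⟨ρ, rfl⟩ : ∃ ρ, z = 2 + ρ := ⟨z - 2, by omega⟩
      have e : (2 + ρ + flp ψ r s) % 2 = (ρ + flp ψ r s) % 2 := by omega
      rw [cv, if_pos d, e]
      have hc : (Sum.inr (r, s, 2 + (ρ + flp ψ r s) % 2) : V) ∈ coreS q ψ :=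
        (core_om (by omega)).2 ⟨hr.le, hs⟩
      exact ⟨hc, (dal_sync hS hst hc).2 ((om_alive hst r r s (by omega) hm).1.2 ⟨rfl, ha⟩)⟩
    · obtain ⟨ρ, rfl⟩ : ∃ ρ, z = 39 + ρ := ⟨z - 39, by omega⟩
      have e : (39 + ρ + 1 + flp ψ r s) % 2 = (ρ + flp ψ r s) % 2 := by omega
      rw [cv, if_neg (by omega), if_pos d, e]
      have hc : (Sum.inr (r + 1, s, 2 + (ρ + flp ψ r s) % 2) : V) ∈ coreS q ψ :=
        (core_om (by omega)).2 ⟨hr, hs⟩
      have o := om_alive hst r (r + 1) s (s := s) (ρ := ρ) (by omega) hm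
      exact ⟨hc, (dal_sync hS hst hc).2 (o.1.2 ⟨rfl, o.2.1 ha⟩)⟩
    · rw [cv_C d]
      have hc := core_cv (q := q) hst d hr hs (by have := al_iff.1 ha; omega)
      exact ⟨hc, (dal_sync hS hst hc).2 ((calive hS hst hc d hs hm).2 ⟨rfl, ha⟩)⟩

theorem locate_inl {r s n : ℕ} (h1 : r * (3 * q + 4) + 1 ≤ n)
    (h2 : n < r * (3 * q + 4) + 5 * q + 7) :
    ∃ z < 43, et z = true ∧ (.inl n : V) ∈ sy q ψ r s z := by
  have key : ∀ z < 43, et z = true → r * (3 * q + 4) + pos q z ≤ n →
      n < r * (3 * q + 4) + top q z → ∃ z < 43, et z = true ∧ (.inl n : V) ∈ sy q ψ r s z :=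
    fun z a b c d => ⟨z, a, b, (sy_et b).2 ⟨n, rfl, c, d⟩⟩
  have k0 := key 0 (by omega) rfl
  have k1 := key 1 (by omega) rfl
  have k4 := key 4 (by omega) rfl
  have k5 := key 5 (by omega) rfl
  have k6 := key 6 (by omega) rfl
  have k15 := key 15 (by omega) rfl
  have k36 := key 36 (by omega) rfl
  have k37 := key 37 (by omega) rfl
  have k38 := key 38 (by omega) rfl
  have k41 := key 41 (by omega) rfl
  have k42 := key 42 (by omega) rfl
  by_contra c
  simp only [c, imp_false, not_lt] at k0 k1 k4 k5 k6 k15 k36 k37 k38 k41 k42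
  simp [pos, top, ea, ec, isE, isZ] at k0 k1 k4 k5 k6 k15 k36 k37 k38 k41 k42
  omega

theorem locate (hS : Sorted ψ) (hst : StOK ψ fs st) {r s m : ℕ} (hs : s < NS ψ) (hm : m < 64)
    {w : V} (hw : w ∈ coreS q ψ)
    (ha : DAl (bt q ψ fs st) (dt q ψ fs st) w (sync q ψ (1 + 64 * s + m)))
    (h1 : 128 * (r * (3 * q + 4) + 1) ≤ HH q st w)
    (h2 : HH q st w < 128 * (r * (3 * q + 4) + 5 * q + 7)) :
    ∃ z ∈ aW (ct ψ st r s) m, w ∈ sy q ψ r s z := by
  obtain n | ⟨r', o, j⟩ := w
  · rw [HH_inl] at h1 h2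
    obtain ⟨z, z1, z2, z3⟩ := locate_inl (q := q) (ψ := ψ) (r := r) (s := s) (n := n) (by omega)
      (by omega)
    exact ⟨z, mem_aW.2 ⟨z1, Or.inl z2⟩, z3⟩
  · rw [dal_sync hS hst hw] at ha
    rw [HH_inr] at h1 h2
    have r1 := row_le (q := q) (r := r') (r' := r)
    have r2 := row_le (q := q) (r := r) (r' := r')
    have r3 := row_le (q := q) (r := r + 1) (r' := r')
    rw [add_mul r 1] at r3
    rcases core_cases hw with ⟨hj, -, -⟩ | ⟨hc, -⟩
    · have l := lev_lt (σ := st r' o) (x := j) (by omega)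
      rw [pos_om hj] at h1 h2
      have f := flp_lt (ψ := ψ) r s
      obtain ⟨ρ, hρ, rfl⟩ : ∃ ρ < 2, j = 2 + (ρ + flp ψ r s) % 2 :=
        ⟨(j + flp ψ r s) % 2, by omega, by omega⟩
      have o1 := om_alive hst r r' o (s := s) hρ hm
      obtain ⟨rfl, a⟩ := o1.1.1 ha
      obtain rfl | rfl : r' = r ∨ r' = r + 1 := by omega
      · refine ⟨2 + ρ, mem_aW.2 ⟨by omega, Or.inr a⟩, ?_⟩
        have e : et (2 + ρ) = false := by interval_cases ρ <;> rfl
        rw [sy_ne e, List.mem_singleton, cv, if_pos (by omega)]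
        congr 4
        omega
      · refine ⟨39 + ρ, mem_aW.2 ⟨by omega, Or.inr (o1.2.2 a)⟩, ?_⟩
        have e : et (39 + ρ) = false := by interval_cases ρ <;> rfl
        rw [sy_ne e, List.mem_singleton, cv, if_neg (by omega), if_pos (by omega)]
        congr 4
        omega
    · have j1 := isC_iff.1 hc
      have l := lev_lt (σ := st r' o) (x := j) (by omega)
      have p := pos_C (q := q) hc
      obtain rfl : r' = r := by omega
      obtain ⟨rfl, a⟩ := (calive hS hst hw hc hs hm).1 ha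
      exact ⟨j, mem_aW.2 ⟨by omega, Or.inr a⟩, by rw [sy_ne (isC_et hc), cv_C hc]; simp⟩

theorem sy_pairwise (r s x : ℕ) :
    (sy q ψ r s x).Pairwise fun u v => HH q st u < HH q st v := by
  unfold sy
  split_ifs
  · rw [List.pairwise_map]
    refine List.pairwise_lt_range.imp fun {a b} h => ?_
    rw [HH_inl, HH_inl]
    omega
  · simp
  · simp

theorem flat_length (r s : ℕ) (up : Bool) (L : List ℕ) : (flat q ψ r s (up, L)).length =
    L.countP (fun j => !isZ j) + L.countP isZ * q := by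
  unfold flat
  dsimp only
  induction L with
  | nil => simp
  | cons a L ih =>
    have e : (if up = true then sy q ψ r s a else (sy q ψ r s a).reverse).length =
        if isZ a then q else 1 := by
      unfold sy
      split_ifs <;> simp
    rw [List.flatMap_cons, List.length_append, ih, e, List.countP_cons, List.countP_cons]
    cases isZ a
    · simp
      omega
    · simp [add_mul]
      omega

theorem mem_flat {r s : ℕ} {P : Bool × List ℕ} {u : V} :
    u ∈ flat q ψ r s P ↔ ∃ x ∈ P.2, u ∈ sy q ψ r s x := by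
  unfold flat
  cases P.1 <;> simp

theorem pin_real (hS : Sorted ψ) (hst : StOK ψ fs st) : ∀ p ∈ pinI q ψ, ∃ n,
    PinK (q + 1) (coreS q ψ) (HH q st) (bt q ψ fs st) (dt q ψ fs st) (pinP q ψ p) n := by
  rintro (n | ⟨r, s, i⟩) hp
  · have hn : n + (2 * q + 4) ≤ NE q ψ := hp
    refine ⟨NE q ψ - 1, ?_, ?_, ?_, ?_⟩
    · refine List.Nodup.map (fun a b e => ?_) List.nodup_range
      simpa using e
    · simp only [pinP, Sum.elim_inl, List.length_map, List.length_range]
      omega
    · intro v hv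
      simp only [pinP, Sum.elim_inl, List.mem_map, List.mem_range] at hv
      obtain ⟨i, hi, rfl⟩ := hv
      exact ⟨core_inl.2 (by omega), dal_inl.2 (by omega)⟩
    · intro w hw ha x hx y hy h1 h2
      simp only [pinP, Sum.elim_inl, List.mem_map, List.mem_range] at hx hy ⊢
      obtain ⟨i, hi, rfl⟩ := hx
      obtain ⟨i', hi', rfl⟩ := hy
      obtain m | w := w
      · rw [HH_inl, HH_inl] at h1 h2
        exact ⟨m - n, by omega, by congr 1; omega⟩
      · have := dal_range hS hst hw ha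
        omega
  · obtain ⟨hr, hs, hi⟩ : r < NR ψ ∧ s < NS ψ ∧ i < (pins (kind ψ r s)).length := hp
    have hP : pin (kind ψ r s) i ∈ pins (kind ψ r s) := by
      rw [pin, List.getD_eq_getElem _ _ hi]
      exact List.getElem_mem hi
    have ok := pin_ok _ (kind_lt r s) _ (hst.2 r s).1
    rw [chkPin, force_eq, forceLL_eq, List.all_eq_true] at ok
    obtain ⟨W, hW, hB⟩ := List.any_eq_true.1 (ok _ hP)
    obtain ⟨m, hm, rfl⟩ := List.mem_map.1 hW
    rw [List.mem_range] at hm
    obtain ⟨f1, f2⟩ := (full_ok _ (kind_lt r s)).2.2 _ hP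
    refine ⟨sync q ψ (1 + 64 * s + m), ?_⟩
    change PinK (q + 1) _ _ _ _ ((flat q ψ r s (pin (kind ψ r s) i)).take (2 * (q + 1 + 1))) _
    generalize pin (kind ψ r s) i = P at hB f1 f2
    obtain ⟨up, L⟩ := P
    simp only [pinB, Bool.and_eq_true, List.all_eq_true, List.contains_iff_mem, decide_eq_true_eq,
      Bool.or_eq_true] at hB
    obtain ⟨⟨b1, b2⟩, b3⟩ := hB
    have b4 : ∀ x ∈ L, x < 43 := fun x hx => (mem_aW.1 (b1 x hx)).1
    refine pinK_take ?_ ?_ (fun v hv => ?_) fun w hw ha x hx y hy h1 h2 => ?_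
    · cases up
      · right
        simp only [flat, Bool.false_eq_true, if_false, List.pairwise_flatMap, List.pairwise_reverse,
          List.mem_reverse]
        refine ⟨fun a _ => sy_pairwise r s a, b2.imp_of_mem fun {a b} ha hb h u hu v hv => ?_⟩
        exact bel_sound (b4 b hb) (b4 a ha) h hv hu
      · left
        simp only [flat, if_true, List.pairwise_flatMap]
        refine ⟨fun a _ => sy_pairwise r s a, b2.imp_of_mem fun {a b} ha hb h u hu v hv => ?_⟩
        exact bel_sound (b4 a ha) (b4 b hb) h hu hv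
    · rw [flat_length]
      have := Nat.mul_le_mul_right q f2
      dsimp only at f1 this
      omega
    · obtain ⟨x, hx, hv⟩ := mem_flat.1 hv
      exact sy_alive hS hst hr hs hm (b1 x hx) hv
    · obtain ⟨a, a1, a2⟩ := mem_flat.1 hx
      obtain ⟨b, c1, c2⟩ := mem_flat.1 hy
      have w1 := sy_window (st := st) (b4 a a1) a2
      have w2 := sy_window (st := st) (b4 b c1) c2
      obtain ⟨z, z1, z2⟩ := locate (r := r) hS hst hs hm hw ha (by omega) (by omega)
      have z3 := (mem_aW.1 z1).1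
      rcases b3 z z1 with (d | d) | d
      · exact mem_flat.2 ⟨z, d, z2⟩
      · have := bel_sound z3 (b4 a a1) (d a a1) z2 a2
        omega
      · have := bel_sound (b4 b c1) z3 (d b c1) c2 z2
        omega

end Pool.Agent.Lib.MP_0d8e88_lc.AllK
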