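import Pool.Agent.Lib.MP_0d8e88_lc.AllK.Cons
import Pool.Agent.Lib.MP_0d8e88_lc.InNP
import Pool.Agent.Shared.PolyTime.Extra
import Pool.Agent.Shared.PolyTime.CookLevin

/-!
The reduction is computable in polynomial time, for every `k = q + 1`.
-/

namespace Pool.Agent.Lib.MP_0d8e88_lc.AllK

open Pool.Agent.Shared.PolyTime N487b59b3 N68a2faeb N793a5b8e

/-- The list of the occurrences of variables. -/
def occ (φ : List (Clause3 ℕ)) : List ℕ := φ.flatMap fun c => [c.1.1, c.2.1.1, c.2.2.1]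

def sort3 (a b c : ℕ × Bool) : Clause3 ℕ :=
  if a.1 < b.1 then (if b.1 < c.1 then (a, b, c) else if a.1 < c.1 then (a, c, b) else (c, a, b))
  else (if a.1 < c.1 then (b, a, c) else if b.1 < c.1 then (b, c, a) else (c, b, a))

/-- Renumber the variables and sort the clauses. -/
def prep (φ : List (Clause3 ℕ)) : List (Clause3 ℕ) := φ.map fun c =>
  sort3 ((occ φ).idxOf c.1.1 + 1, c.1.2) ((occ φ).idxOf c.2.1.1 + 1, c.2.1.2)
    ((occ φ).idxOf c.2.2.1 + 1, c.2.2.2)

theorem pt_prep : IsPolyTime prep := by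
  unfold prep sort3 occ
  fun_prop

theorem sort3_holds (ν : ℕ → Bool) (a b c : ℕ × Bool) :
    (sort3 a b c).Holds ν ↔ ν a.1 = a.2 ∨ ν b.1 = b.2 ∨ ν c.1 = c.2 := by
  unfold sort3
  split_ifs <;> simp only [Clause3.Holds] <;> tauto

theorem sort3_sorted {a b c : ℕ × Bool} {N : ℕ} (h1 : a.1 ≠ b.1) (h2 : a.1 ≠ c.1) (h3 : b.1 ≠ c.1)
    (ha : 1 ≤ a.1 ∧ a.1 ≤ N) (hb : 1 ≤ b.1 ∧ b.1 ≤ N) (hc : 1 ≤ c.1 ∧ c.1 ≤ N) :
    1 ≤ (sort3 a b c).1.1 ∧ (sort3 a b c).1.1 < (sort3 a b c).2.1.1 ∧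
      (sort3 a b c).2.1.1 < (sort3 a b c).2.2.1 ∧ (sort3 a b c).2.2.1 ≤ N := by
  unfold sort3
  split_ifs <;> dsimp only <;> omega

theorem length_occ (φ : List (Clause3 ℕ)) : (occ φ).length = 3 * φ.length := by
  induction φ with
  | nil => rfl
  | cons c φ ih =>
    simp only [occ, List.flatMap_cons, List.length_append, List.length_cons, List.length_nil] at *
    omega

theorem mem_occ {φ : List (Clause3 ℕ)} {c : Clause3 ℕ} (hc : c ∈ φ) :
    c.1.1 ∈ occ φ ∧ c.2.1.1 ∈ occ φ ∧ c.2.2.1 ∈ occ φ :=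
  ⟨List.mem_flatMap.2 ⟨c, hc, by simp⟩, List.mem_flatMap.2 ⟨c, hc, by simp⟩,
    List.mem_flatMap.2 ⟨c, hc, by simp⟩⟩

theorem prep_ok (φ : List (Clause3 ℕ)) (h : Distinct3 φ) :
    Sorted (prep φ) ∧ (Sat3 φ ↔ Sat3 (prep φ)) := by
  have g : ∀ v ∈ occ φ, (occ φ).getD ((occ φ).idxOf v) 0 = v := by
    intro v hv
    rw [List.getD_eq_getElem _ _ (List.idxOf_lt_length_of_mem hv), List.getElem_idxOf]
  have ne : ∀ v ∈ occ φ, ∀ w ∈ occ φ, v ≠ w → (occ φ).idxOf v + 1 ≠ (occ φ).idxOf w + 1 := by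
    intro v hv w hw n e
    exact n (by rw [← g v hv, ← g w hw, Nat.add_right_cancel e])
  have bd : ∀ v ∈ occ φ, 1 ≤ (occ φ).idxOf v + 1 ∧ (occ φ).idxOf v + 1 ≤ 3 * (prep φ).length := by
    intro v hv
    have := List.idxOf_lt_length_of_mem hv
    rw [length_occ] at this
    simp only [prep, List.length_map]
    omega
  refine ⟨fun c hc => ?_, ?_, ?_⟩
  · obtain ⟨c, hc', rfl⟩ := List.mem_map.1 hc
    obtain ⟨m1, m2, m3⟩ := mem_occ hc'
    obtain ⟨d1, d2, d3⟩ := h c hc'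
    exact sort3_sorted (ne _ m1 _ m2 d1) (ne _ m1 _ m3 d2) (ne _ m2 _ m3 d3) (bd _ m1) (bd _ m2)
      (bd _ m3)
  · rintro ⟨ν, hν⟩
    refine ⟨fun s => ν ((occ φ).getD (s - 1) 0), fun c hc => ?_⟩
    obtain ⟨c, hc', rfl⟩ := List.mem_map.1 hc
    obtain ⟨m1, m2, m3⟩ := mem_occ hc'
    rw [sort3_holds]
    simp only [Nat.add_sub_cancel, g _ m1, g _ m2, g _ m3]
    exact hν c hc'
  · rintro ⟨ν, hν⟩
    refine ⟨fun v => ν ((occ φ).idxOf v + 1), fun c hc => ?_⟩
    exact (sort3_holds ν _ _ _).1 (hν _ (List.mem_map.2 ⟨c, hc, rfl⟩))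

theorem hard_sorted : NPHardOn Sorted (Sat3 (V := ℕ)) :=
  npHardOn_sat3.reduce prep pt_prep prep_ok

/-- The vertices of the graph. -/
abbrev Vx : Type := V ⊕ (V × ℕ)

variable (q : ℕ)

def coreL (ψ : List (Clause3 ℕ)) : List V :=
  ((List.range (NE q ψ)).map Sum.inl ++ ((List.range (NR ψ + 1)).product
    ((List.range (NS ψ + 1)).product (List.range 36))).map Sum.inr).filter (isCore q ψ)

def isPin (ψ : List (Clause3 ℕ)) (p : V) : Bool :=
  Sum.elim (fun n => decide (n + (2 * q + 4) ≤ NE q ψ))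
    (fun w => decide (w.1 < NR ψ ∧ w.2.1 < NS ψ ∧ w.2.2 < (pins (kind ψ w.1 w.2.1)).length)) p

def pinL (ψ : List (Clause3 ℕ)) : List V :=
  ((List.range (NE q ψ)).map Sum.inl ++ ((List.range (NR ψ)).product
    ((List.range (NS ψ)).product (List.range 34))).map Sum.inr).filter (isPin q ψ)

def vl (ψ : List (Clause3 ℕ)) : List Vx :=
  (coreL q ψ).map Sum.inl ++ ((pinL q ψ).product (List.range 7)).map Sum.inr

theorem box_nodup (a b c d : ℕ) : ((List.range a).map Sum.inl ++ ((List.range b).product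
    ((List.range c).product (List.range d))).map Sum.inr : List V).Nodup := by
  refine List.Nodup.append (List.Nodup.map Sum.inl_injective List.nodup_range)
    (List.Nodup.map Sum.inr_injective ?_) ?_
  · exact List.nodup_range.product (List.nodup_range.product List.nodup_range)
  · simp [List.disjoint_left]

theorem vl_nodup (ψ : List (Clause3 ℕ)) : (vl q ψ).Nodup := by
  refine List.Nodup.append (List.Nodup.map Sum.inl_injective ?_)
    (List.Nodup.map Sum.inr_injective ?_) ?_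
  · exact (box_nodup _ _ _ _).filter _
  · exact ((box_nodup _ _ _ _).filter _).product List.nodup_range
  · simp [List.disjoint_left]

theorem mem_coreL (ψ : List (Clause3 ℕ)) (v : V) : v ∈ coreL q ψ ↔ v ∈ coreS q ψ := by
  rw [coreL, List.mem_filter]
  refine ⟨fun h => h.2, fun h => ⟨?_, h⟩⟩
  rcases v with n | ⟨r, o, j⟩
  · simpa [coreS, isCore] using h
  · simp only [coreS, isCore, isC, Set.mem_ofPred_eq, Sum.elim_inr] at h
    simp only [List.mem_append, List.mem_map, reduceCtorEq, and_false, exists_false,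
      Sum.inr.injEq, exists_eq_right, false_or, List.pair_mem_product, List.mem_range]
    split_ifs at h <;> simp only [Bool.and_eq_true, Bool.or_eq_true, decide_eq_true_eq] at h <;>
      omega

theorem mem_pinL (ψ : List (Clause3 ℕ)) (p : V) : p ∈ pinL q ψ ↔ p ∈ pinI q ψ := by
  have e : isPin q ψ p = true ↔ p ∈ pinI q ψ := by
    cases p <;> simp [isPin, pinI]
  rw [pinL, List.mem_filter, e]
  refine ⟨fun h => h.2, fun h => ⟨?_, h⟩⟩
  rcases p with n | ⟨r, s, j⟩
  · have : n + (2 * q + 4) ≤ NE q ψ := h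
    simp only [List.mem_append, List.mem_map, reduceCtorEq, and_false, exists_false,
      Sum.inl.injEq, exists_eq_right, or_false, List.mem_range]
    omega
  · simp only [List.mem_append, List.mem_map, reduceCtorEq, and_false, exists_false,
      Sum.inr.injEq, exists_eq_right, false_or, List.pair_mem_product, List.mem_range]
    exact ⟨h.1, h.2.1, h.2.2.trans (full_ok _ (kind_lt r s)).1⟩

theorem mem_vl (ψ : List (Clause3 ℕ)) (x : Vx) :
    x ∈ vl q ψ ↔ x ∈ tS (coreS q ψ) {y : V × ℕ | y.1 ∈ pinI q ψ ∧ y.2 < 7} := by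
  rcases x with v | ⟨p, i⟩
  · simp [vl, tS, mem_coreL]
  · simp only [vl, tS, List.mem_append, List.mem_map, reduceCtorEq, and_false,
      exists_false, Sum.inr.injEq, exists_eq_right, false_or, List.pair_mem_product,
      List.mem_range, Set.mem_ofPred_eq, Sum.elim_inr, mem_pinL]

instance (ψ : List (Clause3 ℕ)) (w : ℕ × ℕ × ℕ) (n : ℕ) : Decidable (adjE q ψ w n) := by
  unfold adjE
  infer_instance

instance (ψ : List (Clause3 ℕ)) (w w' : ℕ × ℕ × ℕ) : Decidable (adjR q ψ w w') := by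
  unfold adjR
  infer_instance

def adjCB (ψ : List (Clause3 ℕ)) (u v : V) : Bool :=
  Sum.elim (fun n => Sum.elim (fun m => decide (n ≠ m ∧ n ≤ m + (q + 2) ∧ m ≤ n + (q + 2)))
      (fun w => decide (adjE q ψ w n)) v)
    (fun w => Sum.elim (fun n => decide (adjE q ψ w n))
      (fun w' => decide (adjR q ψ w w') || decide (adjR q ψ w' w)) v) u

theorem adjCB_iff (ψ : List (Clause3 ℕ)) (u v : V) : adjCB q ψ u v = true ↔ adjC q ψ u v := by
  cases u <;> cases v <;> simp [adjCB, adjC]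

theorem adjC_symm (ψ : List (Clause3 ℕ)) {u v : V} (h : adjC q ψ u v) : adjC q ψ v u := by
  cases u <;> cases v <;> simp only [adjC] at h ⊢
  · exact ⟨h.1.symm, h.2.2, h.2.1⟩
  · exact h
  · exact h
  · exact h.symm

open Classical in
noncomputable def adjB (ψ : List (Clause3 ℕ)) (x y : Vx) : Bool :=
  Sum.elim (fun u : V => Sum.elim (fun v : V => adjCB q ψ u v)
      (fun p : V × ℕ => decide (u ∈ pinP q ψ p.1)) y)
    (fun p : V × ℕ => Sum.elim (fun v : V => decide (v ∈ pinP q ψ p.1)) (fun _ => false) y) x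

theorem adjB_iff (ψ : List (Clause3 ℕ)) (x y : Vx) :
    adjB q ψ x y = true ↔ tA (adjC q ψ) (fun y => pinP q ψ y.1) x y := by
  cases x <;> cases y <;> simp [adjB, tA, adjCB_iff]

theorem adjB_symm (ψ : List (Clause3 ℕ)) {x y : Vx} (h : adjB q ψ x y = true) :
    adjB q ψ y x = true := by
  rw [adjB_iff] at h ⊢
  cases x <;> cases y
  · exact adjC_symm q ψ h
  all_goals exact h

/-- The graph attached to a formula. -/
noncomputable def graph (ψ : List (Clause3 ℕ)) : SimpleGraph (Fin (vl q ψ).length) where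
  Adj i j := (decide (i.1 ≠ j.1) && adjB q ψ (vl q ψ)[i] (vl q ψ)[j]) = true
  symm := ⟨fun i j h => by
    rw [Bool.and_eq_true, decide_eq_true_eq] at h ⊢
    exact ⟨h.1.symm, adjB_symm q ψ h.2⟩⟩
  loopless := ⟨fun i => by simp⟩

theorem graph_iff (ψ : List (Clause3 ℕ)) : IsBarVis (q + 1) (graph q ψ) ↔ ∃ h l r, RepOn (q + 1)
    (tS (coreS q ψ) {y : V × ℕ | y.1 ∈ pinI q ψ ∧ y.2 < 7})
    (tA (adjC q ψ) (fun y => pinP q ψ y.1)) h l r := by
  have e : Set.range (fun i : Fin (vl q ψ).length => (vl q ψ)[i]) =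
      tS (coreS q ψ) {y : V × ℕ | y.1 ∈ pinI q ψ ∧ y.2 < 7} := by
    ext x
    rw [← mem_vl, List.mem_iff_get]
    rfl
  rw [isBarVis_iff_on (graph q ψ) (f := fun i => (vl q ψ)[i]) (List.nodup_iff_injective_get.1
    (vl_nodup q ψ)) (A := tA (adjC q ψ) (fun y => pinP q ψ y.1)) (fun i j hij => ?_), e]
  rw [← adjB_iff]
  show (decide (i.1 ≠ j.1) && adjB q ψ (vl q ψ)[i] (vl q ψ)[j]) = true ↔ _
  rw [Bool.and_eq_true, decide_eq_true_eq]
  exact and_iff_right (Fin.val_ne_of_ne hij)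

/-- The adjacency matrix of the graph. -/
noncomputable def word (ψ : List (Clause3 ℕ)) : List Bool :=
  (List.range ((vl q ψ).length * (vl q ψ).length)).map fun k =>
    decide (k / (vl q ψ).length ≠ k % (vl q ψ).length) &&
      adjB q ψ ((vl q ψ).getD (k / (vl q ψ).length) (.inl (.inl 0)))
        ((vl q ψ).getD (k % (vl q ψ).length) (.inl (.inl 0)))

theorem word_eq (ψ : List (Clause3 ℕ)) : word q ψ = adjWord (graph q ψ) := by
  apply List.ext_getElem
  · simp [word, adjWord]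
  · intro k h1 h2
    have hk : k < (vl q ψ).length * (vl q ψ).length := by simpa [word] using h1
    have h0 : 0 < (vl q ψ).length := Nat.pos_of_ne_zero fun e => by simp [e] at hk
    simp only [word, adjWord, graph, List.getElem_map, List.getElem_range, List.getElem_ofFn,
      Fin.divNat, Fin.modNat, Fin.getElem_fin]
    rw [List.getD_eq_getElem _ _ (Nat.div_lt_of_lt_mul hk),
      List.getD_eq_getElem _ _ (Nat.mod_lt _ h0), Bool.eq_iff_iff]
    exact (@decide_eq_true_iff _ (Classical.propDecidable _)).symm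

section pt

variable {α : Type} [N487b59b3 α] {ψ : α → List (Clause3 ℕ)}

@[fun_prop]
theorem pt_NS (h : IsPolyTime ψ) : IsPolyTime (fun x => NS (ψ x)) := by
  unfold NS
  fun_prop

@[fun_prop]
theorem pb_NS (h : IsPolyTime ψ) : PolyBdd (fun x => NS (ψ x)) := by
  unfold NS
  fun_prop

@[fun_prop]
theorem pt_NR (h : IsPolyTime ψ) : IsPolyTime (fun x => NR (ψ x)) := by
  unfold NR
  fun_prop

@[fun_prop]
theorem pb_NR (h : IsPolyTime ψ) : PolyBdd (fun x => NR (ψ x)) := by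
  unfold NR
  fun_prop

@[fun_prop]
theorem pt_NE (h : IsPolyTime ψ) : IsPolyTime (fun x => NE q (ψ x)) := by
  unfold NE
  fun_prop

@[fun_prop]
theorem pb_NE (h : IsPolyTime ψ) : PolyBdd (fun x => NE q (ψ x)) := by
  unfold NE
  fun_prop

@[fun_prop]
theorem pt_cl {r : α → ℕ} (h : IsPolyTime ψ) (hr : IsPolyTime r) :
    IsPolyTime (fun x => cl (ψ x) (r x)) := by
  unfold cl
  fun_prop

@[fun_prop]
theorem pt_kind {r s : α → ℕ} (h : IsPolyTime ψ) (hr : IsPolyTime r) (hs : IsPolyTime s) :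
    IsPolyTime (fun x => kind (ψ x) (r x) (s x)) := by
  unfold kind
  fun_prop

@[fun_prop]
theorem pt_flp {r s : α → ℕ} (h : IsPolyTime ψ) (hr : IsPolyTime r) (hs : IsPolyTime s) :
    IsPolyTime (fun x => flp (ψ x) (r x) (s x)) := by
  unfold flp
  fun_prop

@[fun_prop]
theorem pt_pos {j : α → ℕ} (hj : IsPolyTime j) : IsPolyTime (fun x => pos q (j x)) := by
  unfold pos ea ec
  fun_prop

@[fun_prop]
theorem pt_isL {j : α → ℕ} (hj : IsPolyTime j) : IsPolyTime (fun x => isL (j x)) := by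
  unfold isL
  fun_prop

@[fun_prop]
theorem pt_isC {j : α → ℕ} (hj : IsPolyTime j) : IsPolyTime (fun x => isC (j x)) := by
  unfold isC
  fun_prop

@[fun_prop]
theorem pt_isZ {j : α → ℕ} (hj : IsPolyTime j) : IsPolyTime (fun x => isZ (j x)) := by
  unfold isZ
  fun_prop

@[fun_prop]
theorem pt_isE {j : α → ℕ} (hj : IsPolyTime j) : IsPolyTime (fun x => isE (j x)) := by
  unfold isE
  fun_prop

@[fun_prop]
theorem pt_own {j s : α → ℕ} (hj : IsPolyTime j) (hs : IsPolyTime s) :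
    IsPolyTime (fun x => own (j x) (s x)) := by
  unfold own
  fun_prop

@[fun_prop]
theorem pt_gv {v : α → V} (hv : IsPolyTime v) : IsPolyTime (fun x => gv q (v x)) := by
  unfold gv
  fun_prop

@[fun_prop]
theorem pt_gap {u v : α → V} (hu : IsPolyTime u) (hv : IsPolyTime v) :
    IsPolyTime (fun x => gap q (u x) (v x)) := by
  unfold gap
  fun_prop

@[fun_prop]
theorem pt_cls {r n : α → ℕ} (hr : IsPolyTime r) (hn : IsPolyTime n) :
    IsPolyTime (fun x => cls q (r x) (n x)) := by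
  unfold cls
  fun_prop

@[fun_prop]
theorem pt_DD {κ j z : α → ℕ} (hκ : IsPolyTime κ) (hj : IsPolyTime j) (hz : IsPolyTime z) :
    IsPolyTime (fun x => DD (κ x) (j x) (z x)) := by
  unfold DD dd
  generalize dts = D
  fun_prop

@[fun_prop]
theorem pt_ex {κ j : α → ℕ} (hκ : IsPolyTime κ) (hj : IsPolyTime j) :
    IsPolyTime (fun x => ex (κ x) (j x)) := by
  unfold ex ed tab
  generalize tabs = D
  fun_prop

@[fun_prop]
theorem pt_pins {κ : α → ℕ} (hκ : IsPolyTime κ) : IsPolyTime (fun x => pins (κ x)) := by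
  unfold pins
  generalize pinss = D
  fun_prop

@[fun_prop]
theorem pt_isCore {v : α → V} (h : IsPolyTime ψ) (hv : IsPolyTime v) :
    IsPolyTime (fun x => isCore q (ψ x) (v x)) := by
  unfold isCore
  fun_prop

@[fun_prop]
theorem pt_isPin {v : α → V} (h : IsPolyTime ψ) (hv : IsPolyTime v) :
    IsPolyTime (fun x => isPin q (ψ x) (v x)) := by
  unfold isPin
  fun_prop

@[fun_prop]
theorem pt_vl (h : IsPolyTime ψ) : IsPolyTime (fun x => vl q (ψ x)) := by
  unfold vl coreL pinL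
  fun_prop

@[fun_prop]
theorem pt_adjE {w : α → ℕ × ℕ × ℕ} {n : α → ℕ} (h : IsPolyTime ψ) (hw : IsPolyTime w)
    (hn : IsPolyTime n) : IsPolyTime (fun x => decide (adjE q (ψ x) (w x) (n x))) := by
  unfold adjE
  fun_prop

@[fun_prop]
theorem pt_adjR {w w' : α → ℕ × ℕ × ℕ} (h : IsPolyTime ψ) (hw : IsPolyTime w)
    (hw' : IsPolyTime w') : IsPolyTime (fun x => decide (adjR q (ψ x) (w x) (w' x))) := by
  unfold adjR
  fun_prop

@[fun_prop]
theorem pt_adjCB {u v : α → V} (h : IsPolyTime ψ) (hu : IsPolyTime u) (hv : IsPolyTime v) :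
    IsPolyTime (fun x => adjCB q (ψ x) (u x) (v x)) := by
  unfold adjCB
  fun_prop

@[fun_prop]
theorem pt_cv {r s j : α → ℕ} (h : IsPolyTime ψ) (hr : IsPolyTime r) (hs : IsPolyTime s)
    (hj : IsPolyTime j) : IsPolyTime (fun x => cv (ψ x) (r x) (s x) (j x)) := by
  unfold cv
  fun_prop

@[fun_prop]
theorem pt_sy {r s j : α → ℕ} (h : IsPolyTime ψ) (hr : IsPolyTime r) (hs : IsPolyTime s)
    (hj : IsPolyTime j) : IsPolyTime (fun x => sy q (ψ x) (r x) (s x) (j x)) := by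
  unfold sy
  fun_prop

@[fun_prop]
theorem pt_pinP {p : α → V} (h : IsPolyTime ψ) (hp : IsPolyTime p) :
    IsPolyTime (fun x => pinP q (ψ x) (p x)) := by
  unfold pinP flat pin
  fun_prop

@[fun_prop]
theorem pt_adjB {u v : α → Vx} (h : IsPolyTime ψ) (hu : IsPolyTime u) (hv : IsPolyTime v) :
    IsPolyTime (fun x => adjB q (ψ x) (u x) (v x)) := by
  unfold adjB
  fun_prop

end pt

theorem pt_word : IsPolyTime (word q) := by
  unfold word
  fun_prop

theorem hardK
    (fw : ∀ ψ, Sorted ψ → Sat3 ψ → ∃ h l r, RepOn (q + 1)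
      (tS (coreS q ψ) {y : V × ℕ | y.1 ∈ pinI q ψ ∧ y.2 < 7})
      (tA (adjC q ψ) (fun y => pinP q ψ y.1)) h l r)
    (bw : ∀ ψ, Sorted ψ → ∀ h l r, RepOn (q + 1)
      (tS (coreS q ψ) {y : V × ℕ | y.1 ∈ pinI q ψ ∧ y.2 < 7})
      (tA (adjC q ψ) (fun y => pinP q ψ y.1)) h l r → Sat3 ψ) :
    N793a5b8e.IsCompleteFor N68a2faeb.NP (barLang (q + 1)) := by
  refine ⟨barLang_mem_NP _, fun L hL => ?_⟩
  obtain ⟨f, hf, hf'⟩ := hard_sorted L hL
  refine ⟨fun x => word q (f x), (pt_word q).comp hf, fun x => ?_⟩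
  have h2 : L x = true ↔ IsBarVis (q + 1) (graph q (f x)) := by
    rw [(hf' x).2, graph_iff]
    exact ⟨fw _ (hf' x).1, fun ⟨_, _, _, H⟩ => bw _ (hf' x).1 _ _ _ H⟩
  rw [Bool.eq_iff_iff, h2, barLang_iff]
  dsimp only
  rw [word_eq]
  constructor
  · exact fun h => ⟨_, _, rfl, h⟩
  · rintro ⟨m, H, e, h⟩
    exact adjWord_inj e.symm (fun G => IsBarVis (q + 1) G) h

end Pool.Agent.Lib.MP_0d8e88_lc.AllK
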