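import Pool.Agent.Lib.MP_0d8e88_lc.AllK.Data

/-!
Symbols of the window of a cell, and the finite checks on the tables.
-/

namespace Pool.Agent.Lib.MP_0d8e88_lc.AllK

/-- Blocks of `k - 1` eternal bars. -/
def isZ (j : ℕ) : Bool := j == 0 || j == 5 || j == 15 || j == 37 || j == 42

/-- Single eternal bars. -/
def isE (j : ℕ) : Bool := j == 1 || j == 4 || j == 6 || j == 36 || j == 38 || j == 41

/-- Bars of the cell. -/
def isC (j : ℕ) : Bool := (decide (7 ≤ j) && decide (j ≤ 14)) || (decide (16 ≤ j) && decide (j ≤ 35))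

/-- Long bars. -/
def isL (j : ℕ) : Bool := j == 9 || j == 10 || j == 21 || j == 26 || j == 28 || j == 32

def et (j : ℕ) : Bool := isZ j || isE j

/-- Number of single eternal bars below a symbol. -/
def ea (j : ℕ) : ℕ := [1, 1, 2, 2, 2, 3, 3, 4, 4, 4, 4, 4, 4, 4, 4, 4, 4, 4, 4, 4, 4, 4, 4, 4, 4,
  4, 4, 4, 4, 4, 4, 4, 4, 4, 4, 4, 4, 5, 5, 6, 6, 6, 7].getD j 0

/-- Number of blocks below a symbol. -/
def ec (j : ℕ) : ℕ := [0, 1, 1, 1, 1, 1, 2, 2, 2, 2, 2, 2, 2, 2, 2, 2, 3, 3, 3, 3, 3, 3, 3, 3, 3,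
  3, 3, 3, 3, 3, 3, 3, 3, 3, 3, 3, 3, 3, 4, 4, 4, 4, 4].getD j 0

def nst (κ : ℕ) : ℕ := if κ = 5 then 5 else 2

def tab (κ σ : ℕ) : ℕ := tabs.getD (5 * κ + σ) 0

def eb (t j : ℕ) : ℕ := (t >>> (14 * j)) % 128

def ed (t j : ℕ) : ℕ := (t >>> (14 * j + 7)) % 128

def al (t m j : ℕ) : Bool := Nat.ble (eb t j) m && Nat.blt m (ed t j)

def ex (κ j : ℕ) : Bool := ed (tab κ 0) j != 0

def dd (t j z : ℕ) : ℕ := (t >>> (4 * (43 * j + z))) % 16

/-- Least number of bars of the cell between two symbols; `9` when they never meet. -/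
def DD (κ j z : ℕ) : ℕ := dd (dts.getD κ 0) j z

def lev (σ j : ℕ) : ℕ := if j = 22 ∧ σ = 4 then 33 else j

def pins (κ : ℕ) : List (Bool × List ℕ) := pinss.getD κ []

def pin (κ p : ℕ) : Bool × List ℕ := (pins κ).getD p (true, [])

/-- The wire of the role `ρ` in a cell of kind `κ`. -/
def sq (κ ρ i : ℕ) : ℕ := (chs.getD (2 * κ + ρ) []).getD i 0

/-- The role of a bar of a wire, and `2` for the other symbols. -/
def rl (j : ℕ) : ℕ := [2, 2, 0, 1, 2, 2, 2, 0, 1, 2, 2, 2, 2, 0, 1, 2, 2, 1, 2, 2, 0, 2, 2, 0, 1,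
  2, 2, 0, 2, 0, 1, 2, 2, 2, 0, 1, 2, 2, 2, 0, 1, 2, 2].getD j 2

def force {α : Type} (n : ℕ) (f : ℕ → α) : α :=
  match n with
  | 0 => f 0
  | m + 1 => f (m + 1)

theorem force_eq {α : Type} (n : ℕ) (f : ℕ → α) : force n f = f n := by cases n <;> rfl

def forceL {α : Type} : List ℕ → (List ℕ → α) → α
  | [], f => f []
  | a :: l, f => force a fun a' => forceL l fun l' => f (a' :: l')

theorem forceL_eq {α : Type} (l : List ℕ) (f : List ℕ → α) : forceL l f = f l := by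
  induction l generalizing f with
  | nil => rfl
  | cons a l ih => rw [forceL, force_eq, ih]

def forceLL {α : Type} : List (List ℕ) → (List (List ℕ) → α) → α
  | [], f => f []
  | a :: l, f => forceL a fun a' => forceLL l fun l' => f (a' :: l')

theorem forceLL_eq {α : Type} (l : List (List ℕ)) (f : List (List ℕ) → α) : forceLL l f = f l := by
  induction l generalizing f with
  | nil => rfl
  | cons a l ih => rw [forceLL, forceL_eq, ih]

/-- The bars of the cell alive at the step `m`. -/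
def aC (t m : ℕ) : List ℕ := (List.range 43).filter fun j => isC j && al t m j

/-- The symbols alive at the step `m`. -/
def aW (t m : ℕ) : List ℕ := (List.range 43).filter fun j => et j || al t m j

def btw (a w b : ℕ) : Bool := (Nat.blt a w && Nat.blt w b) || (Nat.blt b w && Nat.blt w a)

def cnt (σ : ℕ) (L : List ℕ) (j z : ℕ) : ℕ :=
  L.countP fun w => btw (lev σ j) (lev σ w) (lev σ z)

def chkLow (κ σ : ℕ) : Bool := force (tab κ σ) fun t => force (dts.getD κ 0) fun D =>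
  (List.range 64).all fun m => forceL (aC t m) fun L => L.all fun j =>
    (6 :: 15 :: 36 :: L).all fun z => j == z ||
      (Nat.blt (dd D j z) 9 && Nat.ble (dd D j z) (cnt σ L j z))

def cross (j z : ℕ) : Bool := (Nat.blt j 15 && Nat.blt 15 z) || (Nat.blt z 15 && Nat.blt 15 j)

def isCut (z : ℕ) : Bool := z == 6 || z == 15 || z == 36

def real (σ : ℕ) (Ls : List (List ℕ)) (j z c : ℕ) : Bool :=
  Ls.any fun L => L.contains j && (isCut z || L.contains z) && Nat.ble (cnt σ L j z) c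

def exc (j z : ℕ) : Bool := (j == 9 && z == 36) || (j == 26 && z == 6)

def cols (t : ℕ) : List (List ℕ) := (List.range 64).map (aC t)

def chkUp (κ σ : ℕ) : Bool := force (tab κ σ) fun t => force (dts.getD κ 0) fun D =>
  forceLL (cols t) fun Ls => (List.range 43).all fun j => (List.range 43).all fun z =>
    Nat.ble 9 (dd D j z) || (cross j z && Nat.ble 2 (dd D j z)) || exc j z ||
      real σ Ls j z (if isC z || z == 15 then max (dd D j z) 1 else dd D j z)

/-- The symbol `x` lies below the symbol `y`. -/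
def bel (σ x y : ℕ) : Bool := Nat.ble (ea x + (isE x).toNat) (ea y) &&
  Nat.ble (ec x + (isZ x).toNat) (ec y) &&
  (et x || et y || Nat.blt (ea x) (ea y) || (isC x && isC y && Nat.blt (lev σ x) (lev σ y)))

def dir (up : Bool) (f : ℕ → ℕ → Bool) (x y : ℕ) : Bool := if up then f x y else f y x

def pinB (σ : ℕ) (W : List ℕ) (P : Bool × List ℕ) : Bool :=
  P.2.all W.contains && decide (P.2.Pairwise fun x y => dir P.1 (bel σ) x y = true) &&
    W.all fun z => P.2.contains z || P.2.all (bel σ z) || P.2.all fun x => bel σ x z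

def chkPin (κ σ : ℕ) : Bool := force (tab κ σ) fun t =>
  forceLL ((List.range 64).map (aW t)) fun Ws => (pins κ).all fun P => Ws.any fun W => pinB σ W P

/-- The symbols of a list with the numbers of singles, of blocks and of single eternal bars
met before them. -/
def walk : List ℕ → ℕ → ℕ → ℕ → List (ℕ × ℕ × ℕ × ℕ)
  | [], _, _, _ => []
  | z :: L, a, c, e => (z, a, c, e) ::
      if isZ z then walk L a (c + 1) e else walk L (a + 1) c (e + (isE z).toNat)

def inB (w : ℕ × ℕ × ℕ × ℕ) : Bool :=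
  if isZ w.1 then Nat.ble w.2.1 3 && w.2.2.1 == 0 else Nat.ble w.2.1 2 && Nat.ble w.2.2.1 1

def incl (w : ℕ × ℕ × ℕ × ℕ) : Bool :=
  if isZ w.1 then Nat.ble w.2.1 4 && Nat.ble w.2.2.1 1 else Nat.ble w.2.1 3 && Nat.ble w.2.2.1 2

def outs (w : ℕ × ℕ × ℕ × ℕ) : Bool := Nat.ble 4 w.2.1 && Nat.ble 2 w.2.2.1

def inP (w : ℕ × ℕ × ℕ × ℕ) : Bool :=
  !isZ w.1 && w.2.1 == 3 && Nat.ble 1 w.2.2.1 && Nat.ble w.2.2.1 2

def geom (up : Bool) (j : ℕ) (w : ℕ × ℕ × ℕ × ℕ) : Bool := Nat.blt w.1 43 &&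
  Nat.blt w.2.2.2 w.2.1 &&
  if up then ea w.1 == ea j + w.2.2.2 && ec w.1 == ec j + w.2.2.1
  else ea j == ea w.1 + w.2.2.2 + (isE w.1).toNat && ec j == ec w.1 + w.2.2.1 + (isZ w.1).toNat

def clsS (z : ℕ) : ℕ := if et z then (if z ≤ 6 then 6 else if z = 15 then 15 else 36) else z

def dge (κ j z n : ℕ) : Bool := Nat.ble 9 (DD κ j z) || Nat.ble n (DD κ j z)

def tight (κ : ℕ) (up : Bool) (j : ℕ) (w : ℕ × ℕ × ℕ × ℕ) : Bool := inB w || outs w ||
  (geom up j w && ((Nat.ble 2 w.2.2.2 && Nat.ble 1 w.2.2.1) || ((isC w.1 || et w.1) &&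
    if isL j && (isL w.1 || et w.1) then
      (List.range 7).all fun κ' => dge κ' j (clsS w.1) (w.2.1 - 1 - w.2.2.2)
    else dge κ j (clsS w.1) (w.2.1 - 1 - w.2.2.2))))

def known (F : List ℕ) (x y : ℕ) : Bool := (F.getD x 0).testBit y

def orient (F : List ℕ) (up : Bool) (j : ℕ) (W : List (ℕ × ℕ × ℕ × ℕ)) : Bool :=
  W.any fun y => !isZ y.1 && ((incl y && dir up (known F) j y.1) ||
    (inB y && W.all fun w => inB w || outs w || dir up (known F) y.1 w.1))

def concl (j : ℕ) (W : List (ℕ × ℕ × ℕ × ℕ)) : List (ℕ × ℕ) :=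
  (W.filter incl).map (fun w => (j, w.1)) ++
    (W.filter inB).flatMap fun y => (W.filter inP).map fun w => (y.1, w.1)

def add1 (F : List ℕ) (p : ℕ × ℕ) : List ℕ := F.set p.1 (F.getD p.1 0 ||| 2 ^ p.2)

def thru (F : List ℕ) (z : ℕ) : List ℕ :=
  F.map fun row => if row.testBit z then row ||| F.getD z 0 else row

def usePin (κ : ℕ) (F : List ℕ) : Bool × List ℕ → List ℕ
  | (_, []) => F
  | (up, j :: L) =>
    if isC j && (walk L 1 0 0).all (tight κ up j) && orient F up j (walk L 1 0 0) then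
      (concl j (walk L 1 0 0)).foldl (fun F p => add1 F (if up then p else p.swap)) F
    else F

def step (κ : ℕ) (F : List ℕ) (i : ℕ) : List ℕ :=
  if i < 100 then (if isZ i then F else thru F i) else usePin κ F (pin κ (i - 100))

def steps (κ : ℕ) : List ℕ → List ℕ → List ℕ
  | [], F => F
  | i :: is, F => forceL (step κ F i) (steps κ is)

/-- The order of two symbols is forced in a cell of kind `κ`. -/
def lt (κ x y : ℕ) : Bool := known (lts.getD κ []) x y

/-- The symbol `z` belongs to the pin `p`, for every `k`. -/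
def inc (κ p z : ℕ) : Bool := (walk (pin κ p).2 0 0 0).any fun w => w.1 == z && incl w

theorem steps_ok : ∀ κ < 7, steps κ (scripts.getD κ []) F0 = lts.getD κ [] := by decide +kernel

theorem F0_ok : ∀ x < 43, F0.getD x 0 < 2 ^ 43 ∧
    ∀ y < 43, known F0 x y = true → et x = true ∧ et y = true ∧ x < y := by decide +kernel

theorem full_ok : ∀ κ < 7, (pins κ).length < 34 ∧ 10 < (pins κ).length ∧ ∀ P ∈ pins κ,
    4 ≤ P.2.countP (fun j => !isZ j) ∧ 2 ≤ P.2.countP isZ := by decide +kernel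

set_option synthInstance.maxSize 2000 in
theorem link_ok : ∀ κ < 7, ∀ ρ < 2, (sq κ ρ 0 = 2 + ρ ∧ sq κ ρ 5 = 39 + ρ ∧
    lt κ (2 + ρ) 6 = true ∧ lt κ 36 (39 + ρ) = true) ∧
    (∀ i < 5, inc κ (5 * ρ + i) (sq κ ρ i) = true ∧ inc κ (5 * ρ + i) (sq κ ρ (i + 1)) = true ∧
      (sq κ ρ i = sq κ ρ (i + 1) ∨ lt κ (sq κ ρ i) (sq κ ρ (i + 1)) = true) ∧
      ∀ z ∈ (pin κ (5 * ρ + i)).2, rl z = ρ ∨ rl z = 2) ∧
    ∀ i < 4, isC (sq κ ρ (i + 1)) = true ∧ isL (sq κ ρ (i + 1)) = false ∧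
      ex κ (sq κ ρ (i + 1)) = true ∧ lt κ 6 (sq κ ρ (i + 1)) = true ∧
      lt κ (sq κ ρ (i + 1)) 36 = true ∧ rl (sq κ ρ (i + 1)) = ρ := by decide +kernel

set_option synthInstance.maxSize 2000 in
theorem DD_ok : ∀ κ < 7, ∀ j < 43, DD κ j j = 9 ∧ ∀ z < 43, (DD κ j z < 9 →
    isC j = true ∧ (isC z = true ∨ isCut z = true)) ∧
    (isC j = true → isC z = true → DD κ j z = DD κ z j) := by decide +kernel

theorem exc_ok : (∀ κ < 7, 1 ≤ DD κ 9 36 ∧ 1 ≤ DD κ 26 6) ∧
    real 0 (cols (tab 1 0)) 9 36 1 = true ∧ real 0 (cols (tab 3 0)) 26 6 1 = true ∧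
    (∀ σ < 5, 2 ≤ σ → real σ (cols (tab 5 σ)) 9 36 1 = true) ∧
    ∀ σ < 5, σ / 2 ≠ 1 → real σ (cols (tab 5 σ)) 26 6 1 = true := by decide +kernel

/-- The phases of the long bars of a clause. -/
def bph (j : ℕ) : ℕ := if j = 21 ∨ j = 26 then 3 else 1

def dph (j : ℕ) : ℕ := if j = 28 ∨ j = 32 then 3 else 5

set_option synthInstance.maxSize 2000 in
theorem long_ok : ∀ κ < 7, ∀ σ < nst κ, ∀ j < 43, isL j = true → j ≠ 10 →
    (κ < bph j ∨ dph j < κ → ed (tab κ σ) j = 0) ∧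
    (κ = bph j → 0 < eb (tab κ σ) j ∧ eb (tab κ σ) j < 64) ∧
    (bph j < κ → eb (tab κ σ) j = 0) ∧
    (κ = dph j → 0 < ed (tab κ σ) j ∧ ed (tab κ σ) j < 64) ∧
    (bph j ≤ κ → κ < dph j → ed (tab κ σ) j = 64) := by decide +kernel

theorem clock_ok : ∀ κ < 7, ∀ σ < nst κ, eb (tab κ σ) 10 = 0 ∧
    ed (tab κ σ) 10 = (if κ = 6 then 64 else 0) ∧ ed (tab κ σ) 33 = 0 := by decide +kernel

set_option synthInstance.maxSize 2000 in
theorem short_ok : ∀ κ < 7, ∀ σ < nst κ, ∀ j < 43, isC j = true → isL j = false →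
    (ex κ j = false → ed (tab κ σ) j = 0) ∧ (ex κ j = true →
      0 < eb (tab κ σ) j ∧ eb (tab κ σ) j < ed (tab κ σ) j ∧ ed (tab κ σ) j < 64) := by
  decide +kernel

theorem om_ok : ∀ κ < 7, ∀ σ < nst κ, ∀ ρ < 2,
    (eb (tab κ σ) (2 + ρ) = (if ρ = σ % 2 then 12 else 28) ∧
      ed (tab κ σ) (2 + ρ) = (if ρ = σ % 2 then 21 else 37)) ∧
    eb (tab κ σ) (39 + ρ) = (if ρ = σ % 2 then 12 else 28) ∧
      ed (tab κ σ) (39 + ρ) = (if ρ = σ % 2 then 21 else 37) := by decide +kernel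

def chkDist (κ σ : ℕ) : Bool := force (tab κ σ) fun t =>
  forceL ((List.range 43).filter fun j => isC j && ed t j != 0) fun L =>
    L.all fun j => L.all fun z => j == z ||
      ((eb t j != eb t z || eb t j == 0) && (ed t j != ed t z || ed t j == 64) && eb t j != ed t z)

theorem dist_ok : ∀ κ < 7, ∀ σ < nst κ, chkDist κ σ = true := by decide +kernel

end Pool.Agent.Lib.MP_0d8e88_lc.AllK
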