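import Pool.Agent.Lib.MP_0d8e88_lc.AllK.Cons

/-!
Times of birth and death of the bars that are not eternal.
-/

namespace Pool.Agent.Lib.MP_0d8e88_lc.AllK

open Pool.Agent.Shared.PolyTime

variable {q : ℕ} {ψ : List (Clause3 ℕ)} {fs : ℕ → ℕ} {st : ℕ → ℕ → ℕ}

theorem isC_iff {j : ℕ} : isC j = true ↔ (7 ≤ j ∧ j ≤ 14) ∨ (16 ≤ j ∧ j ≤ 35) := by
  simp [isC]

theorem isL_iff {j : ℕ} : isL j = true ↔ j = 9 ∨ j = 10 ∨ j = 21 ∨ j = 26 ∨ j = 28 ∨ j = 32 := by
  simp [isL, or_assoc]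

theorem al_iff {t m j : ℕ} : al t m j = true ↔ eb t j ≤ m ∧ m < ed t j := by
  simp [al, Nat.blt_eq, Nat.ble_eq]

theorem core_inl {n : ℕ} : (Sum.inl n : V) ∈ coreS q ψ ↔ n < NE q ψ := by
  simp [coreS, isCore]

theorem core_om {r o j : ℕ} (hj : j = 2 ∨ j = 3) :
    (Sum.inr (r, o, j) : V) ∈ coreS q ψ ↔ r ≤ NR ψ ∧ o < NS ψ := by
  simp [coreS, isCore, hj]

theorem core_long {r o j : ℕ} (hj : isL j = true) :
    (Sum.inr (r, o, j) : V) ∈ coreS q ψ ↔ r < NR ψ ∧ o = 0 ∧ (j = 10 ↔ r < 2 * NS ψ) := by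
  have h := isL_iff.1 hj
  have h1 : ¬(j = 2 ∨ j = 3) := by omega
  have h2 : isC j = true := isC_iff.2 (by omega)
  simp only [coreS, isCore, Set.mem_ofPred_eq, Sum.elim_inr, h1, if_false, h2, hj, if_true,
    Bool.and_eq_true, decide_eq_true_eq, and_true]

theorem core_short {r o j : ℕ} (hc : isC j = true) (hj : isL j = false) :
    (Sum.inr (r, o, j) : V) ∈ coreS q ψ ↔ r < NR ψ ∧ o < NS ψ ∧ ex (kind ψ r o) j = true := by
  have h := isC_iff.1 hc
  have h1 : ¬(j = 2 ∨ j = 3) := by omega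
  simp [coreS, isCore, h1, hc, hj]

theorem core_cases {r o j : ℕ} (h : (Sum.inr (r, o, j) : V) ∈ coreS q ψ) :
    ((j = 2 ∨ j = 3) ∧ r ≤ NR ψ ∧ o < NS ψ) ∨ (isC j = true ∧ r < NR ψ) := by
  by_cases hj : j = 2 ∨ j = 3
  · exact Or.inl ⟨hj, (core_om hj).1 h⟩
  · simp only [coreS, isCore, Set.mem_ofPred_eq, Sum.elim_inr, hj, if_false, Bool.and_eq_true,
      decide_eq_true_eq] at h
    exact Or.inr ⟨h.1.2, h.1.1⟩

theorem kind_six {r s : ℕ} (hs : s < NS ψ) :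
    kind ψ r s = 6 ↔ r < 2 * NS ψ ∧ sb ψ r 10 ≤ s ∧ s ≤ sd ψ r 10 := by
  unfold kind sb sd
  split_ifs <;> first | omega | (simp only [false_iff]; omega)

theorem kind_clock {r s : ℕ} (hr : r < 2 * NS ψ) : kind ψ r s = 0 ∨ kind ψ r s = 6 := by
  unfold kind
  split_ifs <;> omega

theorem kind_long (hS : Sorted ψ) {r j : ℕ} (h1 : 2 * NS ψ ≤ r) (h2 : r < NR ψ)
    (hj : isL j = true) (_h10 : j ≠ 10) : sb ψ r j < sd ψ r j ∧ sd ψ r j < NS ψ ∧ ∀ s,
      (s < sb ψ r j → kind ψ r s < bph j) ∧ (s = sb ψ r j → kind ψ r s = bph j) ∧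
      (sb ψ r j < s → s < sd ψ r j → bph j < kind ψ r s ∧ kind ψ r s < dph j) ∧
      (s = sd ψ r j → kind ψ r s = dph j) ∧
      (sd ψ r j < s → kind ψ r s < bph j ∨ dph j < kind ψ r s) := by
  have h := isL_iff.1 hj
  obtain ⟨c1, c2, c3, -, c5⟩ := cl_ok hS r
  have c6 := c5 h2 h1
  have a1 : ¬r < NS ψ := by omega
  have a2 : ¬r < 2 * NS ψ := by omega
  unfold kind sb sd bph dph
  simp only [a1, a2, if_false]
  refine ⟨?_, ?_, fun s => ?_⟩
  · split_ifs <;> omega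
  · split_ifs <;> omega
  · split_ifs <;> omega

theorem bph_lt_dph {j : ℕ} (hj : isL j = true) : bph j < dph j ∧ 1 ≤ bph j ∧ dph j ≤ 5 := by
  have h := isL_iff.1 hj
  unfold bph dph
  split_ifs <;> omega

theorem bc_cell {r o j : ℕ} (hc : isC j = true) : bc ψ fs st (r, o, j) =
    1 + 64 * (if isL j then sb ψ r j else o) + eb (ct ψ st r (if isL j then sb ψ r j else o)) j := by
  have h := isC_iff.1 hc
  have h1 : ¬j ≤ 3 := by omega
  simp only [bc, h1, if_false]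

theorem dc_cell {r o j : ℕ} (hc : isC j = true) : dc ψ fs st (r, o, j) =
    1 + 64 * (if isL j then sd ψ r j else o) + ed (ct ψ st r (if isL j then sd ψ r j else o)) j := by
  have h := isC_iff.1 hc
  have h1 : ¬j ≤ 3 := by omega
  simp only [dc, h1, if_false]

theorem bc_om {r o j : ℕ} (hj : j = 2 ∨ j = 3) :
    bc ψ fs st (r, o, j) = 1 + 64 * o + (if j = 2 + fs o then 12 else 28) ∧
    dc ψ fs st (r, o, j) = 1 + 64 * o + (if j = 2 + fs o then 21 else 37) := by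
  have h1 : j ≤ 3 := by omega
  simp only [bc, dc, h1, if_true, and_self]

/-- The slabs in which a bar of a cell is born and dies. -/
theorem cell_bd (hS : Sorted ψ) (hst : StOK ψ fs st) {r o j : ℕ}
    (h : (Sum.inr (r, o, j) : V) ∈ coreS q ψ) (hc : isC j = true) :
    ∃ s1 s2, s1 ≤ s2 ∧ s2 < NS ψ ∧ own j s1 = o ∧ own j s2 = o ∧
      bc ψ fs st (r, o, j) = 1 + 64 * s1 + eb (ct ψ st r s1) j ∧
      dc ψ fs st (r, o, j) = 1 + 64 * s2 + ed (ct ψ st r s2) j ∧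
      ed (ct ψ st r s1) j ≠ 0 ∧ ed (ct ψ st r s2) j ≠ 0 ∧
      (j = 10 → eb (ct ψ st r s1) j = 0 ∧ ed (ct ψ st r s2) j = 64) ∧
      (j ≠ 10 → 0 < eb (ct ψ st r s1) j ∧ eb (ct ψ st r s1) j < 64 ∧ ed (ct ψ st r s2) j < 64 ∧
        (s1 = s2 → eb (ct ψ st r s1) j < ed (ct ψ st r s2) j)) := by
  have j43 : j < 43 := by have := isC_iff.1 hc; omega
  rw [bc_cell hc, dc_cell hc]
  cases hl : isL j
  · obtain ⟨h1, h2, h3⟩ := (core_short hc hl).1 h
    obtain ⟨a1, a2, a3⟩ := (short_ok _ (kind_lt r o) _ (hst.2 r o).1 j j43 hc hl).2 h3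
    have n10 : j ≠ 10 := by
      rintro rfl
      simp [isL] at hl
    refine ⟨o, o, le_rfl, h2, by simp [own, hl], by simp [own, hl], by simp, by simp, ?_⟩
    unfold ct
    omega
  · obtain ⟨h1, rfl, h3⟩ := (core_long hl).1 h
    refine ⟨sb ψ r j, sd ψ r j, ?_⟩
    simp only [own, hl, if_true, true_and]
    by_cases h10 : j = 10
    · subst h10
      have r2 := h3.1 rfl
      have b1 : sb ψ r 10 ≤ sd ψ r 10 ∧ sd ψ r 10 < NS ψ := by
        unfold sb sd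
        split_ifs <;> omega
      have k1 := (kind_six (ψ := ψ) (r := r) (b1.1.trans_lt b1.2)).2 ⟨r2, le_rfl, b1.1⟩
      have k2 := (kind_six (ψ := ψ) (r := r) b1.2).2 ⟨r2, b1.1, le_rfl⟩
      have c1 := clock_ok _ (kind_lt r (sb ψ r 10)) _ (hst.2 r _).1
      have c2 := clock_ok _ (kind_lt r (sd ψ r 10)) _ (hst.2 r _).1
      rw [if_pos k1] at c1
      rw [if_pos k2] at c2
      unfold ct
      omega
    · obtain ⟨a1, a2, a3⟩ := kind_long hS (not_lt.1 fun c => h10 (h3.2 c)) h1 hl h10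
      have k1 := (a3 _).2.1 rfl
      have k2 := (a3 _).2.2.2.1 rfl
      have c1 := long_ok _ (kind_lt r (sb ψ r j)) _ (hst.2 r _).1 j j43 hl h10
      have c2 := long_ok _ (kind_lt r (sd ψ r j)) _ (hst.2 r _).1 j j43 hl h10
      have c3 := bph_lt_dph hl
      unfold ct
      omega

/-- The life of a bar of a cell, read in the tables. -/
theorem calive (hS : Sorted ψ) (hst : StOK ψ fs st) {r o j : ℕ}
    (h : (Sum.inr (r, o, j) : V) ∈ coreS q ψ) (hc : isC j = true) {s m : ℕ} (hs : s < NS ψ)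
    (hm : m < 64) : (bc ψ fs st (r, o, j) ≤ 1 + 64 * s + m ∧ 1 + 64 * s + m < dc ψ fs st (r, o, j)) ↔
      o = own j s ∧ al (ct ψ st r s) m j = true := by
  have j43 : j < 43 := by have := isC_iff.1 hc; omega
  rw [bc_cell hc, dc_cell hc, al_iff]
  cases hl : isL j
  · obtain ⟨h1, h2, h3⟩ := (core_short hc hl).1 h
    obtain ⟨a1, a2, a3⟩ := (short_ok _ (kind_lt r o) _ (hst.2 r o).1 j j43 hc hl).2 h3
    simp only [own, hl, Bool.false_eq_true, if_false]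
    unfold ct
    constructor
    · intro x
      obtain rfl : o = s := by omega
      omega
    · rintro ⟨rfl, x⟩
      omega
  · obtain ⟨h1, rfl, h3⟩ := (core_long hl).1 h
    simp only [own, hl, if_true, true_and]
    by_cases h10 : j = 10
    · subst h10
      have r2 := h3.1 rfl
      have b1 : sb ψ r 10 ≤ sd ψ r 10 ∧ sd ψ r 10 < NS ψ := by
        unfold sb sd
        split_ifs <;> omega
      have k2 := (kind_six (ψ := ψ) (r := r) b1.2).2 ⟨r2, b1.1, le_rfl⟩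
      have k3 := kind_six (ψ := ψ) (r := r) hs
      have c1 := clock_ok _ (kind_lt r (sb ψ r 10)) _ (hst.2 r _).1
      have c2 := clock_ok _ (kind_lt r (sd ψ r 10)) _ (hst.2 r _).1
      have c3 := clock_ok _ (kind_lt r s) _ (hst.2 r _).1
      rw [if_pos k2] at c2
      unfold ct
      split_ifs at c3 <;> omega
    · obtain ⟨a1, a2, a3⟩ := kind_long hS (not_lt.1 fun c => h10 (h3.2 c)) h1 hl h10
      have k1 := (a3 _).2.1 rfl
      have k2 := (a3 _).2.2.2.1 rfl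
      have k3 := a3 s
      have c1 := (long_ok _ (kind_lt r (sb ψ r j)) _ (hst.2 r _).1 j j43 hl h10).2.1 k1
      have c2 := (long_ok _ (kind_lt r (sd ψ r j)) _ (hst.2 r _).1 j j43 hl h10).2.2.2.1 k2
      have c3 := long_ok _ (kind_lt r s) _ (hst.2 r _).1 j j43 hl h10
      have c4 := bph_lt_dph hl
      unfold ct
      rcases eq_or_ne s (sb ψ r j) with rfl | n1
      · omega
      rcases eq_or_ne s (sd ψ r j) with rfl | n2
      · omega
      omega

theorem core_cv (hst : StOK ψ fs st) {r s j : ℕ} (hc : isC j = true) (hr : r < NR ψ)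
    (hs : s < NS ψ) (h : ed (ct ψ st r s) j ≠ 0) :
    (Sum.inr (r, own j s, j) : V) ∈ coreS q ψ := by
  have j43 : j < 43 := by have := isC_iff.1 hc; omega
  unfold ct at h
  cases hl : isL j
  · have e : own j s = s := by simp [own, hl]
    rw [e, core_short hc hl]
    refine ⟨hr, hs, ?_⟩
    by_contra c
    exact h ((short_ok _ (kind_lt r s) _ (hst.2 r s).1 j j43 hc hl).1 (by simpa using c))
  · rw [core_long hl]
    refine ⟨hr, by simp [own, hl], ?_, fun r2 => ?_⟩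
    · rintro rfl
      have c3 := clock_ok _ (kind_lt r s) _ (hst.2 r s).1
      split_ifs at c3 with k
      · exact ((kind_six hs).1 k).1
      · exact absurd c3.2.1 h
    · by_contra h10
      have c3 := (long_ok _ (kind_lt r s) _ (hst.2 r _).1 j j43 hl h10).1
      have c4 := bph_lt_dph hl
      have := kind_clock (ψ := ψ) (s := s) r2
      omega

theorem bd_bound (hS : Sorted ψ) (hst : StOK ψ fs st) {w : ℕ × ℕ × ℕ}
    (h : (Sum.inr w : V) ∈ coreS q ψ) : 1 ≤ bc ψ fs st w ∧ bc ψ fs st w < dc ψ fs st w ∧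
      dc ψ fs st w ≤ 1 + 64 * NS ψ ∧ off w < MM ψ := by
  obtain ⟨r, o, j⟩ := w
  rcases core_cases h with ⟨hj, h1, h2⟩ | ⟨hc, h1⟩
  · obtain ⟨e1, e2⟩ := bc_om (ψ := ψ) (fs := fs) (st := st) (r := r) (o := o) hj
    rw [e1, e2]
    unfold off MM
    dsimp only
    split_ifs <;> omega
  · obtain ⟨s1, s2, a⟩ := cell_bd hS hst h hc
    unfold off MM
    dsimp only
    split_ifs <;> omega

theorem MM_pos : 0 < MM ψ := by unfold MM; omega

/-- The coarse time seen by a bar. -/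
def tm (q : ℕ) (ψ : List (Clause3 ℕ)) (f n : ℕ) : ℕ := (n - (NE q ψ + f)) / MM ψ

theorem dal_inr {w : ℕ × ℕ × ℕ} (h : 1 ≤ bc ψ fs st w) {n : ℕ} :
    DAl (bt q ψ fs st) (dt q ψ fs st) (.inr w) n ↔
      bc ψ fs st w ≤ tm q ψ (off w) n ∧ tm q ψ (off w) n < dc ψ fs st w := by
  have h1 : MM ψ ≤ bc ψ fs st w * MM ψ := Nat.le_mul_of_pos_left _ h
  have h2 := MM_pos (ψ := ψ)
  simp only [DAl, bt, dt, Sum.elim_inr, tm, Nat.le_div_iff_mul_le h2, Nat.div_lt_iff_lt_mul h2]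
  omega

/-- The time at which all bars see the coarse time `c`. -/
def sync (q : ℕ) (ψ : List (Clause3 ℕ)) (c : ℕ) : ℕ := NE q ψ + c * MM ψ + (MM ψ - 1)

theorem tm_sync {f c : ℕ} (h : f < MM ψ) : tm q ψ f (sync q ψ c) = c := by
  have e : sync q ψ c - (NE q ψ + f) = (MM ψ - 1 - f) + c * MM ψ := by
    unfold sync
    omega
  rw [tm, e, Nat.add_mul_div_right _ _ MM_pos, Nat.div_eq_of_lt (by omega), zero_add]

theorem dal_inl {i n : ℕ} : DAl (bt q ψ fs st) (dt q ψ fs st) (.inl i) n ↔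
    i ≤ n ∧ n < NE q ψ + (64 * NS ψ + 2) * MM ψ + i := Iff.rfl

theorem dal_range (hS : Sorted ψ) (hst : StOK ψ fs st) {w : ℕ × ℕ × ℕ}
    (h : (Sum.inr w : V) ∈ coreS q ψ) {n : ℕ}
    (ha : DAl (bt q ψ fs st) (dt q ψ fs st) (.inr w) n) :
    NE q ψ ≤ n ∧ n < NE q ψ + (64 * NS ψ + 2) * MM ψ := by
  obtain ⟨a1, a2, a3, a4⟩ := bd_bound hS hst h
  have b1 : NE q ψ + bc ψ fs st w * MM ψ + off w ≤ n := ha.1
  have b2 : n < NE q ψ + dc ψ fs st w * MM ψ + off w := ha.2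
  have b3 := Nat.mul_le_mul_right (MM ψ) a3
  have e : (64 * NS ψ + 2) * MM ψ = (1 + 64 * NS ψ) * MM ψ + MM ψ := by ring
  omega

theorem dal_sync (hS : Sorted ψ) (hst : StOK ψ fs st) {w : ℕ × ℕ × ℕ}
    (h : (Sum.inr w : V) ∈ coreS q ψ) {c : ℕ} :
    DAl (bt q ψ fs st) (dt q ψ fs st) (.inr w) (sync q ψ c) ↔
      bc ψ fs st w ≤ c ∧ c < dc ψ fs st w := by
  obtain ⟨a1, -, -, a4⟩ := bd_bound hS hst h
  rw [dal_inr a1, tm_sync a4]

theorem dal_sync_inl {i c : ℕ} (hi : i < NE q ψ) (hc : c ≤ 64 * NS ψ + 1) :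
    DAl (bt q ψ fs st) (dt q ψ fs st) (.inl i) (sync q ψ c) := by
  have b3 := Nat.mul_le_mul_right (MM ψ) hc
  have e : (64 * NS ψ + 2) * MM ψ = (64 * NS ψ + 1) * MM ψ + MM ψ := by ring
  have := MM_pos (ψ := ψ)
  rw [dal_inl, sync]
  omega

end Pool.Agent.Lib.MP_0d8e88_lc.AllK
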