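import Pool.Agent.Lib.MP_0d8e88_lc.AllK.Cons
import Pool.Agent.Lib.MP_0d8e88_lc.AllK.GoodK

/-!
Positions in a pin, and the non-adjacencies of its head.
-/

namespace Pool.Agent.Lib.MP_0d8e88_lc.AllK

open Pool.Agent.Shared.PolyTime

section walk

variable {α : Type} {q : ℕ} {f : ℕ → List α}

theorem walk_get (hf : ∀ z, (f z).length = if isZ z then q else 1) :
    ∀ (L : List ℕ) (a c e : ℕ) (pre : List α), pre.length = a + c * q →
      ∀ w ∈ walk L a c e, ∀ i < (f w.1).length,
        (pre ++ L.flatMap f)[w.2.1 + w.2.2.1 * q + i]? = (f w.1)[i]? := by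
  intro L
  induction L with
  | nil => simp [walk]
  | cons z L ih =>
    intro a c e pre hp w hw i hi
    rw [walk, List.mem_cons] at hw
    rcases hw with rfl | hw
    · simp only [List.flatMap_cons] at hi ⊢
      rw [← hp, List.getElem?_append_right (by omega), Nat.add_sub_cancel_left,
        List.getElem?_append_left hi]
    · rw [List.flatMap_cons, ← List.append_assoc]
      have := hf z
      split_ifs at hw this
      · exact ih _ _ _ _ (by rw [List.length_append, hp, this]; ring) w hw i hi
      · exact ih _ _ _ _ (by rw [List.length_append, hp, this]; ring) w hw i hi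

theorem walk_cover (hf : ∀ z, (f z).length = if isZ z then q else 1) :
    ∀ (L : List ℕ) (a c e i : ℕ), a + c * q ≤ i → i < a + c * q + (L.flatMap f).length →
      ∃ w ∈ walk L a c e, ∃ i' < (f w.1).length, i = w.2.1 + w.2.2.1 * q + i' := by
  intro L
  induction L with
  | nil =>
    intro a c e i h1 h2
    simp at h2
    omega
  | cons z L ih =>
    intro a c e i h1 h2
    rw [List.flatMap_cons, List.length_append] at h2
    by_cases h : i < a + c * q + (f z).length
    · exact ⟨(z, a, c, e), by simp [walk], i - (a + c * q), by simp only; omega,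
        by simp only; omega⟩
    · have := hf z
      rw [walk]
      split_ifs at this ⊢
      · obtain ⟨w, w1, w2⟩ := ih a (c + 1) e i (by rw [Nat.succ_mul]; omega)
          (by rw [Nat.succ_mul]; omega)
        exact ⟨w, List.mem_cons_of_mem _ w1, w2⟩
      · obtain ⟨w, w1, w2⟩ := ih (a + 1) c (e + (isE z).toNat) i (by omega) (by omega)
        exact ⟨w, List.mem_cons_of_mem _ w1, w2⟩

theorem walk_ge : ∀ (L : List ℕ) (a c e : ℕ), ∀ w ∈ walk L a c e, a ≤ w.2.1 := by
  intro L
  induction L with
  | nil => simp [walk]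
  | cons z L ih =>
    intro a c e w hw
    rw [walk, List.mem_cons] at hw
    rcases hw with rfl | hw
    · exact le_rfl
    · split_ifs at hw
      · exact ih _ _ _ w hw
      · exact (Nat.le_succ a).trans (ih _ _ _ w hw)

theorem inB_le {w : ℕ × ℕ × ℕ × ℕ} (h : inB w = true) {i : ℕ}
    (hi : i < if isZ w.1 then q else 1) : w.2.1 + w.2.2.1 * q + i ≤ q + 2 := by
  unfold inB at h
  split_ifs at h hi <;> simp only [Bool.and_eq_true, Nat.ble_eq, beq_iff_eq] at h
  · rw [h.2]
    omega
  · have := Nat.mul_le_mul_right q h.2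
    omega

theorem incl_lt {w : ℕ × ℕ × ℕ × ℕ} (h : incl w = true) {i : ℕ}
    (hi : i < if isZ w.1 then q else 1) : w.2.1 + w.2.2.1 * q + i < 2 * q + 4 := by
  unfold incl at h
  split_ifs at h hi <;> simp only [Bool.and_eq_true, Nat.ble_eq] at h <;>
    have := Nat.mul_le_mul_right q h.2 <;> omega

theorem outs_ge {w : ℕ × ℕ × ℕ × ℕ} (h : outs w = true) :
    2 * q + 4 ≤ w.2.1 + w.2.2.1 * q := by
  simp only [outs, Bool.and_eq_true, Nat.ble_eq] at h
  have := Nat.mul_le_mul_right q h.2
  omega

theorem inP_ge {w : ℕ × ℕ × ℕ × ℕ} (h : inP w = true) :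
    q + 3 ≤ w.2.1 + w.2.2.1 * q ∧ incl w = true := by
  simp only [inP, Bool.and_eq_true, Nat.ble_eq, beq_iff_eq, Bool.not_eq_true'] at h
  have := Nat.mul_le_mul_right q h.1.2
  refine ⟨by omega, ?_⟩
  simp only [incl, h.1.1.1, Bool.false_eq_true, if_false, Bool.and_eq_true, Nat.ble_eq]
  omega

end walk

variable {q : ℕ} {ψ : List (Clause3 ℕ)}

/-- The vertices of a symbol in the direction of the pin. -/
def syd (q : ℕ) (ψ : List (Clause3 ℕ)) (r s : ℕ) (up : Bool) (j : ℕ) : List V :=
  if up then sy q ψ r s j else (sy q ψ r s j).reverse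

theorem flat_eq (r s : ℕ) (P : Bool × List ℕ) :
    flat q ψ r s P = P.2.flatMap (syd q ψ r s P.1) := rfl

theorem sy_len (r s z : ℕ) : (sy q ψ r s z).length = if isZ z then q else 1 := by
  unfold sy
  split_ifs <;> simp

theorem syd_len (r s : ℕ) (up : Bool) (z : ℕ) :
    (syd q ψ r s up z).length = if isZ z then q else 1 := by
  unfold syd
  split_ifs <;> simp [sy_len, *]

theorem mem_syd {r s : ℕ} {up : Bool} {z : ℕ} {v : V} :
    v ∈ syd q ψ r s up z ↔ v ∈ sy q ψ r s z := by
  unfold syd
  split_ifs <;> simp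

theorem sy_cv {r s z : ℕ} (h : et z = false) : sy q ψ r s z = [cv ψ r s z] := by
  simp only [et, Bool.or_eq_false_iff] at h
  simp [sy, h.1, h.2]

theorem syd_get {r s : ℕ} {up : Bool} {z i : ℕ} {v : V} (h : (syd q ψ r s up z)[i]? = some v) :
    (isZ z = true ∧ isE z = false ∧ i < q ∧
      v = .inl (r * (3 * q + 4) + pos q z + if up then i else q - 1 - i)) ∨
    (isZ z = false ∧ isE z = true ∧ i = 0 ∧ v = .inl (r * (3 * q + 4) + pos q z)) ∨
    (isZ z = false ∧ isE z = false ∧ i = 0 ∧ v = cv ψ r s z) := by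
  have hi : i < if isZ z then q else 1 := by
    rw [← syd_len (ψ := ψ) r s up z]
    exact (List.getElem?_eq_some_iff.1 h).1
  have m := mem_syd.1 (List.mem_of_getElem? h)
  by_cases c : isZ z = true
  · left
    rw [if_pos c] at hi
    refine ⟨c, ?_, hi, ?_⟩
    · simp only [isZ, Bool.or_eq_true, beq_iff_eq] at c
      rcases c with (((rfl | rfl) | rfl) | rfl) | rfl <;> rfl
    · cases up
      · simp only [syd, sy, c, if_true, Bool.false_eq_true, if_false] at h ⊢
        rw [List.getElem?_reverse (by simpa using hi)] at h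
        simp only [List.length_map, List.length_range, List.getElem?_map,
          List.getElem?_range (show q - 1 - i < q by omega), Option.map_some,
          Option.some.injEq] at h
        exact h.symm
      · simp only [syd, sy, c, if_true, List.getElem?_map, List.getElem?_range hi,
          Option.map_some, Option.some.injEq] at h ⊢
        exact h.symm
  · right
    rw [if_neg c] at hi
    by_cases d : isE z = true
    · left
      simp only [sy, c, d, if_true, Bool.false_eq_true, if_false, List.mem_singleton] at m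
      exact ⟨by simpa using c, d, by omega, m⟩
    · right
      simp only [sy, c, d, Bool.false_eq_true, if_false, List.mem_singleton] at m
      exact ⟨by simpa using c, by simpa using d, by omega, m⟩

theorem isC_iffB {j : ℕ} : isC j = true ↔ (7 ≤ j ∧ j ≤ 14) ∨ (16 ≤ j ∧ j ≤ 35) := by
  simp [isC]

theorem cv_cell {j : ℕ} (h : isC j = true) (r s : ℕ) : cv ψ r s j = .inr (r, own j s, j) := by
  rw [isC_iffB] at h
  rw [cv, if_neg (by omega), if_neg (by omega)]

theorem isC_etB : ∀ j < 43, isC j = true → et j = false := by decide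

theorem isC_lt {j : ℕ} (h : isC j = true) : j < 43 := by
  rw [isC_iffB] at h
  omega

theorem gv_cv (r s z : ℕ) : gv q (cv ψ r s z) = 2 * (r * (3 * q + 4) + pos q z) := by
  have p2 : pos q 2 = 2 + 1 * q := rfl
  have p3 : pos q 3 = 2 + 1 * q := rfl
  have p39 : pos q 39 = 6 + 4 * q := rfl
  have p40 : pos q 40 = 6 + 4 * q := rfl
  have e : ∀ x, pos q (2 + x % 2) = 2 + 1 * q := by
    intro x
    rcases Nat.mod_two_eq_zero_or_one x with h | h <;> rw [h] <;> rfl
  unfold cv
  split_ifs with h1 h2
  · simp only [gv, Sum.elim_inr, e]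
    rcases h1 with rfl | rfl <;> omega
  · simp only [gv, Sum.elim_inr, e, Nat.succ_mul]
    rcases h2 with rfl | rfl <;> omega
  · rfl

theorem gap_comm (u v : V) : gap q u v = gap q v u := by
  unfold gap
  omega

theorem adj_gap {w : ℕ × ℕ × ℕ} {v : V} (h : adjC q ψ (.inr w) v) : gap q (.inr w) v ≤ q + 1 := by
  rcases v with n | w'
  · exact h.1
  · rcases h with ⟨-, s, -, -, -, -, h⟩ | ⟨-, s, -, -, -, -, h⟩
    · omega
    · rw [gap_comm]
      omega

theorem cls_eq {z r n : ℕ} (hz : et z = true) (h1 : r * (3 * q + 4) + pos q z ≤ n)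
    (h2 : n < r * (3 * q + 4) + pos q z + if isZ z then q else 1) : cls q r n = clsS z := by
  have p15 : pos q 15 = 4 + 2 * q := rfl
  have p36 : pos q 36 = 4 + 3 * q := rfl
  unfold cls clsS
  rw [if_pos hz, p15, p36]
  simp only [et, isZ, isE, Bool.or_eq_true, beq_iff_eq] at hz
  rcases hz with ((((rfl | rfl) | rfl) | rfl) | rfl) | (((((rfl | rfl) | rfl) | rfl) | rfl) | rfl) <;>
    simp [pos, ea, ec, isZ] at h1 h2 <;> split_ifs <;> omega

theorem own_eq {j s s' : ℕ} (h : own j s' = own j s) (hj : isL j = false) : s' = s := by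
  simpa [own, hj] using h

theorem tight_sound {r s j : ℕ} (hj : isC j = true) {up : Bool} {w : ℕ × ℕ × ℕ × ℕ}
    (ht : tight (kind ψ r s) up j w = true) {i : ℕ} {v : V}
    (hv : (syd q ψ r s up w.1)[i]? = some v) (h1 : q + 3 ≤ w.2.1 + w.2.2.1 * q + i)
    (h2 : w.2.1 + w.2.2.1 * q + i < 2 * q + 4) : ¬adjC q ψ (cv ψ r s j) v := by
  have hi : i < if isZ w.1 then q else 1 := by
    rw [← syd_len (ψ := ψ) r s up w.1]
    exact (List.getElem?_eq_some_iff.1 hv).1
  simp only [tight, Bool.or_eq_true, Bool.and_eq_true] at ht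
  rcases ht with (ht | ht) | ⟨g, ht⟩
  · have := inB_le ht hi
    omega
  · have := outs_ge (q := q) ht
    omega
  obtain ⟨z, a, c, e⟩ := w
  simp only at *
  intro A
  have gu := gv_cv (q := q) (ψ := ψ) r s j
  have gz := gv_cv (q := q) (ψ := ψ) r s z
  have cs := syd_get hv
  simp only [geom, Bool.and_eq_true, Nat.blt_eq] at g
  obtain ⟨⟨g1, g2⟩, g3⟩ := g
  have hg : gap q (cv ψ r s j) v = e + c * q + i := by
    unfold gap
    rw [gu]
    cases up
    · simp only [Bool.false_eq_true, if_false, Bool.and_eq_true, beq_iff_eq] at g3 cs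
      rcases cs with ⟨c1, c2, c3, rfl⟩ | ⟨c1, c2, c3, rfl⟩ | ⟨c1, c2, c3, rfl⟩ <;>
        simp only [c1, c2, Bool.toNat_true, Bool.toNat_false] at g3
      · simp only [gv, Sum.elim_inl, pos, g3.1, g3.2, Nat.add_mul]
        omega
      · simp only [gv, Sum.elim_inl, pos, g3.1, g3.2, Nat.add_mul]
        omega
      · simp only [gz, pos, g3.1, g3.2, Nat.add_mul]
        omega
    · simp only [if_true, Bool.and_eq_true, beq_iff_eq] at g3 cs
      rcases cs with ⟨c1, c2, c3, rfl⟩ | ⟨c1, c2, c3, rfl⟩ | ⟨c1, c2, c3, rfl⟩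
      · simp only [gv, Sum.elim_inl, pos, g3.1, g3.2, Nat.add_mul]
        omega
      · simp only [gv, Sum.elim_inl, pos, g3.1, g3.2, Nat.add_mul]
        omega
      · simp only [gz, pos, g3.1, g3.2, Nat.add_mul]
        omega
  rw [cv_cell hj] at A hg
  rcases ht with ht | ⟨hz, ht⟩
  · have := adj_gap A
    simp only [Nat.ble_eq] at ht
    have := Nat.mul_le_mul_right q ht.2
    omega
  have key : ∀ s', own j s' = own j s → (et z = false → own z s' = own z s) →
      DD (kind ψ r s') j (clsS z) < 9 →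
      ¬DD (kind ψ r s') j (clsS z) + (e + c * q + i) ≤ q + 1 := by
    intro s' o1 o2 d1 d2
    have : dge (kind ψ r s') j (clsS z) (a - 1 - e) = true := by
      split_ifs at ht with t
      · exact List.all_eq_true.1 ht _ (List.mem_range.2 (kind_lt r s'))
      · rw [show s' = s from ?_]
        · exact ht
        · cases l1 : isL j
          · exact own_eq o1 l1
          · simp only [l1, true_and, not_or, Bool.not_eq_true] at t
            exact own_eq (o2 t.2) t.1
    simp only [dge, Bool.or_eq_true, Nat.ble_eq] at this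
    omega
  have ee : ∀ n, et z = true → r * (3 * q + 4) + pos q z ≤ n →
      (n < r * (3 * q + 4) + pos q z + if isZ z then q else 1) → v ≠ .inl n := by
    rintro n e1 e2 e3 rfl
    obtain ⟨-, A | ⟨s', -, A1, A2, A3⟩⟩ := A
    · rw [isC_iffB] at hj
      simp only at A
      omega
    · simp only [cls_eq e1 e2 e3, hg] at A1 A2 A3
      exact key s' A1 (by simp [e1]) A2 A3
  rcases cs with ⟨c1, c2, c3, c4⟩ | ⟨c1, c2, c3, c4⟩ | ⟨c1, c2, c3, rfl⟩
  · refine ee _ (by simp [et, c1]) (Nat.le_add_right _ _) ?_ c4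
    rw [if_pos c1]
    split_ifs <;> omega
  · exact ee _ (by simp [et, c2]) le_rfl (by simp [c1]) c4
  · have e0 : et z = false := by simp [et, c1, c2]
    have hc : isC z = true := by simpa [e0] using hz
    have e1 : clsS z = z := by simp [clsS, e0]
    rw [cv_cell hc] at A hg
    rw [e1] at key
    rcases A with ⟨-, s', -, A1, A2, A3, A4⟩ | ⟨-, s', -, A1, A2, A3, A4⟩
    · rw [hg] at A4
      exact key s' A1 (fun _ => A2) A3 A4
    · rw [gap_comm, hg] at A4
      have := ((DD_ok _ (kind_lt (ψ := ψ) r s') j (isC_lt hj)).2 z g1).2 hj hc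
      simp only at A3 A4
      rw [← this] at A3 A4
      exact key s' A2 (fun _ => A1) A3 A4

end Pool.Agent.Lib.MP_0d8e88_lc.AllK
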