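import Pool.Agent.Lib.MP_0d8e88_lc.AllK.Ord

/-!
The wires do not cross, and the clocks order the slabs.
-/

namespace Pool.Agent.Lib.MP_0d8e88_lc.AllK

open Pool.Agent.Shared.PolyTime

variable {q : ℕ} {ψ : List (Clause3 ℕ)} {h lf rt τ : V → ℝ}

/-- The vertex of a symbol that is not a block. -/
def one (q : ℕ) (ψ : List (Clause3 ℕ)) (r s z : ℕ) : V :=
  if isE z then .inl (r * (3 * q + 4) + pos q z) else cv ψ r s z

theorem sy_one {r s z : ℕ} (hz : isZ z = false) : sy q ψ r s z = [one q ψ r s z] := by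
  unfold sy one
  rw [if_neg (by simp [hz])]
  split_ifs <;> rfl

theorem mem_pin {r s p z : ℕ} (hi : inc (kind ψ r s) p z = true) {v : V}
    (hv : v ∈ sy q ψ r s z) : v ∈ pinP q ψ (.inr (r, s, p)) := by
  simp only [inc, List.any_eq_true, Bool.and_eq_true, beq_iff_eq] at hi
  obtain ⟨w, w1, rfl, w2⟩ := hi
  obtain ⟨i, hi, rfl⟩ := List.getElem_of_mem (mem_syd (up := (pin (kind ψ r s) p).1).2 hv)
  have a := walk_get (syd_len (q := q) (ψ := ψ) r s (pin (kind ψ r s) p).1) _ 0 0 0 [] (by simp)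
    w w1 i hi
  have b := incl_lt (q := q) w2 (syd_len (q := q) (ψ := ψ) r s _ w.1 ▸ hi)
  rw [List.nil_append, List.getElem?_eq_getElem hi] at a
  simp only [pinP, Sum.elim_inr, flat_eq]
  refine List.mem_of_getElem? (i := w.2.1 + w.2.2.1 * q + i) ?_
  rw [List.getElem?_take, if_pos b, a]

theorem pin_sy {r s p : ℕ} {v : V} (hv : v ∈ pinP q ψ (.inr (r, s, p))) :
    ∃ z ∈ (pin (kind ψ r s) p).2, v ∈ sy q ψ r s z := by
  obtain ⟨z, z1, z2⟩ := List.mem_flatMap.1 (List.mem_of_mem_take hv)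
  exact ⟨z, z1, mem_syd.1 z2⟩

theorem sy_inr {r s z : ℕ} {w : ℕ × ℕ × ℕ} (hv : Sum.inr w ∈ sy q ψ r s z) :
    ((z = 2 ∨ z = 3) ∧ w = (r, s, 2 + (z + flp ψ r s) % 2)) ∨
    ((z = 39 ∨ z = 40) ∧ w = (r + 1, s, 2 + (z + 1 + flp ψ r s) % 2)) ∨
    (¬(z = 2 ∨ z = 3) ∧ w = (r, own z s, z)) := by
  unfold sy cv at hv
  split_ifs at hv with c1 c2 c3 c4
  · simp at hv
  · simp at hv
  · exact Or.inl ⟨c3, by simpa using hv⟩
  · exact Or.inr (Or.inl ⟨c4, by simpa using hv⟩)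
  · exact Or.inr (Or.inr ⟨c3, by simpa using hv⟩)

theorem not_mem_code {r s p r' o z : ℕ} (hz : isC z = true) (hn : z ∉ (pin (kind ψ r s) p).2) :
    Sum.inr (r', o, z) ∉ pinP q ψ (.inr (r, s, p)) := by
  intro c
  obtain ⟨y, y1, y2⟩ := pin_sy c
  rw [isC_iffB] at hz
  rcases sy_inr y2 with ⟨-, e⟩ | ⟨-, e⟩ | ⟨-, e⟩ <;> simp only [Prod.mk.injEq] at e
  · omega
  · omega
  · exact hn (e.2.2 ▸ y1)

theorem inc_pinI {r s p z : ℕ} (hr : r < NR ψ) (hs : s < NS ψ)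
    (hi : inc (kind ψ r s) p z = true) : Sum.inr (r, s, p) ∈ pinI q ψ :=
  mem_pinI hr hs fun e => by simp [inc, e, walk] at hi

/-- The data used in the backward direction. -/
structure Cx (q : ℕ) (ψ : List (Clause3 ℕ)) (h lf rt τ : V → ℝ) : Prop where
  PF : PinF q ψ
  G : Gd q ψ h lf rt τ
  U : Up q ψ h

theorem Cx.al (X : Cx q ψ h lf rt τ) {r s κ : ℕ} (hr : r < NR ψ) (hs : s < NS ψ)
    (hk : kind ψ r s = κ) (p z : ℕ) (hi : inc κ p z = true) (hz : isZ z = false) :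
    Al lf rt (one q ψ r s z) (τ (.inr (r, s, p))) := by
  subst hk
  exact X.G.mem _ (inc_pinI hr hs hi) _ (mem_pin hi (by simp [sy_one hz]))

theorem Cx.core (X : Cx q ψ h lf rt τ) {r s κ : ℕ} (hr : r < NR ψ) (hs : s < NS ψ)
    (hk : kind ψ r s = κ) (p z : ℕ) (hi : inc κ p z = true) (hz : isZ z = false) :
    one q ψ r s z ∈ coreS q ψ := by
  subst hk
  exact (X.PF _ (inc_pinI hr hs hi)).2.2 _ (mem_pin hi (by simp [sy_one hz]))

theorem Cx.lt (X : Cx q ψ h lf rt τ) {r s κ : ℕ} (hr : r < NR ψ) (hs : s < NS ψ)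
    (hk : kind ψ r s = κ) (x y : ℕ) (hi : lt κ x y = true) (hx : isZ x = false)
    (hy : isZ y = false) : h (one q ψ r s x) < h (one q ψ r s y) := by
  subst hk
  exact lt_sound X.PF X.G X.U hr hs hi _ (by simp [sy_one hx]) _ (by simp [sy_one hy])

/-- A core vertex outside a pin whose height is in the range of the pin is dead. -/
theorem Cx.dead (X : Cx q ψ h lf rt τ) {p : V} (hp : p ∈ pinI q ψ) {w a b : V}
    (hw : w ∈ coreS q ψ) (hn : w ∉ pinP q ψ p) (ha : a ∈ pinP q ψ p) (hb : b ∈ pinP q ψ p)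
    (h1 : h a ≤ h w) (h2 : h w ≤ h b) : ¬Al lf rt w (τ p) := by
  intro c
  rcases h1.lt_or_eq with h1 | h1
  · rcases h2.lt_or_eq with h2 | h2
    · exact X.G.out p hp w hw hn a ha b hb h1 h2 c
    · exact X.G.disj w hw b ((X.PF p hp).2.2 b hb) (fun e => hn (e ▸ hb)) _ c
        (X.G.mem p hp b hb) h2
  · exact X.G.disj w hw a ((X.PF p hp).2.2 a ha) (fun e => hn (e ▸ ha)) _ c
      (X.G.mem p hp a ha) h1.symm

/-- The bars of a wire in a cell. -/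
def bar (q : ℕ) (ψ : List (Clause3 ℕ)) (r s ρ i : ℕ) : V := one q ψ r s (sq (kind ψ r s) ρ i)

set_option synthInstance.maxSize 2000 in
theorem sq_ok : ∀ κ < 7, ∀ ρ < 2, ∀ i < 6, isZ (sq κ ρ i) = false ∧ isE (sq κ ρ i) = false := by
  decide +kernel

theorem bar_mem {r s ρ i : ℕ} (hρ : ρ < 2) (hi : i < 5) :
    bar q ψ r s ρ i ∈ pinP q ψ (.inr (r, s, 5 * ρ + i)) ∧
      bar q ψ r s ρ (i + 1) ∈ pinP q ψ (.inr (r, s, 5 * ρ + i)) := by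
  have a := (link_ok _ (kind_lt (ψ := ψ) r s) ρ hρ).2.1 i hi
  have b := sq_ok _ (kind_lt (ψ := ψ) r s) ρ hρ
  exact ⟨mem_pin a.1 (by simp [sy_one (b i (by omega)).1, bar]),
    mem_pin a.2.1 (by simp [sy_one (b (i + 1) (by omega)).1, bar])⟩

theorem link_pinI {r s ρ i : ℕ} (hr : r < NR ψ) (hs : s < NS ψ) (hρ : ρ < 2) (hi : i < 5) :
    Sum.inr (r, s, 5 * ρ + i) ∈ pinI q ψ :=
  inc_pinI hr hs ((link_ok _ (kind_lt (ψ := ψ) r s) ρ hρ).2.1 i hi).1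

theorem bar_cell {r s ρ i : ℕ} (hρ : ρ < 2) (hi : i < 4) :
    bar q ψ r s ρ (i + 1) = .inr (r, s, sq (kind ψ r s) ρ (i + 1)) := by
  have a := (link_ok _ (kind_lt (ψ := ψ) r s) ρ hρ).2.2 i hi
  have b := sq_ok _ (kind_lt (ψ := ψ) r s) ρ hρ (i + 1) (by omega)
  simp [bar, one, b.2, cv_cell a.1, own, a.2.1]

theorem bar_zero {r s ρ : ℕ} (hρ : ρ < 2) :
    bar q ψ r s ρ 0 = .inr (r, s, 2 + (ρ + flp ψ r s) % 2) := by
  rw [bar, (link_ok _ (kind_lt (ψ := ψ) r s) ρ hρ).1.1]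
  interval_cases ρ
  · simp [one, isE, cv]
  · simp only [one, isE, cv]
    simp
    omega

theorem bar_five {r s ρ : ℕ} (hρ : ρ < 2) :
    bar q ψ r s ρ 5 = .inr (r + 1, s, 2 + (ρ + flp ψ r s) % 2) := by
  rw [bar, (link_ok _ (kind_lt (ψ := ψ) r s) ρ hρ).1.2.1]
  interval_cases ρ
  · simp only [one, isE, cv]
    simp
    omega
  · simp only [one, isE, cv]
    simp
    omega

theorem Cx.bar_le (X : Cx q ψ h lf rt τ) {r s ρ i : ℕ} (hr : r < NR ψ) (hs : s < NS ψ)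
    (hρ : ρ < 2) (hi : i < 5) : h (bar q ψ r s ρ i) ≤ h (bar q ψ r s ρ (i + 1)) := by
  have b := sq_ok _ (kind_lt (ψ := ψ) r s) ρ hρ
  rcases ((link_ok _ (kind_lt (ψ := ψ) r s) ρ hρ).2.1 i hi).2.2.1 with a | a
  · rw [bar, bar, a]
  · exact (X.lt hr hs rfl _ _ a (b i (by omega)).1 (b (i + 1) (by omega)).1).le

theorem Cx.bar_in (X : Cx q ψ h lf rt τ) {r s ρ i : ℕ} (hr : r < NR ψ) (hs : s < NS ψ)
    (hρ : ρ < 2) (hi : i < 4) : h (one q ψ r 0 6) < h (bar q ψ r s ρ (i + 1)) ∧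
      h (bar q ψ r s ρ (i + 1)) < h (one q ψ r 0 36) := by
  have a := (link_ok _ (kind_lt (ψ := ψ) r s) ρ hρ).2.2 i hi
  have b := sq_ok _ (kind_lt (ψ := ψ) r s) ρ hρ (i + 1) (by omega)
  exact ⟨X.lt hr hs rfl 6 _ a.2.2.2.1 rfl b.1, X.lt hr hs rfl _ 36 a.2.2.2.2.1 b.1 rfl⟩

theorem Cx.bar_out (X : Cx q ψ h lf rt τ) {r s ρ : ℕ} (hr : r < NR ψ) (hs : s < NS ψ)
    (hρ : ρ < 2) : h (bar q ψ r s ρ 0) < h (one q ψ r 0 6) ∧
      h (one q ψ r 0 36) < h (bar q ψ r s ρ 5) := by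
  have a := (link_ok _ (kind_lt (ψ := ψ) r s) ρ hρ).1
  have b := sq_ok _ (kind_lt (ψ := ψ) r s) ρ hρ
  exact ⟨X.lt hr hs rfl _ 6 (a.1 ▸ a.2.2.1) (b 0 (by omega)).1 rfl,
    X.lt hr hs rfl 36 _ (a.2.1 ▸ a.2.2.2) rfl (b 5 (by omega)).1⟩

/-- The bars of the wire of the side `d` of the slab `s`. -/
def wx (q : ℕ) (ψ : List (Clause3 ℕ)) (s d n : ℕ) : V :=
  if n % 5 = 0 then .inr (n / 5, s, 2 + d) else bar q ψ (n / 5) s ((d + flp ψ (n / 5) s) % 2) (n % 5)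

/-- The pins of this wire. -/
def wp (ψ : List (Clause3 ℕ)) (s d n : ℕ) : V :=
  .inr (n / 5, s, 5 * ((d + flp ψ (n / 5) s) % 2) + n % 5)

theorem wx_eq {s d : ℕ} (hd : d < 2) (n : ℕ) :
    wx q ψ s d n = bar q ψ (n / 5) s ((d + flp ψ (n / 5) s) % 2) (n % 5) ∧
    wx q ψ s d (n + 1) = bar q ψ (n / 5) s ((d + flp ψ (n / 5) s) % 2) (n % 5 + 1) := by
  have hρ : ∀ r, (d + flp ψ r s) % 2 < 2 := fun r => Nat.mod_lt _ (by omega)
  have e : ∀ r, ((d + flp ψ r s) % 2 + flp ψ r s) % 2 = d := fun r => by omega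
  constructor
  · unfold wx
    split_ifs with c
    · rw [c, bar_zero (hρ _), e]
    · rfl
  · unfold wx
    split_ifs with c
    · rw [show n % 5 + 1 = 5 by omega, bar_five (hρ _), e, show (n + 1) / 5 = n / 5 + 1 by omega]
    · rw [show (n + 1) / 5 = n / 5 by omega, show (n + 1) % 5 = n % 5 + 1 by omega]

theorem wx_not_mem {s d s' d' : ℕ} (hd : d < 2) (hd' : d' < 2) (hn : ¬(s = s' ∧ d = d'))
    (n m : ℕ) : wx q ψ s' d' m ∉ pinP q ψ (wp ψ s d n) := by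
  intro c
  obtain ⟨z, z1, z2⟩ := pin_sy c
  have z3 := ((link_ok _ (kind_lt (ψ := ψ) (n / 5) s) _
    (Nat.mod_lt (d + flp ψ (n / 5) s) (by omega))).2.1 (n % 5) (Nat.mod_lt _ (by omega))).2.2.2 z z1
  have r2 : rl 2 = 0 := rfl
  have r3 : rl 3 = 1 := rfl
  have r39 : rl 39 = 0 := rfl
  have r40 : rl 40 = 1 := rfl
  unfold wx at z2
  split_ifs at z2 with e
  · rcases sy_inr z2 with ⟨rfl | rfl, a⟩ | ⟨rfl | rfl, a⟩ | ⟨b, a⟩ <;>
      simp only [Prod.mk.injEq] at a <;> omega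
  · obtain ⟨i, hi⟩ : ∃ i, m % 5 = i + 1 := ⟨m % 5 - 1, by omega⟩
    have hρ : (d' + flp ψ (m / 5) s') % 2 < 2 := Nat.mod_lt _ (by omega)
    have a := (link_ok _ (kind_lt (ψ := ψ) (m / 5) s') _ hρ).2.2 i (by omega)
    have a1 := isC_iffB.1 a.1
    rw [hi, bar_cell hρ (by omega)] at z2
    rcases sy_inr z2 with ⟨-, b⟩ | ⟨-, b⟩ | ⟨-, b⟩ <;> simp only [Prod.mk.injEq] at b
    · omega
    · omega
    · obtain ⟨b1, b2, b3⟩ := b
      rw [← b3] at b2 z3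
      simp only [own, a.2.1, Bool.false_eq_true, if_false] at b2
      rw [a.2.2.2.2.2, b1, b2] at z3
      omega

theorem NR_pos : 0 < NR ψ := by
  unfold NR NS
  omega

/-- Reference time of a wire. -/
def TT (ψ : List (Clause3 ℕ)) (τ : V → ℝ) (s d : ℕ) : ℝ := τ (wp ψ s d 0)

theorem Cx.cross_wire (X : Cx q ψ h lf rt τ) {s d s' d' : ℕ} (hs : s < NS ψ) (hs' : s' < NS ψ)
    (hd : d < 2) (hd' : d' < 2) (hn : ¬(s = s' ∧ d = d')) :
    ∀ i < 5 * NR ψ, ∀ j < 5 * NR ψ, h (wx q ψ s d i) ≤ h (wx q ψ s' d' (j + 1)) →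
      h (wx q ψ s' d' j) ≤ h (wx q ψ s d (i + 1)) →
      (τ (wp ψ s d i) < τ (wp ψ s' d' j) ↔ TT ψ τ s d < TT ψ τ s' d') ∧
      (τ (wp ψ s' d' j) < τ (wp ψ s d i) ↔ ¬TT ψ τ s d < TT ψ τ s' d') := by
  have m2 : ∀ x : ℕ, x % 2 < 2 := fun x => Nat.mod_lt _ (by omega)
  have m5 : ∀ x : ℕ, x % 5 < 5 := fun x => Nat.mod_lt _ (by omega)
  have pI : ∀ {s d}, s < NS ψ → ∀ i < 5 * NR ψ, wp ψ s d i ∈ pinI q ψ := fun hs i hi =>
    link_pinI (by omega) hs (m2 _) (m5 _)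
  have mm : ∀ {s d}, d < 2 → ∀ i, wx q ψ s d i ∈ pinP q ψ (wp ψ s d i) ∧
      wx q ψ s d (i + 1) ∈ pinP q ψ (wp ψ s d i) := fun hd i => by
    rw [(wx_eq hd i).1, (wx_eq hd i).2]
    exact bar_mem (m2 _) (m5 _)
  have le : ∀ {s d}, s < NS ψ → d < 2 → ∀ i < 5 * NR ψ,
      h (wx q ψ s d i) ≤ h (wx q ψ s d (i + 1)) := fun hs hd i hi => by
    rw [(wx_eq hd i).1, (wx_eq hd i).2]
    exact X.bar_le (by omega) hs (m2 _) (m5 _)
  have al : ∀ {s d}, s < NS ψ → d < 2 → ∀ i < 5 * NR ψ,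
      Al lf rt (wx q ψ s d i) (τ (wp ψ s d i)) ∧ Al lf rt (wx q ψ s d (i + 1)) (τ (wp ψ s d i)) :=
    fun hs hd i hi => ⟨X.G.mem _ (pI hs i hi) _ (mm hd i).1, X.G.mem _ (pI hs i hi) _ (mm hd i).2⟩
  have n0 := NR_pos (ψ := ψ)
  have co : ∀ {s d}, s < NS ψ → d < 2 → ∀ i ≤ 5 * NR ψ, wx q ψ s d i ∈ coreS q ψ := by
    intro s d hs hd i hi
    cases i with
    | zero => exact (X.PF _ (pI hs 0 (by omega))).2.2 _ (mm hd 0).1
    | succ i => exact (X.PF _ (pI hs i hi)).2.2 _ (mm hd i).2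
  have b0 : ∀ {s d s' d'}, s < NS ψ → s' < NS ψ → d < 2 → d' < 2 →
      h (wx q ψ s d 0) < h (wx q ψ s' d' 1) := fun hs hs' hd hd' => by
    rw [(wx_eq hd 0).1, (wx_eq hd' 0).2]
    exact (X.bar_out n0 hs (m2 _)).1.trans (X.bar_in n0 hs' (m2 _) (by omega)).1
  exact no_cross (le hs hd) (le hs' hd') (al hs hd) (al hs' hd')
    (fun i hi j hj a b => X.dead (pI hs' j hj) (co hs hd i hi)
      (wx_not_mem hd' hd (by omega) j i) (mm hd' j).1 (mm hd' j).2 a b)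
    (fun i hi j hj a b => X.dead (pI hs j hj) (co hs' hd' i hi)
      (wx_not_mem hd hd' hn j i) (mm hd j).1 (mm hd j).2 a b)
    (b0 hs hs' hd hd') (b0 hs' hs hd' hd)

/-- The height `y` lies in the segment `i` of the wire of the role `ρ`. -/
def Seg (q : ℕ) (ψ : List (Clause3 ℕ)) (h : V → ℝ) (r s ρ i : ℕ) (y : ℝ) : Prop :=
  h (bar q ψ r s ρ i) ≤ y ∧ y ≤ h (bar q ψ r s ρ (i + 1))

theorem Cx.cross (X : Cx q ψ h lf rt τ) {r s ρ i s' ρ' i' : ℕ} (hr : r < NR ψ) (hs : s < NS ψ)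
    (hs' : s' < NS ψ) (hρ : ρ < 2) (hρ' : ρ' < 2) (hi : i < 5) (hi' : i' < 5)
    (hn : ¬(s = s' ∧ ρ = ρ')) {y : ℝ} (y1 : Seg q ψ h r s ρ i y) (y2 : Seg q ψ h r s' ρ' i' y) :
    (τ (.inr (r, s, 5 * ρ + i)) < τ (.inr (r, s', 5 * ρ' + i')) ↔
      TT ψ τ s ((ρ + flp ψ r s) % 2) < TT ψ τ s' ((ρ' + flp ψ r s') % 2)) ∧
    (τ (.inr (r, s', 5 * ρ' + i')) < τ (.inr (r, s, 5 * ρ + i)) ↔
      ¬TT ψ τ s ((ρ + flp ψ r s) % 2) < TT ψ τ s' ((ρ' + flp ψ r s') % 2)) := by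
  have m2 : ∀ x : ℕ, x % 2 < 2 := fun x => Nat.mod_lt _ (by omega)
  have a := X.cross_wire hs hs' (m2 (ρ + flp ψ r s)) (m2 (ρ' + flp ψ r s')) (by
    rintro ⟨rfl, e⟩
    omega) (5 * r + i) (by omega) (5 * r + i') (by omega)
  have e1 : ∀ i < 5, (5 * r + i) / 5 = r ∧ (5 * r + i) % 5 = i := fun i hi => by omega
  have e2 : ∀ ρ < 2, ∀ s, ((ρ + flp ψ r s) % 2 + flp ψ r s) % 2 = ρ := fun ρ hρ s => by omega
  rw [(wx_eq (m2 _) _).1, (wx_eq (m2 _) _).2, (wx_eq (m2 _) _).1, (wx_eq (m2 _) _).2] at a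
  simp only [wp, (e1 i hi).1, (e1 i hi).2, (e1 i' hi').1, (e1 i' hi').2, e2 ρ hρ, e2 ρ' hρ'] at a
  exact a (y1.1.trans y2.2) (y2.1.trans y1.2)

theorem Cx.dead_seg (X : Cx q ψ h lf rt τ) {r s κ : ℕ} (hr : r < NR ψ) (hs : s < NS ψ)
    (hk : kind ψ r s = κ) {ρ i : ℕ} (hρ : ρ < 2) (hi : i < 5) {o z : ℕ}
    (hw : Sum.inr (r, o, z) ∈ coreS q ψ) (hz : isC z = true) (hn : z ∉ (pin κ (5 * ρ + i)).2)
    (y : Seg q ψ h r s ρ i (h (.inr (r, o, z)))) :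
    ¬Al lf rt (.inr (r, o, z)) (τ (.inr (r, s, 5 * ρ + i))) := by
  subst hk
  exact X.dead (link_pinI hr hs hρ hi) hw (not_mem_code hz hn) (bar_mem hρ hi).1 (bar_mem hρ hi).2
    y.1 y.2

theorem Cx.dead_col (X : Cx q ψ h lf rt τ) {r s κ : ℕ} (hr : r < NR ψ) (hs : s < NS ψ)
    (hk : kind ψ r s = κ) {ρ : ℕ} (hρ : ρ < 2) {o z : ℕ}
    (hw : Sum.inr (r, o, z) ∈ coreS q ψ) (hz : isC z = true)
    (hn : ∀ i < 5, z ∉ (pin κ (5 * ρ + i)).2) (h1 : h (one q ψ r 0 6) < h (.inr (r, o, z)))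
    (h2 : h (.inr (r, o, z)) < h (one q ψ r 0 36)) :
    ∃ i < 5, Seg q ψ h r s ρ i (h (.inr (r, o, z))) ∧
      ¬Al lf rt (.inr (r, o, z)) (τ (.inr (r, s, 5 * ρ + i))) := by
  have a := X.bar_out hr hs hρ
  have : ∃ i < 5, Seg q ψ h r s ρ i (h (.inr (r, o, z))) := by
    by_contra c
    have k : ∀ i ≤ 5, h (bar q ψ r s ρ i) ≤ h (.inr (r, o, z)) := by
      intro i
      induction i with
      | zero => exact fun _ => (a.1.trans h1).le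
      | succ i ih =>
        intro hi
        by_contra d
        exact c ⟨i, hi, ih (by omega), (not_le.1 d).le⟩
    exact not_le.2 (h2.trans a.2) (k 5 le_rfl)
  obtain ⟨i, hi, y⟩ := this
  exact ⟨i, hi, y, X.dead_seg hr hs hk hρ hi hw hz (hn i hi) y⟩

/-- A pin that spans a row and avoids the wires lies on one side of each wire. -/
theorem Cx.span (X : Cx q ψ h lf rt τ) {r s0 κ p : ℕ} (hr : r < NR ψ) (hs0 : s0 < NS ψ)
    (hk : kind ψ r s0 = κ) (h6 : inc κ p 6 = true) (h36 : inc κ p 36 = true)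
    (hw : ∀ z ∈ (pin κ p).2, rl z = 2) {s ρ : ℕ} (hs : s < NS ψ) (hρ : ρ < 2) :
    (∀ i < 5, τ (.inr (r, s, 5 * ρ + i)) < τ (.inr (r, s0, p))) ∨
      ∀ i < 5, τ (.inr (r, s0, p)) < τ (.inr (r, s, 5 * ρ + i)) := by
  subst hk
  have sd : ∀ i < 4, _ := fun i hi => al_side
    (X.G.mem _ (link_pinI hr hs hρ (i := i) (by omega)) _ (bar_mem hρ (by omega)).2)
    (X.G.mem _ (link_pinI hr hs hρ (i := i + 1) (by omega)) _ (bar_mem hρ (by omega)).1)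
    (t := τ (.inr (r, s0, p))) (by
      have a := (link_ok _ (kind_lt (ψ := ψ) r s) ρ hρ).2.2 i hi
      have b := X.bar_in hr hs hρ hi
      refine X.dead (inc_pinI hr hs0 h6) ((X.PF _ (link_pinI hr hs hρ (i := i) (by omega))).2.2 _
        (bar_mem hρ (by omega)).2) ?_ (mem_pin h6 (List.mem_singleton.2 rfl))
        (mem_pin h36 (List.mem_singleton.2 rfl)) b.1.le b.2.le
      rw [bar_cell hρ hi]
      refine not_mem_code a.1 fun c => ?_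
      have := hw _ c
      omega)
  have k : ∀ i < 5, (τ (.inr (r, s, 5 * ρ + i)) < τ (.inr (r, s0, p)) ↔
      τ (.inr (r, s, 5 * ρ + 0)) < τ (.inr (r, s0, p))) ∧
      (τ (.inr (r, s0, p)) < τ (.inr (r, s, 5 * ρ + i)) ↔
      τ (.inr (r, s0, p)) < τ (.inr (r, s, 5 * ρ + 0))) := by
    intro i
    induction i with
    | zero => exact fun _ => ⟨Iff.rfl, Iff.rfl⟩
    | succ i ih =>
      intro hi
      exact ⟨(sd i (by omega)).1.symm.trans (ih (by omega)).1,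
        (sd i (by omega)).2.1.symm.trans (ih (by omega)).2⟩
  by_cases c : τ (.inr (r, s, 5 * ρ + 0)) < τ (.inr (r, s0, p))
  · exact Or.inl fun i hi => (k i hi).1.2 c
  · exact Or.inr fun i hi => (k i hi).2.2 ((sd 0 (by omega)).2.2.2 c)

theorem clk_ok : ∀ ρ < 2, inc 6 (5 * ρ + 3) 10 = true ∧ lt 6 (sq 6 ρ 3) 10 = true ∧
    lt 6 10 (sq 6 ρ 4) = true ∧ ∀ i < 5, 10 ∉ (pin 0 (5 * ρ + i)).2 := by decide +kernel

theorem Cx.clock_side (X : Cx q ψ h lf rt τ) {r s1 d1 s2 d2 s d : ℕ} (hr : r < NR ψ)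
    (h1 : s1 < NS ψ) (h2 : s2 < NS ψ) (hs : s < NS ψ) (e1 : d1 < 2) (e2 : d2 < 2) (e : d < 2)
    (k1 : kind ψ r s1 = 6) (k2 : kind ψ r s2 = 6) (k : kind ψ r s = 0) :
    (TT ψ τ s d < TT ψ τ s1 d1 ↔ TT ψ τ s d < TT ψ τ s2 d2) ∧
      (TT ψ τ s1 d1 < TT ψ τ s d ↔ ¬TT ψ τ s d < TT ψ τ s1 d1) := by
  have m2 : ∀ x : ℕ, x % 2 < 2 := fun x => Nat.mod_lt _ (by omega)
  have ee : ∀ d < 2, ∀ s, ((d + flp ψ r s) % 2 + flp ψ r s) % 2 = d := fun ρ hρ s => by omega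
  have on : ∀ s' < NS ψ, kind ψ r s' = 6 → ∀ ρ < 2,
      Al lf rt (.inr (r, 0, 10)) (τ (.inr (r, s', 5 * ρ + 3))) ∧
      Seg q ψ h r s' ρ 3 (h (.inr (r, 0, 10))) := by
    intro s' hs' k' ρ hρ
    have a := clk_ok ρ hρ
    have b := sq_ok 6 (by omega) ρ hρ
    refine ⟨X.al hr hs' k' _ 10 a.1 rfl, ?_⟩
    simp only [Seg, bar, k']
    exact ⟨(X.lt hr hs' k' _ 10 a.2.1 (b 3 (by omega)).1 rfl).le,
      (X.lt hr hs' k' 10 _ a.2.2.1 rfl (b 4 (by omega)).1).le⟩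
  obtain ⟨i, hi, y, dd⟩ := X.dead_col hr hs k (m2 (d + flp ψ r s)) (o := 0) (z := 10)
    (X.core hr h1 k1 3 10 (by decide +kernel) rfl) rfl (clk_ok _ (m2 _)).2.2.2
    (X.lt hr h1 k1 6 10 (by decide +kernel) rfl rfl)
    (X.lt hr h1 k1 10 36 (by decide +kernel) rfl rfl)
  have o1 := on s1 h1 k1 _ (m2 (d1 + flp ψ r s1))
  have o2 := on s2 h2 k2 _ (m2 (d2 + flp ψ r s2))
  have n1 : s ≠ s1 := fun x => by rw [x, k1] at k; omega
  have n2 : s ≠ s2 := fun x => by rw [x, k2] at k; omega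
  have c1 := X.cross hr hs h1 (m2 _) (m2 _) hi (by omega) (fun x => n1 x.1) y o1.2
  have c2 := X.cross hr hs h2 (m2 _) (m2 _) hi (by omega) (fun x => n2 x.1) y o2.2
  have c3 := X.cross hr h1 hs (m2 _) (m2 _) (by omega) hi (fun x => n1 x.1.symm) o1.2 y
  rw [ee d e, ee d1 e1] at c1 c3
  rw [ee d e, ee d2 e2] at c2
  exact ⟨by rw [← c1.1, ← c2.1]; exact (al_side o1.1 o2.1 dd).2.1, by rw [← c3.1, c1.2]⟩

theorem Cx.clock (X : Cx q ψ h lf rt τ) (h0 : TT ψ τ 0 0 < TT ψ τ (NS ψ - 1) 0) {s d s' d' : ℕ}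
    (hs : s < s') (hs' : s' < NS ψ) (hd : d < 2) (hd' : d' < 2) : TT ψ τ s d < TT ψ τ s' d' := by
  have n : NR ψ = 2 * NS ψ + ψ.length := rfl
  have kp : ∀ x, kind ψ s x = if x ≤ s then 6 else 0 := fun x => by
    rw [kind, if_pos (by omega)]
  have ks : ∀ x, kind ψ (NS ψ + s') x = if s' ≤ x then 6 else 0 := fun x => by
    rw [kind, if_neg (by omega), if_pos (by omega)]
    simp only [show NS ψ + s' ≤ x + NS ψ ↔ s' ≤ x by omega]
  have a := X.clock_side (r := s) (s1 := s) (d1 := d) (s2 := 0) (d2 := 0) (s := NS ψ - 1) (d := 0)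
    (by omega) (by omega) (by omega) (by omega) hd (by omega) (by omega) (by simp [kp])
    (by simp [kp]) (by rw [kp, if_neg (by omega)])
  have b := X.clock_side (r := NS ψ + s') (s1 := s') (d1 := d') (s2 := NS ψ - 1) (d2 := 0) (s := s)
    (d := d) (by omega) hs' (by omega) (by omega) hd' (by omega) hd (by simp [ks])
    (by rw [ks, if_pos (by omega)]) (by rw [ks, if_neg (by omega)])
  exact b.1.2 (a.2.2 fun x => lt_asymm h0 (a.1.1 x))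

end Pool.Agent.Lib.MP_0d8e88_lc.AllK
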